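import Pool.Agent.P.MP_ee6314_co.Defs

-- part Pool.Agent.P.MP_ee6314_co.Comb
section

/-! Forests of decreasing full binary trees: removing the largest label. -/

namespace Pool.Agent.P.MP_ee6314_co

open Finset

/-- Concatenated postorder readings of a forest. -/
def wd (F : List BT) : List ℕ := F.flatMap post

/-- A nonempty decreasing full tree. -/
def Ok (T : BT) : Prop := T ≠ .nil ∧ IsFull T ∧ IsDec T

/-- Forests of `c` trees with label set `A`. -/
def Fo (c : ℕ) (A : Finset ℕ) : Set (List BT) :=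
  {F | F.length = c ∧ (∀ T ∈ F, Ok T) ∧ (wd F : Multiset ℕ) = A.val}

@[simp] theorem wd_nil : wd [] = [] := rfl
@[simp] theorem wd_cons (T : BT) (F : List BT) : wd (T :: F) = post T ++ wd F := by simp [wd]
@[simp] theorem wd_append (F G : List BT) : wd (F ++ G) = wd F ++ wd G := by simp [wd]

theorem lt_of_rootLt : ∀ {T : BT} {a : ℕ}, IsDec T → RootLt T a → ∀ b ∈ post T, b < a
  | .nil, _, _, _, b, hb => by simp [post] at hb
  | .node l c r, a, hd, hr, b, hb => by
    simp only [post, List.mem_append, List.mem_singleton] at hb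
    have hc : c < a := hr
    rcases hb with (hb | hb) | hb
    · exact (lt_of_rootLt hd.2.2.1 hd.1 b hb).trans hc
    · exact (lt_of_rootLt hd.2.2.2 hd.2.1 b hb).trans hc
    · exact hb ▸ hc

theorem rootLt_of_forall {T : BT} {a : ℕ} (h : ∀ b ∈ post T, b < a) : RootLt T a := by
  cases T with
  | nil => trivial
  | node l c r => exact h c (by simp [post])

theorem post_ne_nil {T : BT} (h : T ≠ .nil) : post T ≠ [] := by
  cases T with
  | nil => exact absurd rfl h
  | node l c r => simp [post]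

theorem wd_eq_nil {F : List BT} (h : ∀ T ∈ F, Ok T) : wd F = [] ↔ F = [] := by
  cases F with
  | nil => simp
  | cons T F =>
    have := post_ne_nil (h T (by simp)).1
    simp [this]

theorem des_cons_max {M : ℕ} {v : List ℕ} (hv : ∀ b ∈ v, b < M) :
    des (M :: v) = (if v = [] then 0 else 1) + des v := by
  cases v with
  | nil => simp [des]
  | cons b w => simp [des, hv b (by simp)]

theorem des_split {M : ℕ} {v : List ℕ} (hv : ∀ b ∈ v, b < M) :
    ∀ {u : List ℕ}, (∀ b ∈ u, b < M) →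
      des (u ++ M :: v) = des u + ((if v = [] then 0 else 1) + des v)
  | [], _ => by simp [des_cons_max hv, des]
  | [a], hu => by
    have : ¬ M < a := not_lt.2 (hu a (by simp)).le
    simp [des, this, des_cons_max hv]
  | a :: b :: u, hu => by
    have := des_split hv (u := b :: u) fun c hc => hu c (List.mem_cons_of_mem _ hc)
    simp only [List.cons_append, des] at this ⊢
    rw [this]; ring

theorem split_unique {p : BT → Prop} : ∀ {u u' : List BT} {T T' : BT} {v v' : List BT},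
    u ++ T :: v = u' ++ T' :: v' → p T → p T' → (∀ t ∈ u, ¬ p t) → (∀ t ∈ u', ¬ p t) →
      u = u' ∧ T = T' ∧ v = v'
  | [], [], _, _, _, _, h, _, _, _, _ => by simpa using h
  | [], t :: u', _, _, _, _, h, h1, _, _, h4 => by
    simp only [List.nil_append, List.cons_append, List.cons.injEq] at h
    exact absurd (h.1 ▸ h1) (h4 t (by simp))
  | t :: u, [], _, _, _, _, h, _, h2, h3, _ => by
    simp only [List.nil_append, List.cons_append, List.cons.injEq] at h
    exact absurd (h.1 ▸ h2) (h3 t (by simp))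
  | t :: u, t' :: u', _, _, _, _, h, h1, h2, h3, h4 => by
    simp only [List.cons_append, List.cons.injEq] at h
    obtain ⟨a, b, c⟩ := split_unique h.2 h1 h2 (fun s hs => h3 s (List.mem_cons_of_mem _ hs))
      (fun s hs => h4 s (List.mem_cons_of_mem _ hs))
    exact ⟨by rw [h.1, a], b, c⟩

/-- The forest before the new tree, and the two subtrees of the new tree. -/
def cut (b : Bool) (u : List BT) : List BT × BT × BT :=
  if b then (u.dropLast.dropLast, u.dropLast.getLastD .nil, u.getLastD .nil) else (u, .nil, .nil)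

theorem cut_true (w : List BT) (l r : BT) : cut true (w ++ [l, r]) = (w, l, r) := by
  have h : w ++ [l, r] = (w ++ [l]) ++ [r] := by simp
  simp only [cut, if_true]
  rw [h, List.dropLast_concat, List.dropLast_concat, List.getLastD_concat, List.getLastD_concat]

theorem exists_two {u : List BT} {i : ℕ} (h : u.length = i + 2) :
    ∃ w l r, u = w ++ [l, r] ∧ w.length = i := by
  rcases List.eq_nil_or_concat u with rfl | ⟨u1, r, rfl⟩
  · simp at h
  rcases List.eq_nil_or_concat u1 with rfl | ⟨w, l, rfl⟩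
  · simp at h
  exact ⟨w, l, r, by simp, by simpa using h⟩

/-- Insert a new tree with root `M`. -/
def glue (M : ℕ) (b : Bool) (u v : List BT) : List BT :=
  (cut b u).1 ++ BT.node (cut b u).2.1 M (cut b u).2.2 :: v

theorem cut_spec {b : Bool} {u : List BT} {i : ℕ} (h : u.length = i + if b then 2 else 0)
    (hu : ∀ T ∈ u, Ok T) : (cut b u).1.length = i ∧ (∀ T ∈ (cut b u).1, T ∈ u) ∧
      wd u = wd (cut b u).1 ++ post (cut b u).2.1 ++ post (cut b u).2.2 ∧
      IsFull (cut b u).2.1 ∧ IsFull (cut b u).2.2 ∧ IsDec (cut b u).2.1 ∧ IsDec (cut b u).2.2 ∧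
      ((cut b u).2.1 = .nil ↔ b = false) ∧ ((cut b u).2.2 = .nil ↔ b = false) ∧
      u = (cut b u).1 ++ if b then [(cut b u).2.1, (cut b u).2.2] else [] := by
  cases b with
  | false =>
    simp only [Bool.false_eq_true, if_false, add_zero] at h
    simp [cut, h, post, IsFull, IsDec]
  | true =>
    obtain ⟨w, l, r, rfl, hw⟩ := exists_two (by simpa using h)
    rw [cut_true]
    have hl := hu l (by simp)
    have hr := hu r (by simp)
    refine ⟨hw, fun T hT => by simp [show T ∈ w from hT], by simp, hl.2.1, hr.2.1, hl.2.2, hr.2.2,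
      by simpa using hl.1, by simpa using hr.1, by simp⟩

theorem mem_of_Fo {c : ℕ} {A : Finset ℕ} {F : List BT} (h : F ∈ Fo c A) {b : ℕ} :
    b ∈ wd F ↔ b ∈ A := by
  rw [← Multiset.mem_coe, h.2.2]; rfl

variable {R : Type} [CommSemiring R] (x : R)

theorem step_sum {n : ℕ} (G : ℕ → ℕ → R) (fs : ℕ → Finset ℕ → Finset (List BT))
    (hfs : ∀ c B, B.card ≤ n → (∀ F, F ∈ fs c B ↔ F ∈ Fo c B) ∧
      ∑ F ∈ fs c B, x ^ des (wd F) = G B.card c)
    (A : Finset ℕ) (hA : A.card = n + 1) (c : ℕ) :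
    ∃ s : Finset (List BT), (∀ F, F ∈ s ↔ F ∈ Fo c A) ∧ ∑ F ∈ s, x ^ des (wd F) =
      ∑ i ∈ range c, ∑ j ∈ range (n + 1), (n.choose j : R) * ((G j i + G j (i + 2)) *
        ((if c - 1 - i = 0 then 1 else x) * G (n - j) (c - 1 - i))) := by
  classical
  have hne : A.Nonempty := card_pos.1 (by omega)
  set M := A.max' hne with hM
  set A' := A.erase M with hA'
  have hMA : M ∈ A := max'_mem _ _
  have hcard : A'.card = n := by rw [hA', card_erase_of_mem hMA]; omega
  have hlt : ∀ b ∈ A', b < M := fun b hb =>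
    lt_of_le_of_ne (le_max' _ _ (mem_of_mem_erase hb)) (ne_of_mem_erase hb)
  have hval : A.val = M ::ₘ A'.val := by
    rw [hA', erase_val, Multiset.cons_erase (show M ∈ A.val from hMA)]
  let P : Finset (Σ _ : ℕ × Finset ℕ × Bool, List BT × List BT) :=
    (range c ×ˢ A'.powerset ×ˢ univ).sigma fun p =>
      fs (p.1 + if p.2.2 then 2 else 0) p.2.1 ×ˢ fs (c - 1 - p.1) (A' \ p.2.1)
  have hP : ∀ q ∈ P, q.1.1 < c ∧ q.1.2.1 ⊆ A' ∧ q.2.1 ∈ Fo (q.1.1 + if q.1.2.2 then 2 else 0) q.1.2.1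
      ∧ q.2.2 ∈ Fo (c - 1 - q.1.1) (A' \ q.1.2.1) := by
    intro q hq
    simp only [P, mem_sigma, mem_product, mem_range, mem_powerset, mem_univ, and_true] at hq
    refine ⟨hq.1.1, hq.1.2, ((hfs _ _ ?_).1 _).1 hq.2.1, ((hfs _ _ ?_).1 _).1 hq.2.2⟩
    · exact hcard ▸ card_le_card hq.1.2
    · exact hcard ▸ card_le_card sdiff_subset
  have hwd : ∀ q ∈ P, wd (glue M q.1.2.2 q.2.1 q.2.2) = wd q.2.1 ++ M :: wd q.2.2 := by
    intro q hq
    obtain ⟨-, -, h3, -⟩ := hP q hq
    rw [(cut_spec h3.1 h3.2.1).2.2.1]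
    simp [glue, post]
  refine ⟨P.image fun q => glue M q.1.2.2 q.2.1 q.2.2, fun F => ⟨fun hF => ?_, fun hF => ?_⟩, ?_⟩
  · obtain ⟨q, hq, rfl⟩ := mem_image.1 hF
    obtain ⟨h1, h2, h3, h4⟩ := hP q hq
    obtain ⟨c1, c2, c3, c4, c5, c6, c7, c8, c9, -⟩ := cut_spec h3.1 h3.2.1
    refine ⟨?_, ?_, ?_⟩
    · simp only [glue, List.length_append, List.length_cons, c1, h4.1]; omega
    · intro T hT
      simp only [glue, List.mem_append, List.mem_cons] at hT
      rcases hT with hT | rfl | hT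
      · exact h3.2.1 T (c2 T hT)
      · refine ⟨by simp, ⟨c8.trans c9.symm, c4, c5⟩, rootLt_of_forall fun b hb => ?_,
          rootLt_of_forall fun b hb => ?_, c6, c7⟩
        · exact hlt b (h2 ((mem_of_Fo h3).1 (by rw [c3]; simp [hb])))
        · exact hlt b (h2 ((mem_of_Fo h3).1 (by rw [c3]; simp [hb])))
      · exact h4.2.1 T hT
    · rw [hwd q hq, ← Multiset.coe_add, ← Multiset.cons_coe, h3.2.2, h4.2.2, hval,
        Multiset.add_cons, sdiff_val, add_tsub_cancel_of_le (val_le_iff.2 h2)]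
  · have hMF : M ∈ wd F := (mem_of_Fo hF).2 hMA
    obtain ⟨T, hT, hMT⟩ := List.mem_flatMap.1 hMF
    obtain ⟨w, v, rfl⟩ := List.append_of_mem hT
    have hOk := hF.2.1 T hT
    cases T with
    | nil => exact absurd rfl hOk.1
    | node l a r =>
      have ha : a = M := by
        have h1 : a ≤ M := le_max' _ _ ((mem_of_Fo hF).1 (by simp [post]))
        simp only [post, List.mem_append, List.mem_singleton] at hMT
        rcases hMT with (h | h) | h
        · exact absurd (lt_of_rootLt hOk.2.2.2.2.1 hOk.2.2.1 _ h) (not_lt.2 h1)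
        · exact absurd (lt_of_rootLt hOk.2.2.2.2.2 hOk.2.2.2.1 _ h) (not_lt.2 h1)
        · exact h.symm
      subst ha
      obtain ⟨b, u, hcut, hlen, hu, hw⟩ : ∃ b u, cut b u = (w, l, r) ∧
          u.length = w.length + (if b then 2 else 0) ∧ (∀ T ∈ u, Ok T) ∧
          wd u = wd w ++ post l ++ post r := by
        by_cases hl : l = .nil
        · have hr : r = .nil := hOk.2.1.1.1 hl
          subst hl hr
          exact ⟨false, w, rfl, by simp, fun T hT => hF.2.1 T (by simp [hT]), by simp [post]⟩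
        · have hr : r ≠ .nil := fun h => hl (hOk.2.1.1.2 h)
          refine ⟨true, w ++ [l, r], cut_true _ _ _, by simp, fun T hT => ?_, by simp⟩
          simp only [List.mem_append, List.mem_cons, List.not_mem_nil, or_false] at hT
          rcases hT with hT | rfl | rfl
          · exact hF.2.1 T (by simp [hT])
          · exact ⟨hl, hOk.2.1.2.1, hOk.2.2.2.2.1⟩
          · exact ⟨hr, hOk.2.1.2.2, hOk.2.2.2.2.2⟩
      have hsum : (wd u : Multiset ℕ) + (wd v : Multiset ℕ) = A'.val := by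
        have h := hF.2.2
        rw [hval, show wd (w ++ BT.node l M r :: v) = wd u ++ M :: wd v by simp [hw, post],
          ← Multiset.coe_add, ← Multiset.cons_coe, Multiset.add_cons] at h
        exact (Multiset.cons_inj_right _).1 h
      have hle : (wd u : Multiset ℕ) ≤ A'.val := hsum ▸ Multiset.le_add_right _ _
      let B : Finset ℕ := ⟨wd u, Multiset.nodup_of_le hle A'.nodup⟩
      have hB : B ⊆ A' := val_le_iff.1 hle
      have hc : c = w.length + 1 + v.length := by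
        rw [← hF.1]; simp; ring
      refine mem_image.2 ⟨⟨(w.length, B, b), (u, v)⟩, ?_, by simp [glue, hcut]⟩
      simp only [P, mem_sigma, mem_product, mem_range, mem_powerset, mem_univ, and_true]
      refine ⟨⟨by omega, hB⟩, ((hfs _ _ (hcard ▸ card_le_card hB)).1 _).2 ⟨hlen, hu, rfl⟩,
        ((hfs _ _ (hcard ▸ card_le_card sdiff_subset)).1 _).2 ⟨by omega,
          fun T hT => hF.2.1 T (by simp [hT]), ?_⟩⟩
      rw [sdiff_val, ← hsum]
      exact (add_tsub_cancel_left _ _).symm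
  · rw [sum_image]
    · have e1 : ∀ q ∈ P, x ^ des (wd (glue M q.1.2.2 q.2.1 q.2.2)) =
          x ^ des (wd q.2.1) * ((if c - 1 - q.1.1 = 0 then 1 else x) * x ^ des (wd q.2.2)) := by
        intro q hq
        obtain ⟨h1, h2, h3, h4⟩ := hP q hq
        rw [hwd q hq, des_split (fun b hb => hlt b (sdiff_subset ((mem_of_Fo h4).1 hb)))
          (fun b hb => hlt b (h2 ((mem_of_Fo h3).1 hb))), pow_add, pow_add]
        have e : wd q.2.2 = [] ↔ c - 1 - q.1.1 = 0 := by
          rw [wd_eq_nil h4.2.1, ← List.length_eq_zero_iff, h4.1]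
        by_cases h0 : c - 1 - q.1.1 = 0
        · simp [h0, e.2 h0]
        · rw [if_neg h0, if_neg (mt e.1 h0), pow_one]
      rw [sum_congr rfl e1, sum_sigma, sum_product]
      refine sum_congr rfl fun i _ => ?_
      rw [sum_product]
      have e2 : ∀ B ∈ A'.powerset, ∑ b : Bool, ∑ q ∈ fs (i + if b then 2 else 0) B ×ˢ
          fs (c - 1 - i) (A' \ B), x ^ des (wd q.1) * ((if c - 1 - i = 0 then 1 else x) *
            x ^ des (wd q.2)) = (G B.card i + G B.card (i + 2)) *
              ((if c - 1 - i = 0 then 1 else x) * G (n - B.card) (c - 1 - i)) := by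
        intro B hB
        have hB' := mem_powerset.1 hB
        have k1 : B.card ≤ n := hcard ▸ card_le_card hB'
        have k2 : (A' \ B).card = n - B.card := by rw [card_sdiff_of_subset hB', hcard]
        simp only [sum_product, ← mul_sum, ← sum_mul, Fintype.sum_bool, if_true,
          Bool.false_eq_true, if_false, add_zero, (hfs _ _ k1).2,
          (hfs _ (A' \ B) (by omega)).2, k2]
        ring
      rw [sum_congr rfl e2, sum_powerset_apply_card (fun j => (G j i + G j (i + 2)) *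
        ((if c - 1 - i = 0 then 1 else x) * G (n - j) (c - 1 - i))), hcard]
      simp only [nsmul_eq_mul]
    · rintro ⟨⟨i, B, b⟩, u, v⟩ hq ⟨⟨i', B', b'⟩, u', v'⟩ hq' h
      obtain ⟨-, h2, h3, -⟩ := hP _ hq
      obtain ⟨-, h2', h3', -⟩ := hP _ hq'
      obtain ⟨c1, c2, -, -, -, -, -, c8, -, c10⟩ := cut_spec h3.1 h3.2.1
      obtain ⟨d1, d2, -, -, -, -, -, d8, -, d10⟩ := cut_spec h3'.1 h3'.2.1
      simp only at h c1 c2 c8 c10 d1 d2 d8 d10 h2 h3 h2' h3'
      have no : ∀ {u : List BT} {k B}, u ∈ Fo k B → B ⊆ A' → ∀ t ∈ u, ¬ M ∈ post t :=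
        fun hu hB t ht hm => lt_irrefl _ (hlt M (hB ((mem_of_Fo hu).1
          (List.mem_flatMap.2 ⟨t, ht, hm⟩))))
      obtain ⟨e1, e2, e3⟩ := split_unique (p := fun t => M ∈ post t) h (by simp [post])
        (by simp [post]) (fun t ht => no h3 h2 t (c2 t ht)) (fun t ht => no h3' h2' t (d2 t ht))
      simp only [BT.node.injEq, true_and] at e2
      have eb : b = b' := by
        rw [e2.1, d8] at c8
        revert c8
        cases b <;> cases b' <;> simp
      subst eb
      have eu : u = u' := by rw [c10, d10, e1, e2.1, e2.2]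
      subst eu e3
      have ei : i = i' := by rw [← c1, ← d1]
      have eB : B = B' := by
        apply val_injective
        exact h3.2.2.symm.trans h3'.2.2
      subst ei eB
      rfl

/-- Descent generating function of the forests of `c` trees on `n` labels. -/
noncomputable def gf (n c : ℕ) : R := ∑ᶠ F ∈ Fo c (range n), x ^ des (wd F)

theorem sum_eq_finsum {c : ℕ} {A : Finset ℕ} {s : Finset (List BT)} (h : ∀ F, F ∈ s ↔ F ∈ Fo c A) :
    ∑ᶠ F ∈ Fo c A, x ^ des (wd F) = ∑ F ∈ s, x ^ des (wd F) := by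
  rw [← finsum_mem_coe_finset]
  congr 1
  ext F
  rw [show Fo c A = (s : Set (List BT)) from Set.ext fun F => (h F).symm]

theorem Fo_empty (c : ℕ) (F : List BT) : F ∈ Fo c ∅ ↔ c = 0 ∧ F = [] := by
  constructor
  · intro h
    have : F = [] := (wd_eq_nil h.2.1).1 (by simpa using h.2.2)
    exact ⟨by rw [← h.1, this]; rfl, this⟩
  · rintro ⟨rfl, rfl⟩
    exact ⟨rfl, by simp, rfl⟩

theorem exists_fs (n : ℕ) : ∃ fs : ℕ → Finset ℕ → Finset (List BT), ∀ c B, B.card ≤ n →
    (∀ F, F ∈ fs c B ↔ F ∈ Fo c B) ∧ ∑ F ∈ fs c B, x ^ des (wd F) = gf x B.card c := by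
  induction n with
  | zero =>
    refine ⟨fun c _ => if c = 0 then {[]} else ∅, fun c B hB => ?_⟩
    obtain rfl : B = ∅ := card_eq_zero.1 (by omega)
    have h : ∀ F, F ∈ (if c = 0 then {[]} else ∅ : Finset (List BT)) ↔ F ∈ Fo c ∅ := by
      intro F
      rw [Fo_empty]
      split_ifs with hc <;> simp [hc]
    exact ⟨h, (sum_eq_finsum x h).symm⟩
  | succ n ih =>
    obtain ⟨fs, hfs⟩ := ih
    have key : ∀ c (B : Finset ℕ), ∃ s : Finset (List BT), B.card ≤ n + 1 →
        (∀ F, F ∈ s ↔ F ∈ Fo c B) ∧ ∑ F ∈ s, x ^ des (wd F) = gf x B.card c := by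
      intro c B
      by_cases hB : B.card = n + 1
      · obtain ⟨s, h1, h2⟩ := step_sum x (gf x) fs hfs B hB c
        obtain ⟨s', h1', h2'⟩ := step_sum x (gf x) fs hfs (range (n + 1)) (card_range _) c
        refine ⟨s, fun _ => ⟨h1, ?_⟩⟩
        rw [hB, h2, ← h2', gf, sum_eq_finsum x h1']
      · exact ⟨fs c B, fun h => hfs c B (by omega)⟩
    choose fs' h using key
    exact ⟨fs', h⟩

theorem gf_zero (c : ℕ) : gf x 0 c = if c = 0 then 1 else 0 := by
  have h : ∀ F, F ∈ (if c = 0 then {[]} else ∅ : Finset (List BT)) ↔ F ∈ Fo c ∅ := by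
    intro F
    rw [Fo_empty]
    split_ifs with hc <;> simp [hc]
  rw [gf, range_zero, sum_eq_finsum x h]
  split_ifs <;> simp [des]

theorem gf_succ (n c : ℕ) : gf x (n + 1) c =
    ∑ i ∈ range c, ∑ j ∈ range (n + 1), (n.choose j : R) * ((gf x j i + gf x j (i + 2)) *
      ((if c - 1 - i = 0 then 1 else x) * gf x (n - j) (c - 1 - i))) := by
  obtain ⟨fs, hfs⟩ := exists_fs x n
  obtain ⟨s', h1', h2'⟩ := step_sum x (gf x) fs hfs (range (n + 1)) (card_range _) c
  rw [← h2', gf, sum_eq_finsum x h1']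

/-- The trees with `m ≥ 1` vertices form a finite set with generating function `gf`. -/
theorem trees_sum {m : ℕ} (hm : 1 ≤ m) : ∃ s : Finset BT, (s : Set BT) = Trees m ∧
    ∀ (R : Type) [CommSemiring R] (x : R), ∑ T ∈ s, x ^ des (post T) = gf x m 1 := by
  classical
  let A : Finset ℕ := ⟨List.range' 1 m, List.nodup_range'⟩
  have hA : A.card = m := by simp [A, card]
  have hT : ∀ T, T ∈ Trees m ↔ [T] ∈ Fo 1 A := by
    intro T
    simp only [Trees, Fo, Set.mem_ofPred_eq, List.length_singleton, List.mem_singleton, forall_eq,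
      Ok, wd_cons, wd_nil, List.append_nil, A, Multiset.coe_eq_coe, true_and]
    refine ⟨fun h => ⟨⟨?_, h.1, h.2.1⟩, h.2.2⟩, fun h => ⟨h.1.2.1, h.1.2.2, h.2⟩⟩
    rintro rfl
    have := h.2.2.length_eq
    simp [post] at this
    omega
  obtain ⟨fs, hfs⟩ := exists_fs (1 : ℕ) m
  have h1 := (hfs 1 A hA.le).1
  have hinj : Set.InjOn (fun T : BT => [T]) ((fun T : BT => [T]) ⁻¹' (fs 1 A : Set (List BT))) := by
    intro _ _ _ _ h
    simpa using h
  have hmem : ∀ T, T ∈ (fs 1 A).preimage (fun T : BT => [T]) hinj ↔ [T] ∈ fs 1 A :=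
    fun T => mem_preimage
  refine ⟨(fs 1 A).preimage (fun T => [T]) hinj, ?_, ?_⟩
  · ext T
    rw [mem_coe, hmem, hT, h1]
  · intro R _ x
    obtain ⟨fs', hfs'⟩ := exists_fs x m
    obtain ⟨h2, h3⟩ := hfs' 1 A hA.le
    rw [hA] at h3
    rw [← h3]
    refine sum_bij (fun T _ => [T]) (fun T hT => ?_) (fun _ _ _ _ h => by simpa using h)
      (fun F hF => ?_) (fun T _ => by simp)
    · rw [h2, ← h1]
      exact (hmem T).1 hT
    · have hF' := (h2 F).1 hF
      obtain ⟨T, rfl⟩ := List.length_eq_one_iff.1 hF'.1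
      exact ⟨T, (hmem T).2 ((h1 _).2 hF'), rfl⟩

end Pool.Agent.P.MP_ee6314_co
end

-- part Pool.Agent.P.MP_ee6314_co.Egf
section

/-! The exponential generating function of the trees is a logarithmic derivative. -/

namespace Pool.Agent.P.MP_ee6314_co

open Finset PowerSeries

section egf
variable {B : Type} [CommRing B] [Algebra ℚ B]

/-- Exponential generating function. -/
noncomputable def egf (v : ℕ → B) : B⟦X⟧ := PowerSeries.mk fun n => ((n.factorial : ℚ)⁻¹) • v n

theorem egf_mul (v w : ℕ → B) : egf v * egf w =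
    egf fun n => ∑ j ∈ range (n + 1), (n.choose j : B) * (v j * w (n - j)) := by
  ext n
  simp only [egf, coeff_mul, coeff_mk, Nat.sum_antidiagonal_eq_sum_range_succ_mk, smul_sum]
  refine sum_congr rfl fun j hj => ?_
  have hj' : j ≤ n := Nat.lt_succ_iff.1 (mem_range.1 hj)
  have h := Nat.choose_mul_factorial_mul_factorial hj'
  have h' : (n.factorial : ℚ) = n.choose j * j.factorial * (n - j).factorial := by
    exact_mod_cast h.symm
  have h1 : (j.factorial : ℚ) ≠ 0 := by exact_mod_cast j.factorial_ne_zero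
  have h2 : ((n - j).factorial : ℚ) ≠ 0 := by exact_mod_cast (n - j).factorial_ne_zero
  have h3 : (n.choose j : ℚ) ≠ 0 := by exact_mod_cast (Nat.choose_pos hj').ne'
  rw [smul_mul_smul_comm, ← nsmul_eq_mul, ← Nat.cast_smul_eq_nsmul ℚ, smul_smul, h']
  congr 1
  field_simp

theorem egf_deriv (v : ℕ → B) : d⁄dX B (egf v) = egf fun n => v (n + 1) := by
  ext n
  simp only [egf, coeff_derivative, coeff_mk]
  have h1 : (n.factorial : ℚ) ≠ 0 := by exact_mod_cast n.factorial_ne_zero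
  have : ((n : B) + 1) = ((n + 1 : ℕ) : B) := by push_cast; ring
  rw [this, mul_comm, ← nsmul_eq_mul, ← Nat.cast_smul_eq_nsmul ℚ, smul_smul, Nat.factorial_succ]
  congr 1
  push_cast
  field_simp

omit [Algebra ℚ B] in
theorem deriv_mul_sub (f g h : B⟦X⟧) :
    d⁄dX B (f * g - h) = f * d⁄dX B g + g * d⁄dX B f - d⁄dX B h := by
  rw [map_sub, Derivation.leibniz, smul_eq_mul, smul_eq_mul]

theorem egf_add (v w : ℕ → B) : egf v + egf w = egf fun n => v n + w n := by
  ext n; simp [egf]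

theorem egf_sub (v w : ℕ → B) : egf v - egf w = egf fun n => v n - w n := by
  ext n; simp [egf, smul_sub]

theorem C_mul_egf (a : B) (v : ℕ → B) : C a * egf v = egf fun n => a * v n := by
  ext n; simp [egf]

theorem egf_one : egf (fun n => if n = 0 then (1 : B) else 0) = 1 := by
  ext n
  cases n <;> simp [egf, coeff_one]

theorem coeff_egf_eq_zero {v : ℕ → B} {n : ℕ} : coeff n (egf v) = 0 ↔ v n = 0 := by
  have h1 : (n.factorial : ℚ) ≠ 0 := by exact_mod_cast n.factorial_ne_zero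
  simp only [egf, coeff_mk]
  refine ⟨fun h => ?_, fun h => by simp [h]⟩
  have := congrArg (fun b => (n.factorial : ℚ) • b) h
  simpa [smul_smul, mul_inv_cancel₀ h1] using this

end egf

section paths
variable {R : Type} [CommRing R] (x : R)

/-- Weighted lattice paths with `n` steps from height `c` to height zero. -/
def pa : ℕ → ℕ → R
  | 0, c => if c = 0 then 1 else 0
  | n + 1, 0 => pa n 1
  | n + 1, 1 => pa n 2 - x * pa n 0
  | n + 1, c + 2 => pa n (c + 3) + (1 - x) * pa n (c + 1)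

theorem gf_nil (n : ℕ) : gf x n 0 = if n = 0 then 1 else 0 := by
  cases n with
  | zero => simp [gf_zero]
  | succ n => simp [gf_succ]

/-- The series in the number of trees. -/
noncomputable def uu (n : ℕ) : R⟦X⟧ :=
  PowerSeries.mk fun c => (if c = 0 then 1 else x) * gf x n c

theorem uu_succ (n : ℕ) : X * uu x (n + 1) = ∑ j ∈ range (n + 1), (n.choose j : R⟦X⟧) *
    ((X ^ 2 * (uu x j - C (1 - x) * if j = 0 then 1 else 0) + (uu x j - if j = 0 then 1 else 0)
      - X * C (x * gf x j 1)) * uu x (n - j)) := by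
  have h1 : ∀ j, (X ^ 2 * (uu x j - C (1 - x) * if j = 0 then 1 else 0) +
      (uu x j - if j = 0 then 1 else 0) - X * C (x * gf x j 1) : R⟦X⟧) =
      X * (X * (C x * PowerSeries.mk fun i => gf x j i + gf x j (i + 2))) := by
    intro j
    ext c
    rw [pow_two, mul_assoc]
    rcases c with _ | _ | _ | c
    · by_cases hj : j = 0 <;> simp [uu, gf_nil, hj]
    · by_cases hj : j = 0 <;> simp [uu, hj, coeff_succ_X_mul, coeff_one]
    · by_cases hj : j = 0 <;> simp [uu, gf_nil, hj, coeff_succ_X_mul, coeff_one, mul_add]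
    · by_cases hj : j = 0 <;> simp [uu, hj, coeff_succ_X_mul, coeff_one, mul_add]
  simp only [h1]
  have h2 : ∀ j, (n.choose j : R⟦X⟧) * (X * (X * (C x * PowerSeries.mk fun i =>
      gf x j i + gf x j (i + 2))) * uu x (n - j)) = X * (X * (C (x * n.choose j) *
        ((PowerSeries.mk fun i => gf x j i + gf x j (i + 2)) * uu x (n - j)))) := by
    intro j
    rw [map_mul, map_natCast]; ring
  simp only [h2, ← mul_sum]
  congr 1
  ext c
  rcases c with _ | c
  · simp [uu, gf_nil]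
  · rw [coeff_succ_X_mul, map_sum]
    simp only [coeff_C_mul]
    simp only [uu, coeff_mk, coeff_mul, Nat.sum_antidiagonal_eq_sum_range_succ_mk,
      gf_succ, Nat.succ_ne_zero, if_false, Nat.add_sub_cancel]
    rw [sum_comm, mul_sum]
    refine sum_congr rfl fun j _ => ?_
    rw [mul_sum, mul_sum]
    exact sum_congr rfl fun i _ => by ring

theorem pa_succ (n : ℕ) : X * (PowerSeries.mk (pa x (n + 1)) : R⟦X⟧) =
    (C (1 - x) * X ^ 2 + 1) * PowerSeries.mk (pa x n) - (X ^ 2 + 1) * C (pa x n 0) := by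
  have : (C (1 - x) * X ^ 2 + 1) * PowerSeries.mk (pa x n) - (X ^ 2 + 1) * C (pa x n 0) =
      X * (X * (C (1 - x) * PowerSeries.mk (pa x n) - C (pa x n 0))) +
        (PowerSeries.mk (pa x n) - C (pa x n 0)) := by ring
  rw [this]
  ext c
  rcases c with _ | _ | _ | c
  · simp
  · simp [coeff_succ_X_mul, pa]
  · simp [coeff_succ_X_mul, pa]
    ring
  · rw [coeff_succ_X_mul, map_add, coeff_succ_X_mul, coeff_succ_X_mul, map_sub, coeff_C_mul]
    simp [pa]
    ring

theorem pa_rec [IsDomain R] [Algebra ℚ R] (n : ℕ) : pa x (n + 1) 0 =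
    -∑ j ∈ range (n + 1), (n.choose j : R) * (x * gf x j 1 * pa x (n - j) 0) := by
  have : CharZero R⟦X⟧ := algebraRat.charZero _
  set U : R⟦X⟧⟦X⟧ := egf (uu x) with hU
  set Y : R⟦X⟧⟦X⟧ := egf fun n => PowerSeries.mk (pa x n) with hY
  set Φ : R⟦X⟧⟦X⟧ := egf fun n => C (pa x n 0) with hΦ
  set U1 : R⟦X⟧⟦X⟧ := egf fun n => C (x * gf x n 1) with hU1
  set Y1 : R⟦X⟧⟦X⟧ := egf fun n => C (pa x n 1) with hY1
  set t : R⟦X⟧⟦X⟧ := C X with ht
  set s : R⟦X⟧⟦X⟧ := C (C (1 - x)) with hs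
  have e1 : t * d⁄dX _ U = (t ^ 2 * (U - s) + (U - 1) - t * U1) * U := by
    rw [← mul_one s, ← egf_one, hU, hU1, ht, hs, egf_deriv, ← map_pow]
    simp only [C_mul_egf, egf_sub, egf_add, egf_mul, uu_succ]
  have e2 : t * d⁄dX _ Y = (s * t ^ 2 + 1) * Y - (t ^ 2 + 1) * Φ := by
    rw [hY, hΦ, ht, hs, egf_deriv, ← map_pow, ← map_mul, ← map_one (C : R⟦X⟧ →+* R⟦X⟧⟦X⟧),
      ← map_add, ← map_add]
    simp only [C_mul_egf, egf_sub, pa_succ]
  have e3 : d⁄dX _ Φ = Y1 := by rw [hΦ, egf_deriv]; rfl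
  have e4 : t * d⁄dX _ (U * Y - Φ) =
      ((t ^ 2 + 1) * U - t * U1) * (U * Y - Φ) - t * (U1 * Φ + Y1) := by
    rw [deriv_mul_sub, e3]
    linear_combination U * e2 + Y * e1
  have e5 : ∀ m, coeff m (U * Y - Φ) = 0 → coeff m (U1 * Φ + Y1) = 0 := by
    intro m
    rw [hU, hY, hΦ, hU1, hY1, egf_mul, egf_mul, egf_sub, egf_add, coeff_egf_eq_zero,
      coeff_egf_eq_zero]
    intro h
    have h1 := congrArg (fun f => (C (coeff 1 f) : R⟦X⟧)) h
    simp only [map_sub, map_sum, map_zero, coeff_C, one_ne_zero, if_false, sub_zero] at h1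
    rw [← h1]
    have h2 : ∀ j, (C (coeff 1 ((m.choose j : R⟦X⟧) * (uu x j * PowerSeries.mk (pa x (m - j))))) :
        R⟦X⟧) = (m.choose j : R⟦X⟧) * (C (x * gf x j 1) * C (pa x (m - j) 0)) +
          if j = 0 then C (pa x m 1) else 0 := by
      intro j
      rw [← map_natCast (C : R →+* R⟦X⟧), coeff_C_mul, coeff_mul, Nat.antidiagonal_succ]
      by_cases hj : j = 0
      · simp [uu, hj, gf_nil, add_comm]
      · simp [uu, hj, gf_nil]
    simp only [h2, sum_add_distrib]
    simp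
  have e6 : ∀ m, (X : R⟦X⟧⟦X⟧) ^ (m + 1) ∣ U * Y - Φ := by
    intro m
    induction m with
    | zero =>
      rw [zero_add, pow_one, X_dvd_iff, ← coeff_zero_eq_constantCoeff_apply, hU, hY, hΦ, egf_mul,
        egf_sub, coeff_egf_eq_zero]
      have a1 : uu x 0 = 1 := by
        ext c
        cases c <;> simp [uu, gf_zero, coeff_one]
      have a2 : (PowerSeries.mk (pa x 0) : R⟦X⟧) = 1 := by
        ext c
        cases c <;> simp [pa, coeff_one]
      rw [sum_range_one, Nat.sub_self, a1, a2]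
      simp [pa]
    | succ m ih =>
      have h1 : (X : R⟦X⟧⟦X⟧) ^ (m + 1) ∣ U1 * Φ + Y1 :=
        X_pow_dvd_iff.2 fun j hj => e5 j (X_pow_dvd_iff.1 ih j hj)
      have h2 : (X : R⟦X⟧⟦X⟧) ^ (m + 1) ∣ t * d⁄dX _ (U * Y - Φ) := by
        rw [e4]
        exact (ih.mul_left _).sub (h1.mul_left _)
      have h3 := X_pow_dvd_iff.1 h2 m (Nat.lt_succ_self m)
      rw [ht, coeff_C_mul, coeff_derivative, mul_eq_zero, mul_eq_zero] at h3
      refine X_pow_dvd_iff.2 fun j hj => ?_
      rcases Nat.lt_succ_iff_lt_or_eq.1 hj with h | rfl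
      · exact X_pow_dvd_iff.1 ih j h
      · rcases h3 with h | h | h
        · exact absurd h X_ne_zero
        · exact h
        · exact absurd h (by exact_mod_cast Nat.succ_ne_zero m)
  have e7 := e5 n (X_pow_dvd_iff.1 (e6 n) n (Nat.lt_succ_self n))
  rw [hΦ, hU1, hY1, egf_mul, egf_add, coeff_egf_eq_zero] at e7
  have e8 := congrArg (fun f : R⟦X⟧ => constantCoeff f) e7
  simp only [map_add, map_sum, map_mul, map_natCast, constantCoeff_C, map_zero] at e8
  rw [pa]
  linear_combination e8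

/-- Ballot paths with weight `1 - x` on the down steps. -/
def pb : ℕ → ℕ → R
  | 0, c => if c = 0 then 1 else 0
  | n + 1, 0 => pb n 1
  | n + 1, c + 1 => pb n (c + 2) + (1 - x) * pb n c

theorem pb_eq : ∀ n c : ℕ, pb x n c = if (n + c) % 2 = 0 then (1 - x) ^ ((n + c) / 2) *
    ((n.choose ((n + c) / 2) : R) - n.choose ((n + c) / 2 + 1)) else 0
  | 0, c => by
    rcases c with _ | c
    · simp [pb]
    · simp only [pb, Nat.succ_ne_zero, if_false, zero_add]
      split_ifs with h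
      · rw [Nat.choose_eq_zero_of_lt (by omega), Nat.choose_eq_zero_of_lt (by omega)]; simp
      · rfl
  | n + 1, 0 => by
    rw [pb, pb_eq n 1, add_zero]
    split_ifs with h
    · obtain ⟨t, rfl⟩ : ∃ t, n = 2 * t + 1 := ⟨n / 2, by omega⟩
      rw [show (2 * t + 1 + 1) / 2 = t + 1 by omega, Nat.choose_succ_succ' (2 * t + 1) t,
        Nat.choose_succ_succ' (2 * t + 1) (t + 1), Nat.choose_symm_half]
      push_cast
      ring
    · rfl
  | n + 1, c + 1 => by
    rw [pb, pb_eq n (c + 2), pb_eq n c]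
    by_cases h : (n + c) % 2 = 0
    · rw [if_pos h, if_pos (by omega), if_pos (by omega),
        show (n + (c + 2)) / 2 = (n + c) / 2 + 1 by omega,
        show (n + 1 + (c + 1)) / 2 = (n + c) / 2 + 1 by omega, Nat.choose_succ_succ' n,
        Nat.choose_succ_succ' n]
      push_cast
      ring
    · rw [if_neg h, if_neg (by omega), if_neg (by omega)]
      simp

theorem pa_pb : ∀ n c : ℕ, pa x (n + 2) c + x ^ 2 * pa x n c =
    -x * (1 - x) * (pb x n c + if 2 ≤ c then pb x n (c - 2) else 0)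
  | 0, c => by
    rcases c with _ | _ | _ | _ | c <;> simp [pa, pb] <;> ring
  | n + 1, 0 => by
    have := pa_pb n 1
    show pa x (n + 2) 1 + x ^ 2 * pa x n 1 = -x * (1 - x) * (pb x n 1 + 0)
    simpa using this
  | n + 1, 1 => by
    have h1 := pa_pb n 2
    have h2 := pa_pb n 0
    show (pa x (n + 2) 2 - x * pa x (n + 2) 0) + x ^ 2 * (pa x n 2 - x * pa x n 0) =
      -x * (1 - x) * ((pb x n 2 + (1 - x) * pb x n 0) + 0)
    rw [if_pos le_rfl] at h1
    rw [if_neg (by omega)] at h2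
    linear_combination h1 - x * h2
  | n + 1, 2 => by
    have h1 := pa_pb n 3
    have h2 := pa_pb n 1
    show (pa x (n + 2) 3 + (1 - x) * pa x (n + 2) 1) + x ^ 2 * (pa x n 3 + (1 - x) * pa x n 1) =
      -x * (1 - x) * ((pb x n 3 + (1 - x) * pb x n 1) + pb x n 1)
    rw [if_pos (by omega)] at h1
    rw [if_neg (by omega)] at h2
    linear_combination h1 + (1 - x) * h2
  | n + 1, c + 3 => by
    have h1 := pa_pb n (c + 4)
    have h2 := pa_pb n (c + 2)
    rw [if_pos (by omega), show c + 3 - 2 = c + 1 by omega]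
    show (pa x (n + 2) (c + 4) + (1 - x) * pa x (n + 2) (c + 2)) + x ^ 2 * (pa x n (c + 4) +
      (1 - x) * pa x n (c + 2)) = -x * (1 - x) * ((pb x n (c + 4) + (1 - x) * pb x n (c + 2)) +
        (pb x n (c + 2) + (1 - x) * pb x n c))
    rw [if_pos (by omega), show c + 4 - 2 = c + 2 by omega] at h1
    rw [if_pos (by omega), show c + 2 - 2 = c by omega] at h2
    linear_combination h1 + (1 - x) * h2

theorem choose_sub_eq_catalan (n : ℕ) :
    ((2 * n).choose n : ℤ) - (2 * n).choose (n + 1) = catalan n := by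
  have h1 := Nat.choose_succ_right_eq (2 * n) n
  have h2 := succ_mul_catalan_eq_centralBinom n
  rw [Nat.centralBinom_eq_two_mul_choose] at h2
  rw [show 2 * n - n = n by omega] at h1
  have h1' : ((2 * n).choose (n + 1) : ℤ) * (n + 1) = (2 * n).choose n * n := by exact_mod_cast h1
  have h2' : ((n : ℤ) + 1) * catalan n = (2 * n).choose n := by exact_mod_cast h2
  apply mul_left_cancel₀ (show (n : ℤ) + 1 ≠ 0 by positivity)
  linear_combination -h1' - h2'

/-- The even moments. -/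
def mo (n : ℕ) : R := pa x (2 * n) 0

theorem mo_zero : mo x 0 = 1 := by simp [mo, pa]

theorem mo_succ (n : ℕ) : mo x (n + 1) = -x * (1 - x) ^ (n + 1) * catalan n - x ^ 2 * mo x n := by
  have h := pa_pb x (2 * n) 0
  have h2 := congrArg (Int.cast : ℤ → R) (choose_sub_eq_catalan n)
  rw [pb_eq, if_pos (by omega), show (2 * n + 0) / 2 = n by omega] at h
  push_cast at h2
  rw [h2] at h
  simp only [mo, nonpos_iff_eq_zero, OfNat.ofNat_ne_zero, if_false, add_zero] at h ⊢
  rw [show 2 * (n + 1) = 2 * n + 2 by ring]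
  linear_combination h

theorem pa_odd (n : ℕ) : pa x (2 * n + 1) 0 = 0 := by
  induction n with
  | zero => simp [pa]
  | succ n ih =>
    have h := pa_pb x (2 * n + 1) 0
    rw [pb_eq, if_neg (by omega), ih] at h
    rw [show 2 * (n + 1) + 1 = 2 * n + 1 + 2 by ring]
    simpa using h

theorem sum_range_two_mul (f : ℕ → R) (k : ℕ) :
    ∑ i ∈ range (2 * k), f i = ∑ j ∈ range k, (f (2 * j) + f (2 * j + 1)) := by
  induction k with
  | zero => simp
  | succ k ih => rw [show 2 * (k + 1) = 2 * k + 1 + 1 by ring, sum_range_succ, sum_range_succ, ih,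
      sum_range_succ, add_assoc]

/-- The value of `Q (2 k + 2)`. -/
noncomputable def qq (k : ℕ) : R := x * gf x (2 * k + 1) 1

theorem qq_rec [IsDomain R] [Algebra ℚ R] (k : ℕ) : mo x (k + 1) =
    -∑ j ∈ range (k + 1), ((2 * k + 1).choose (2 * j + 1) : R) * (qq x j * mo x (k - j)) := by
  rw [mo, show 2 * (k + 1) = 2 * k + 1 + 1 by ring, pa_rec,
    show 2 * k + 1 + 1 = 2 * (k + 1) by ring, sum_range_two_mul]
  congr 1
  refine sum_congr rfl fun j hj => ?_
  have hj' : j ≤ k := Nat.lt_succ_iff.1 (mem_range.1 hj)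
  rw [show 2 * k + 1 - 2 * j = 2 * (k - j) + 1 by omega, pa_odd,
    show 2 * k + 1 - (2 * j + 1) = 2 * (k - j) by omega]
  simp [qq, mo]

end paths

theorem aeval_Q (k : ℕ) : (Trees (2 * k + 1)).Finite ∧
    ∀ (R : Type) [CommRing R] (x : R), Polynomial.aeval x (Q (2 * k + 2)) = qq x k := by
  obtain ⟨s, hs, h⟩ := trees_sum (m := 2 * k + 1) (by omega)
  refine ⟨hs ▸ s.finite_toSet, fun R _ x => ?_⟩
  rw [Q, show 2 * k + 2 - 1 = 2 * k + 1 from rfl, ← hs, finsum_mem_coe_finset, map_sum, qq, ← h,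
    mul_sum]
  simp [pow_succ']

theorem abs_gf_le (k : ℕ) {x b : ℝ} (h : |x| ≤ b) :
    |gf x (2 * k + 1) 1| ≤ gf b (2 * k + 1) 1 := by
  obtain ⟨s, -, hs⟩ := trees_sum (m := 2 * k + 1) (by omega)
  rw [← hs, ← hs]
  refine (abs_sum_le_sum_abs _ _).trans (sum_le_sum fun T _ => ?_)
  rw [abs_pow]
  exact pow_le_pow_left₀ (abs_nonneg _) h _

theorem map_gf {R S : Type} [CommRing R] [CommRing S] (f : R →+* S) (x : R) (k : ℕ) :
    f (gf x (2 * k + 1) 1) = gf (f x) (2 * k + 1) 1 := by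
  obtain ⟨s, -, hs⟩ := trees_sum (m := 2 * k + 1) (by omega)
  rw [← hs, ← hs, map_sum]
  simp

theorem map_mo {R S : Type} [CommRing R] [CommRing S] (f : R →+* S) (x : R) (n : ℕ) :
    f (mo x n) = mo (f x) n := by
  induction n with
  | zero => simp [mo_zero]
  | succ n ih => simp [mo_succ, ih]

end Pool.Agent.P.MP_ee6314_co
end

-- part Pool.Agent.P.MP_ee6314_co.Poly
section

/-! Degree and constant term of the reduced polynomial; real roots from sign changes. -/

namespace Pool.Agent.P.MP_ee6314_co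

open Finset Polynomial

theorem natDegree_pa : ∀ n c : ℕ, (pa (X : ℝ[X]) n c).natDegree ≤ (n + c) / 2
  | 0, c => by
    rw [pa]
    split_ifs <;> simp
  | n + 1, 0 => by simpa [pa] using natDegree_pa n 1
  | n + 1, 1 => by
    rw [pa]
    have h1 := natDegree_pa n 2
    have h2 := natDegree_pa n 0
    have h3 : (X * pa (X : ℝ[X]) n 0).natDegree ≤ 1 + (n + 0) / 2 :=
      natDegree_mul_le_of_le natDegree_X_le h2
    exact (natDegree_sub_le _ _).trans (max_le (by omega) (by omega))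
  | n + 1, c + 2 => by
    rw [pa]
    have h1 := natDegree_pa n (c + 3)
    have h2 := natDegree_pa n (c + 1)
    have h0 : (1 - X : ℝ[X]).natDegree ≤ 1 := by compute_degree
    have h3 := natDegree_mul_le_of_le h0 h2
    exact (natDegree_add_le _ _).trans (max_le (by omega) (by omega))

theorem natDegree_mo (n : ℕ) : (mo (X : ℝ[X]) n).natDegree ≤ n := by
  have := natDegree_pa (2 * n) 0
  rw [mo]
  omega

theorem qq_eq {R : Type} [CommRing R] [IsDomain R] [Algebra ℚ R] (x : R) (k : ℕ) : qq x k =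
    -mo x (k + 1) - ∑ j ∈ range k, ((2 * k + 1).choose (2 * j + 1) : R) * (qq x j * mo x (k - j)) := by
  rw [qq_rec, sum_range_succ, Nat.choose_self, Nat.sub_self, mo_zero]
  simp

theorem natDegree_qq (k : ℕ) : (qq (X : ℝ[X]) k).natDegree ≤ k + 1 := by
  induction k using Nat.strong_induction_on with
  | _ k ih =>
    rw [qq_eq]
    refine (natDegree_sub_le _ _).trans (max_le (by simpa using natDegree_mo (k + 1)) ?_)
    refine natDegree_sum_le_of_forall_le _ _ fun j hj => ?_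
    have hj' := mem_range.1 hj
    have h1 := natDegree_mul_le_of_le (ih j hj') (natDegree_mo (k - j))
    have h2 := natDegree_mul_le_of_le
      (natDegree_natCast (R := ℝ) ((2 * k + 1).choose (2 * j + 1))).le h1
    omega

/-- The reduced function: `Q (2 k + 2)` at `-y`, divided by `-y`. -/
noncomputable def red (k : ℕ) (y : ℝ) : ℝ := gf (-y) (2 * k + 1) 1

theorem eval_gf (k : ℕ) (y : ℝ) : (gf (X : ℝ[X]) (2 * k + 1) 1).eval y = gf y (2 * k + 1) 1 := by
  have := map_gf (evalRingHom y) X k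
  simpa using this

theorem red_continuous (k : ℕ) : Continuous (red k) := by
  have : red k = fun y => (gf (X : ℝ[X]) (2 * k + 1) 1).eval (-y) := by
    ext y; rw [eval_gf, red]
  rw [this]
  exact (Polynomial.continuous _).comp continuous_neg

theorem red_zero (k : ℕ) : 0 < red k 0 := by
  have h := qq_rec (X : ℝ[X]) k
  rw [mo_succ] at h
  have h2 : -(1 - X) ^ (k + 1) * (catalan k : ℝ[X]) - X * mo X k = -∑ j ∈ range (k + 1),
      ((2 * k + 1).choose (2 * j + 1) : ℝ[X]) * (gf X (2 * j + 1) 1 * mo X (k - j)) := by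
    apply mul_left_cancel₀ (X_ne_zero (R := ℝ))
    rw [mul_neg, mul_sum]
    simp only [qq] at h
    have e : ∀ j, (X : ℝ[X]) * (((2 * k + 1).choose (2 * j + 1) : ℝ[X]) *
        (gf X (2 * j + 1) 1 * mo X (k - j))) = ((2 * k + 1).choose (2 * j + 1) : ℝ[X]) *
          (X * gf X (2 * j + 1) 1 * mo X (k - j)) := fun j => by ring
    simp only [e]
    linear_combination h
  have h3 := congrArg (evalRingHom (0 : ℝ)) h2
  simp only [map_sub, map_mul, map_neg, map_pow, map_one, map_natCast, map_sum, map_mo, map_gf,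
    coe_evalRingHom, eval_X] at h3
  rw [sum_range_succ, sum_eq_zero] at h3
  · have hc : (0 : ℝ) < catalan k := by
      have := succ_mul_catalan_eq_centralBinom k
      have h0 := Nat.centralBinom_pos k
      exact_mod_cast Nat.pos_of_ne_zero fun h => by rw [h] at this; omega
    simp only [Nat.choose_self, Nat.sub_self, mo_zero] at h3
    rw [red, neg_zero]
    simp at h3
    linarith
  · intro j hj
    obtain ⟨i, hi⟩ : ∃ i, k - j = i + 1 := ⟨k - j - 1, by have := mem_range.1 hj; omega⟩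
    simp [hi, mo_succ]

theorem im_eq_zero_of_roots {P : ℝ[X]} (hP : P ≠ 0) {s : Finset ℝ} (hd : P.natDegree ≤ s.card + 1)
    (hs : ∀ r ∈ s, P.eval r = 0) {z : ℂ} (hz : aeval z P = 0) : z.im = 0 := by
  have hle : s.val ≤ P.roots := by
    rw [Multiset.le_iff_subset s.nodup]
    intro r hr
    exact (mem_roots hP).2 (hs r hr)
  obtain ⟨T, hT⟩ := (Multiset.prod_X_sub_C_dvd_iff_le_roots hP s.val).2 hle
  have hT0 : T ≠ 0 := by rintro rfl; simp [hP] at hT
  have hm : (Multiset.map (fun a => X - C a) s.val).prod.Monic :=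
    monic_multiset_prod_of_monic _ _ fun a _ => monic_X_sub_C a
  have hdeg : T.natDegree ≤ 1 := by
    rw [hT, natDegree_mul hm.ne_zero hT0, natDegree_multiset_prod_X_sub_C_eq_card] at hd
    simpa using hd
  rw [hT, map_mul, mul_eq_zero] at hz
  rcases hz with hz | hz
  · rw [map_multiset_prod, Multiset.prod_eq_zero_iff] at hz
    simp only [Multiset.map_map, Function.comp, map_sub, aeval_X, aeval_C, Multiset.mem_map] at hz
    obtain ⟨r, -, hr⟩ := hz
    rw [sub_eq_zero.1 hr]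
    simp
  · rw [eq_X_add_C_of_natDegree_le_one hdeg] at hz hT0
    simp only [map_add, map_mul, aeval_C, aeval_X, Complex.coe_algebraMap] at hz
    have h1 := congrArg Complex.im hz
    have h2 := congrArg Complex.re hz
    simp only [Complex.add_im, Complex.mul_im, Complex.ofReal_re, Complex.ofReal_im, zero_mul,
      add_zero, Complex.zero_im, mul_eq_zero] at h1
    rcases h1 with h1 | h1
    · simp [h1] at h2
      simp [h1, h2] at hT0
    · exact h1

/-- `f` has `n` zeros below `a`. -/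
def HR (f : ℝ → ℝ) (a : ℝ) (n : ℕ) : Prop :=
  ∃ s : Finset ℝ, s.card = n ∧ ∀ r ∈ s, r < a ∧ f r = 0

theorem HR.zero (f : ℝ → ℝ) (a : ℝ) : HR f a 0 := ⟨∅, rfl, by simp⟩

theorem HR.step {f : ℝ → ℝ} (hf : Continuous f) {a b : ℝ} {n : ℕ} (h : HR f a n) (hab : a ≤ b)
    (hs : f a * f b < 0) : HR f b (n + 1) := by
  obtain ⟨s, h1, h2⟩ := h
  obtain ⟨r, hr, h0⟩ : ∃ r ∈ Set.Ioo a b, f r = 0 := by
    rcases mul_neg_iff.1 hs with h | h
    · exact intermediate_value_Ioo' hab hf.continuousOn ⟨h.2, h.1⟩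
    · exact intermediate_value_Ioo hab hf.continuousOn ⟨h.1, h.2⟩
  have hn : r ∉ s := fun h => lt_asymm (h2 r h).1 hr.1
  refine ⟨insert r s, by rw [card_insert_of_notMem hn, h1], fun q hq => ?_⟩
  rcases mem_insert.1 hq with rfl | hq
  · exact ⟨hr.2, h0⟩
  · exact ⟨(h2 q hq).1.trans_le hab, (h2 q hq).2⟩

theorem real_of_HR {k : ℕ} {a : ℝ} (h : HR (red k) a (k - 1)) {z : ℂ}
    (hz : aeval z (Q (2 * k + 2)) = 0) : z.im = 0 := by
  rw [(aeval_Q k).2, qq, mul_eq_zero] at hz
  rcases hz with rfl | hz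
  · rfl
  obtain ⟨s, h1, h2⟩ := h
  have hne : gf (X : ℝ[X]) (2 * k + 1) 1 ≠ 0 := by
    intro h0
    have := red_zero k
    rw [red, ← eval_gf, h0] at this
    simp at this
  have hd := natDegree_qq k
  rw [qq, natDegree_X_mul hne] at hd
  refine im_eq_zero_of_roots hne (s := s.image fun r => -r) ?_ ?_ ?_
  · rw [card_image_of_injective _ neg_injective, h1]
    omega
  · intro r hr
    obtain ⟨q, hq, rfl⟩ := mem_image.1 hr
    rw [eval_gf]
    exact (h2 q hq).2
  · have := map_gf (aeval z : ℝ[X] →ₐ[ℝ] ℂ).toRingHom X k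
    simp only [AlgHom.toRingHom_eq_coe, RingHom.coe_coe, aeval_X] at this
    rw [this, hz]

end Pool.Agent.P.MP_ee6314_co
end

-- part Pool.Agent.P.MP_ee6314_co.Mom
section

/-! The moments as integrals against an explicit density. -/

namespace Pool.Agent.P.MP_ee6314_co

open Finset Real intervalIntegral MeasureTheory

/-- The shift in the denominator of the density. -/
noncomputable def kap (y : ℝ) : ℝ := y ^ 2 / (1 + y)

/-- The density on `[0, 2]`. -/
noncomputable def dens (y s : ℝ) : ℝ := y * √(4 - s ^ 2) / (π * (s ^ 2 + kap y))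

/-- Rescaled moments. -/
noncomputable def mu (y : ℝ) (n : ℕ) : ℝ := mo (-y) n / (1 + y) ^ n

variable {y : ℝ}

theorem kap_pos (hy : 0 < y) : 0 < kap y := by unfold kap; positivity

theorem dens_nonneg (hy : 0 < y) (s : ℝ) : 0 ≤ dens y s := by
  have := kap_pos hy
  unfold dens; positivity

theorem continuous_dens (hy : 0 < y) : Continuous (dens y) := by
  have := kap_pos hy
  unfold dens
  refine Continuous.div (by fun_prop) (by fun_prop) fun s => by positivity

theorem mu_zero (y : ℝ) : mu y 0 = 1 := by simp [mu, mo_zero]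

theorem mu_succ (hy : 0 < y) (n : ℕ) : mu y (n + 1) = y * catalan n - kap y * mu y n := by
  have : (1 + y) ≠ 0 := by positivity
  rw [mu, mu, mo_succ, kap, sub_neg_eq_add]
  field_simp
  ring

theorem catalan_rec (n : ℕ) : (n + 2) * catalan (n + 1) = 2 * (2 * n + 1) * catalan n := by
  have h1 := succ_mul_catalan_eq_centralBinom n
  have h2 := succ_mul_catalan_eq_centralBinom (n + 1)
  have h3 := Nat.succ_mul_centralBinom_succ n
  apply Nat.eq_of_mul_eq_mul_left (Nat.succ_pos n)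
  rw [show n + 2 = n + 1 + 1 from rfl, h2, Nat.succ_eq_add_one, h3, ← h1]
  ring

theorem hasDerivAt_root {s : ℝ} (hs : s ∈ Set.Ioo (0 : ℝ) 2) :
    HasDerivAt (fun s : ℝ => √(4 - s ^ 2)) (-s / √(4 - s ^ 2)) s := by
  have h : 0 < 4 - s ^ 2 := by nlinarith [hs.1, hs.2]
  have h1 : HasDerivAt (fun s : ℝ => 4 - s ^ 2) (-(2 * s)) s := by
    simpa using (hasDerivAt_pow 2 s).const_sub 4
  convert h1.sqrt h.ne' using 1
  have := sqrt_pos.2 h
  field_simp

theorem hasDerivAt_asin {s : ℝ} (hs : s ∈ Set.Ioo (0 : ℝ) 2) :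
    HasDerivAt (fun s : ℝ => arcsin (s / 2)) (1 / √(4 - s ^ 2)) s := by
  have h : 0 < 4 - s ^ 2 := by nlinarith [hs.1, hs.2]
  have h1 := (hasDerivAt_arcsin (x := s / 2) (by linarith [hs.1]) (by linarith [hs.2])).comp s
    ((hasDerivAt_id s).div_const 2)
  refine HasDerivAt.congr_deriv h1 ?_
  have e : √(1 - (s / 2) ^ 2) = √(4 - s ^ 2) / 2 := by
    rw [show 1 - (s / 2) ^ 2 = (4 - s ^ 2) / 2 ^ 2 by ring, sqrt_div h.le, sqrt_sq (by norm_num)]
  have := sqrt_pos.2 h
  rw [e]
  field_simp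

theorem semicircle (n : ℕ) : ∫ s in (0 : ℝ)..2, s ^ (2 * n) * √(4 - s ^ 2) = π * catalan n := by
  induction n with
  | zero =>
    rw [integral_eq_sub_of_hasDerivAt_of_le
      (f := fun s => s * √(4 - s ^ 2) / 2 + 2 * arcsin (s / 2)) (by norm_num)
      (Continuous.continuousOn (by fun_prop)) _ (Continuous.intervalIntegrable (by fun_prop) _ _)]
    · norm_num
      ring
    · intro s hs
      have h : 0 < 4 - s ^ 2 := by nlinarith [hs.1, hs.2]
      refine HasDerivAt.congr_deriv ((((hasDerivAt_id s).mul (hasDerivAt_root hs)).div_const 2).add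
        ((hasDerivAt_asin hs).const_mul 2)) ?_
      have h1 := sqrt_pos.2 h
      have h2 := sq_sqrt h.le
      simp only [id]
      field_simp
      linear_combination -h2
  | succ n ih =>
    have h0 : ∫ s in (0 : ℝ)..2, (4 * (2 * n + 1) * (s ^ (2 * n) * √(4 - s ^ 2)) -
        (2 * n + 4) * (s ^ (2 * (n + 1)) * √(4 - s ^ 2))) = 0 := by
      rw [integral_eq_sub_of_hasDerivAt_of_le
        (f := fun s => s ^ (2 * n + 1) * √(4 - s ^ 2) ^ 3) (by norm_num)
        (Continuous.continuousOn (by fun_prop)) _ (Continuous.intervalIntegrable (by fun_prop) _ _)]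
      · norm_num
      · intro s hs
        have h : 0 < 4 - s ^ 2 := by nlinarith [hs.1, hs.2]
        refine HasDerivAt.congr_deriv
          ((hasDerivAt_pow (2 * n + 1) s).mul ((hasDerivAt_root hs).pow 3)) ?_
        have h1 := sqrt_pos.2 h
        have h2 := sq_sqrt h.le
        simp only [Nat.add_sub_cancel]
        set w := √(4 - s ^ 2)
        push_cast
        field_simp
        linear_combination ((2 * n + 1) * s ^ (2 * n)) * h2
    rw [integral_sub (Continuous.intervalIntegrable (by fun_prop) _ _)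
      (Continuous.intervalIntegrable (by fun_prop) _ _), intervalIntegral.integral_const_mul,
      intervalIntegral.integral_const_mul, ih] at h0
    have h1 : ((n : ℝ) + 2) * catalan (n + 1) = 2 * (2 * n + 1) * catalan n := by
      exact_mod_cast catalan_rec n
    apply mul_left_cancel₀ (show (2 * n + 4 : ℝ) ≠ 0 by positivity)
    linear_combination -h0 - 2 * π * h1

theorem mass (hy : 0 < y) : ∫ s in (0 : ℝ)..2, dens y s = 1 := by
  set g := (y + 2) / y with hg
  have hg1 : 1 < g := by rw [hg, lt_div_iff₀ hy]; linarith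
  have hN : ∀ s : ℝ, 0 < 4 + (g ^ 2 - 1) * s ^ 2 := fun s => by
    have : 0 ≤ g ^ 2 - 1 := by nlinarith
    positivity
  rw [integral_eq_sub_of_hasDerivAt_of_le
    (f := fun s => y / π * (g * arcsin (g * s / √(4 + (g ^ 2 - 1) * s ^ 2)) - arcsin (s / 2)))
    (by norm_num) _ _ ((continuous_dens hy).intervalIntegrable _ _)]
  · have e : √(4 + (g ^ 2 - 1) * 2 ^ 2) = g * 2 := by
      rw [show 4 + (g ^ 2 - 1) * 2 ^ 2 = (g * 2) ^ 2 by ring, sqrt_sq (by linarith)]
    rw [e, div_self (by linarith), div_self (by norm_num), arcsin_one]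
    simp only [mul_zero, zero_div, arcsin_zero, sub_zero]
    rw [hg]
    field_simp
    ring
  · refine Continuous.continuousOn (continuous_const.mul (Continuous.sub (continuous_const.mul
      (continuous_arcsin.comp (Continuous.div (by fun_prop) (by fun_prop) fun s => ?_)))
      (by fun_prop)))
    exact (sqrt_pos.2 (hN s)).ne'
  · intro s hs
    have h : 0 < 4 - s ^ 2 := by nlinarith [hs.1, hs.2]
    have h1 := sqrt_pos.2 h
    have h2 := sq_sqrt h.le
    have h3 := sqrt_pos.2 (hN s)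
    have h4 := sq_sqrt (hN s).le
    have d1 : HasDerivAt (fun s : ℝ => 4 + (g ^ 2 - 1) * s ^ 2) ((g ^ 2 - 1) * (2 * s)) s := by
      simpa using ((hasDerivAt_pow 2 s).const_mul (g ^ 2 - 1)).const_add 4
    have d2 := ((hasDerivAt_id s).const_mul g).div (d1.sqrt (hN s).ne') h3.ne'
    set w := √(4 - s ^ 2) with hw
    set r := √(4 + (g ^ 2 - 1) * s ^ 2) with hr
    have e1 : 1 - (g * s / r) ^ 2 = (w / r) ^ 2 := by
      field_simp
      linear_combination h4 - h2
    have e2 : (g * s / r) ^ 2 < 1 := by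
      have : 0 < (w / r) ^ 2 := by positivity
      linarith
    have d3 := (hasDerivAt_arcsin (x := g * s / r) (fun h => by rw [h] at e2; norm_num at e2)
      (fun h => by rw [h] at e2; norm_num at e2)).comp s d2
    refine HasDerivAt.congr_deriv
      (((d3.const_mul g).sub (hasDerivAt_asin hs)).const_mul (y / π)) ?_
    rw [e1, sqrt_sq (by positivity), ← hw, dens, ← hw]
    have e3 : s ^ 2 + kap y = r ^ 2 / (g ^ 2 - 1) := by
      have : g ^ 2 - 1 = 4 * (1 + y) / y ^ 2 := by rw [hg]; field_simp; ring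
      rw [h4, kap, this]
      field_simp
      ring
    have e4 : g ^ 2 - 1 ≠ 0 := by nlinarith
    rw [e3]
    simp only [id]
    field_simp
    linear_combination (g ^ 2 - 1) * h4 - (g ^ 2 - 1) * h2

theorem mu_eq (hy : 0 < y) (n : ℕ) : mu y n = ∫ s in (0 : ℝ)..2, s ^ (2 * n) * dens y s := by
  have hc := continuous_dens hy
  induction n with
  | zero => simp [mu_zero, mass hy]
  | succ n ih =>
    have h := semicircle n
    have e : ∀ s, s ^ (2 * (n + 1)) * dens y s = y / π * (s ^ (2 * n) * √(4 - s ^ 2)) -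
        kap y * (s ^ (2 * n) * dens y s) := by
      intro s
      have := kap_pos hy
      unfold dens
      field_simp
      ring
    simp only [e]
    rw [integral_sub (Continuous.intervalIntegrable (by fun_prop) _ _)
      (Continuous.intervalIntegrable (by fun_prop) _ _), intervalIntegral.integral_const_mul,
      intervalIntegral.integral_const_mul, h, ← ih, mu_succ hy]
    field_simp

theorem mu_nonneg (hy : 0 < y) (n : ℕ) : 0 ≤ mu y n := by
  rw [mu_eq hy]
  exact integral_nonneg (by norm_num) fun s _ =>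
    mul_nonneg (by rw [pow_mul]; positivity) (dens_nonneg hy s)

theorem mu_le (hy : 0 < y) (n : ℕ) : mu y n ≤ 4 ^ n := by
  have hc := continuous_dens hy
  rw [mu_eq hy, ← mul_one ((4 : ℝ) ^ n), ← mass hy, ← intervalIntegral.integral_const_mul]
  refine integral_mono_on (by norm_num) (Continuous.intervalIntegrable (by fun_prop) _ _)
    (Continuous.intervalIntegrable (by fun_prop) _ _) fun s hs => ?_
  refine mul_le_mul_of_nonneg_right ?_ (dens_nonneg hy s)
  rw [pow_mul]
  exact pow_le_pow_left₀ (by positivity) (by nlinarith [hs.1, hs.2]) _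

/-- The entire function. -/
noncomputable def Psi (y : ℝ) (v : ℂ) : ℂ := ∫ s in (0 : ℝ)..2, Complex.cosh (v * s) * dens y s

/-- The entire function on the real axis. -/
noncomputable def PsiR (y x : ℝ) : ℝ := ∫ s in (0 : ℝ)..2, cosh (x * s) * dens y s

/-- Taylor coefficients in `v ^ 2`. -/
noncomputable def cf (y : ℝ) (n : ℕ) : ℝ := mu y n / (2 * n).factorial

theorem cf_nonneg (hy : 0 < y) (n : ℕ) : 0 ≤ cf y n := div_nonneg (mu_nonneg hy n) (by positivity)

theorem Psi_ofReal (y x : ℝ) : Psi y x = PsiR y x := by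
  rw [Psi, PsiR, ← intervalIntegral.integral_ofReal]
  push_cast
  rfl

theorem norm_Psi_conj (y : ℝ) (v : ℂ) : ‖Psi y (starRingEnd ℂ v)‖ = ‖Psi y v‖ := by
  rw [← Complex.norm_conj (Psi y v), Psi, Psi, ← intervalIntegral_conj]
  simp [← Complex.cosh_conj]

theorem norm_cosh_sub_le {w : ℂ} {D : ℕ} (h : 2 * ‖w‖ ≤ 2 * D + 3) :
    ‖Complex.cosh w - ∑ n ∈ range (D + 1), w ^ (2 * n) / (2 * n).factorial‖ ≤
      ‖w‖ ^ (2 * (D + 1)) / (2 * (D + 1)).factorial * 2 := by
  have h0 : ‖w‖ / (2 * (D + 1)).succ ≤ 1 / 2 := by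
    rw [div_le_iff₀ (by positivity)]
    push_cast
    linarith
  have h1 := Complex.exp_bound' h0
  have h2 := Complex.exp_bound' (x := -w) (n := 2 * (D + 1)) (by rwa [norm_neg])
  rw [norm_neg] at h2
  have e : Complex.cosh w - ∑ n ∈ range (D + 1), w ^ (2 * n) / (2 * n).factorial =
      ((Complex.exp w - ∑ m ∈ range (2 * (D + 1)), w ^ m / m.factorial) +
      (Complex.exp (-w) - ∑ m ∈ range (2 * (D + 1)), (-w) ^ m / m.factorial)) / 2 := by
    rw [sum_range_two_mul, sum_range_two_mul, Complex.cosh]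
    have : ∀ n, (-w) ^ (2 * n) = w ^ (2 * n) := fun n => by rw [pow_mul, neg_sq, ← pow_mul]
    simp only [pow_succ, this, sum_add_distrib, mul_neg, neg_div, sum_neg_distrib]
    ring
  rw [e, norm_div]
  have := norm_add_le (Complex.exp w - ∑ m ∈ range (2 * (D + 1)), w ^ m / m.factorial)
    (Complex.exp (-w) - ∑ m ∈ range (2 * (D + 1)), (-w) ^ m / m.factorial)
  simp only [Complex.norm_ofNat]
  linarith

theorem norm_Psi_sub_le (hy : 0 < y) {v : ℂ} {D : ℕ} (h : 4 * ‖v‖ ≤ 2 * D + 3) :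
    ‖Psi y v - ∑ n ∈ range (D + 1), cf y n * (v ^ 2) ^ n‖ ≤
      2 * ‖v‖ ^ (2 * (D + 1)) * cf y (D + 1) := by
  have hc := continuous_dens hy
  have e : ∑ n ∈ range (D + 1), cf y n * (v ^ 2) ^ n = ∫ s in (0 : ℝ)..2,
      (∑ n ∈ range (D + 1), (v * s) ^ (2 * n) / (2 * n).factorial) * dens y s := by
    simp only [sum_mul]
    rw [intervalIntegral.integral_finsetSum fun n _ =>
      Continuous.intervalIntegrable (by fun_prop) _ _]
    refine sum_congr rfl fun n _ => ?_
    rw [cf, mu_eq hy]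
    push_cast
    rw [← intervalIntegral.integral_ofReal, ← intervalIntegral.integral_div,
      ← intervalIntegral.integral_mul_const]
    congr 1
    ext s
    push_cast
    rw [← pow_mul]
    ring
  rw [e, Psi, ← integral_sub (Continuous.intervalIntegrable (by fun_prop) _ _)
    (Continuous.intervalIntegrable (by fun_prop) _ _), cf, mu_eq hy, ← intervalIntegral.integral_div,
    ← intervalIntegral.integral_const_mul]
  refine norm_integral_le_of_norm_le (by norm_num) (Filter.Eventually.of_forall fun s hs => ?_)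
    (Continuous.intervalIntegrable (by fun_prop) _ _)
  have hn : ‖v * s‖ = ‖v‖ * s := by rw [norm_mul, Complex.norm_real, norm_of_nonneg hs.1.le]
  rw [← sub_mul, norm_mul, Complex.norm_real, norm_of_nonneg (dens_nonneg hy s)]
  refine (mul_le_mul_of_nonneg_right (norm_cosh_sub_le ?_) (dens_nonneg hy s)).trans (le_of_eq ?_)
  · rw [hn]
    nlinarith [norm_nonneg v, hs.1, hs.2]
  · rw [hn, mul_pow]
    ring

theorem sum_le_PsiR (hy : 0 < y) (x : ℝ) (D : ℕ) :
    ∑ n ∈ range D, cf y n * (x ^ 2) ^ n ≤ PsiR y x := by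
  have hc := continuous_dens hy
  have e : ∑ n ∈ range D, cf y n * (x ^ 2) ^ n = ∫ s in (0 : ℝ)..2,
      (∑ n ∈ range D, (x * s) ^ (2 * n) / (2 * n).factorial) * dens y s := by
    simp only [sum_mul]
    rw [intervalIntegral.integral_finsetSum fun n _ =>
      Continuous.intervalIntegrable (by fun_prop) _ _]
    refine sum_congr rfl fun n _ => ?_
    rw [cf, mu_eq hy, ← intervalIntegral.integral_div, ← intervalIntegral.integral_mul_const]
    congr 1
    ext s
    rw [← pow_mul]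
    ring
  rw [e, PsiR]
  refine integral_mono_on (by norm_num) (Continuous.intervalIntegrable (by fun_prop) _ _)
    (Continuous.intervalIntegrable (by fun_prop) _ _) fun s _ => ?_
  refine mul_le_mul_of_nonneg_right (sum_le_hasSum _ (fun n _ => ?_) (hasSum_cosh (x * s)))
    (dens_nonneg hy s)
  rw [pow_mul]
  positivity

theorem PsiR_le_exp (hy : 0 < y) {x : ℝ} (hx : 0 ≤ x) : PsiR y x ≤ exp (2 * x) := by
  have hc := continuous_dens hy
  rw [PsiR, ← mul_one (exp (2 * x)), ← mass hy, ← intervalIntegral.integral_const_mul]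
  refine integral_mono_on (by norm_num) (Continuous.intervalIntegrable (by fun_prop) _ _)
    (Continuous.intervalIntegrable (by fun_prop) _ _) fun s hs => ?_
  refine mul_le_mul_of_nonneg_right ?_ (dens_nonneg hy s)
  have h1 : exp (x * s) ≤ exp (2 * x) := exp_le_exp.2 (by nlinarith [hs.1, hs.2])
  have h2 : exp (-(x * s)) ≤ exp (2 * x) := exp_le_exp.2 (by nlinarith [hs.1, hs.2])
  rw [cosh_eq]
  linarith

theorem norm_exp_sub_one_le' (w : ℂ) : ‖Complex.exp w - 1‖ ≤ exp ‖w‖ - 1 := by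
  have h := Complex.norm_exp_sub_sum_le_exp_norm_sub_sum w 1
  simpa using h

theorem norm_mul_exp_sub {a b : ℂ} {d d' ρ η : ℝ} (hd : 0 ≤ d) (hρ : 1 ≤ ρ)
    (h1 : d ≤ ρ * d') (h2 : d' ≤ ρ * d) (h : ‖a - b‖ ≤ η) :
    ‖Complex.exp a * d - Complex.exp b * d'‖ ≤ (ρ * exp η - 1) * (exp b.re * d') := by
  have e : Complex.exp a * d - Complex.exp b * d' =
      Complex.exp b * ((Complex.exp (a - b) - 1) * d + ((d - d' : ℝ) : ℂ)) := by
    rw [Complex.exp_sub]
    push_cast
    field_simp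
    ring
  have h3 : ‖Complex.exp (a - b) - 1‖ ≤ exp η - 1 :=
    (norm_exp_sub_one_le' _).trans (by linarith [exp_le_exp.2 h])
  have h4 : |d - d'| ≤ (ρ - 1) * d' := by
    rw [abs_le]
    constructor
    · rcases le_total d d' with h | h <;> nlinarith
    · linarith
  have h5 : 0 ≤ exp η - 1 := (norm_nonneg _).trans h3
  rw [e, norm_mul, Complex.norm_exp]
  have h6 := norm_add_le ((Complex.exp (a - b) - 1) * d) ((d - d' : ℝ) : ℂ)
  rw [norm_mul, Complex.norm_real, Complex.norm_real, norm_of_nonneg hd, norm_eq_abs] at h6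
  have h7 : ‖Complex.exp (a - b) - 1‖ * d ≤ (exp η - 1) * (ρ * d') :=
    mul_le_mul h3 h1 hd h5
  calc _ ≤ exp b.re * ((exp η - 1) * (ρ * d') + (ρ - 1) * d') := by gcongr; linarith
    _ = _ := by ring

theorem dens_le {y y' ρ : ℝ} (hy : 0 < y) (hy' : 0 < y') (hρ : 1 ≤ ρ) (h1 : y ≤ ρ * y')
    (h2 : y' ≤ ρ * y) (s : ℝ) : dens y s ≤ ρ * dens y' s := by
  have k1 := kap_pos hy
  have k2 := kap_pos hy'
  have h3 : y * kap y' ≤ ρ * y' * kap y := by
    unfold kap
    rw [mul_div_assoc', mul_div_assoc', div_le_div_iff₀ (by positivity) (by positivity)]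
    have : y' * (1 + y) ≤ ρ * y * (1 + y') := by nlinarith [mul_pos hy hy']
    nlinarith [mul_pos hy hy']
  have h4 : y / (s ^ 2 + kap y) ≤ ρ * y' / (s ^ 2 + kap y') := by
    rw [div_le_div_iff₀ (by positivity) (by positivity)]
    nlinarith [sq_nonneg s]
  have e : ∀ z, dens z s = z / (s ^ 2 + kap z) * (√(4 - s ^ 2) / π) := fun z => by
    rw [dens, div_mul_div_comm, mul_comm π]
  rw [e, e, ← mul_assoc, ← mul_div_assoc ρ]
  exact mul_le_mul_of_nonneg_right h4 (by positivity)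

theorem norm_Psi_sub_Psi {y y' ρ δ : ℝ} {v v' : ℂ} (hy : 0 < y) (hy' : 0 < y') (hρ : 1 ≤ ρ)
    (h1 : y ≤ ρ * y') (h2 : y' ≤ ρ * y) (h : ‖v - v'‖ ≤ δ) :
    ‖Psi y v - Psi y' v'‖ ≤ (ρ * exp (2 * δ) - 1) * PsiR y' v'.re := by
  have hc := continuous_dens hy
  have hc' := continuous_dens hy'
  rw [Psi, Psi, PsiR, ← integral_sub (Continuous.intervalIntegrable (by fun_prop) _ _)
    (Continuous.intervalIntegrable (by fun_prop) _ _), ← intervalIntegral.integral_const_mul]
  refine norm_integral_le_of_norm_le (by norm_num) (Filter.Eventually.of_forall fun s hs => ?_)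
    (Continuous.intervalIntegrable (by fun_prop) _ _)
  have h3 : ‖v * s - v' * s‖ ≤ 2 * δ := by
    rw [← sub_mul, norm_mul, Complex.norm_real, norm_of_nonneg hs.1.le]
    nlinarith [norm_nonneg (v - v'), hs.1, hs.2]
  have a1 := norm_mul_exp_sub (dens_nonneg hy s) hρ (dens_le hy hy' hρ h1 h2 s)
    (dens_le hy' hy hρ h2 h1 s) h3
  have a2 := norm_mul_exp_sub (a := -(v * s)) (b := -(v' * s)) (η := 2 * δ)
    (dens_nonneg hy s) hρ (dens_le hy hy' hρ h1 h2 s) (dens_le hy' hy hρ h2 h1 s)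
    (by rwa [neg_sub_neg, norm_sub_rev])
  have e : Complex.cosh (v * s) * dens y s - Complex.cosh (v' * s) * dens y' s =
      ((Complex.exp (v * s) * dens y s - Complex.exp (v' * s) * dens y' s) +
      (Complex.exp (-(v * s)) * dens y s - Complex.exp (-(v' * s)) * dens y' s)) / 2 := by
    rw [Complex.cosh, Complex.cosh]; ring
  rw [e, norm_div, cosh_eq]
  have := norm_add_le (Complex.exp (v * s) * dens y s - Complex.exp (v' * s) * dens y' s)
    (Complex.exp (-(v * s)) * dens y s - Complex.exp (-(v' * s)) * dens y' s)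
  simp only [Complex.norm_ofNat, Complex.neg_re, Complex.mul_re, Complex.ofReal_re,
    Complex.ofReal_im, mul_zero, sub_zero] at a1 a2 ⊢
  linarith

theorem norm_cosh_sub_one (w : ℂ) : ‖Complex.cosh w - 1‖ ≤ cosh w.re - 1 + w.im ^ 2 / 2 := by
  have e : Complex.cosh w - 1 = ((cosh w.re * cos w.im - 1 : ℝ) : ℂ) +
      ((sinh w.re * sin w.im : ℝ) : ℂ) * Complex.I := by
    conv_lhs => rw [← Complex.re_add_im w, Complex.cosh_add, Complex.cosh_mul_I, Complex.sinh_mul_I]
    push_cast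
    ring
  have h1 : ‖Complex.cosh w - 1‖ = cosh w.re - cos w.im := by
    rw [e, Complex.norm_add_mul_I, sqrt_eq_iff_mul_self_eq (by positivity)
      (by linarith [one_le_cosh w.re, cos_le_one w.im])]
    have a := cosh_sq w.re
    have b := sin_sq_add_cos_sq w.im
    linear_combination (cos w.im ^ 2 - 1) * a + sinh w.re ^ 2 * b
  rw [h1]
  linarith [one_sub_sq_div_two_le_cos (x := w.im)]

theorem sq_le_cosh (a : ℝ) : a ^ 2 / 2 ≤ cosh a - 1 := by
  have := sum_le_hasSum (range 2) (fun n _ => by rw [pow_mul]; positivity) (hasSum_cosh a)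
  simp [sum_range_succ] at this
  linarith

theorem norm_Psi_sub_one (hy : 0 < y) {v : ℂ} {a : ℝ} (ha : 0 < a) (h : |v.re| ≤ a) :
    ‖Psi y v - 1‖ ≤ (1 + v.im ^ 2 / a ^ 2) * (PsiR y a - 1) := by
  have hc := continuous_dens hy
  have e1 : (1 : ℂ) = ∫ s in (0 : ℝ)..2, (dens y s : ℂ) := by
    rw [intervalIntegral.integral_ofReal, mass hy]; simp
  have e2 : PsiR y a - 1 = ∫ s in (0 : ℝ)..2, (cosh (a * s) - 1) * dens y s := by
    simp only [sub_mul, one_mul]
    rw [integral_sub (Continuous.intervalIntegrable (by fun_prop) _ _)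
      (Continuous.intervalIntegrable (by fun_prop) _ _), mass hy, PsiR]
  rw [e1, e2, Psi, ← integral_sub (Continuous.intervalIntegrable (by fun_prop) _ _)
    (Continuous.intervalIntegrable (by fun_prop) _ _), ← intervalIntegral.integral_const_mul]
  refine norm_integral_le_of_norm_le (by norm_num) (Filter.Eventually.of_forall fun s hs => ?_)
    (Continuous.intervalIntegrable (by fun_prop) _ _)
  rw [← sub_one_mul, norm_mul, Complex.norm_real, norm_of_nonneg (dens_nonneg hy s), ← mul_assoc]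
  refine mul_le_mul_of_nonneg_right ((norm_cosh_sub_one _).trans ?_) (dens_nonneg hy s)
  simp only [Complex.mul_re, Complex.mul_im, Complex.ofReal_re, Complex.ofReal_im, mul_zero,
    sub_zero, zero_add]
  have h1 : cosh (v.re * s) ≤ cosh (a * s) := by
    rw [cosh_le_cosh, abs_mul, abs_mul, abs_of_pos ha]
    exact mul_le_mul_of_nonneg_right h (abs_nonneg _)
  have h2 : (v.im * s) ^ 2 / 2 ≤ v.im ^ 2 / a ^ 2 * (cosh (a * s) - 1) := by
    calc _ = v.im ^ 2 / a ^ 2 * ((a * s) ^ 2 / 2) := by field_simp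
      _ ≤ _ := mul_le_mul_of_nonneg_left (sq_le_cosh _) (by positivity)
  linarith

end Pool.Agent.P.MP_ee6314_co
end

-- part Pool.Agent.P.MP_ee6314_co.Cells
section

/-! Zero free annuli of the entire function, by a covering with small squares. -/

namespace Pool.Agent.P.MP_ee6314_co

open Finset Real

/-- The function stays away from zero on the annulus. -/
def Ann (y a b : ℝ) : Prop := ∀ v : ℂ, a ≤ ‖v‖ → ‖v‖ ≤ b → 1 / 10 ^ 6 < ‖Psi y v‖

namespace Cells

/-- Evaluate `n` before passing it on. -/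
noncomputable def force (n : ℕ) (k : ℕ → Bool) : Bool :=
  Nat.rec (k Nat.zero) (fun m _ => k (Nat.succ m)) n

theorem force_eq (n : ℕ) (k : ℕ → Bool) : force n k = k n := by
  cases n <;> rfl

/-- Lazy conjunction. -/
noncomputable def an (a b : Bool) : Bool := @Bool.rec (fun _ => Bool) false b a

/-- Lazy disjunction. -/
noncomputable def orr (a b : Bool) : Bool := @Bool.rec (fun _ => Bool) b true a

theorem an_iff (a b : Bool) : an a b = true ↔ a = true ∧ b = true := by
  cases a <;> cases b <;> simp [an]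

theorem orr_iff (a b : Bool) : orr a b = true ↔ a = true ∨ b = true := by
  cases a <;> cases b <;> simp [orr]

/-- Catalan numbers. -/
noncomputable def cat (n : ℕ) : ℕ :=
  Nat.rec 1 (fun n c => Nat.div (Nat.mul (Nat.mul 2 (Nat.succ (Nat.mul 2 n))) c) (Nat.add n 2)) n

/-- Factorials of even numbers. -/
noncomputable def fac (n : ℕ) : ℕ :=
  Nat.rec 1 (fun n c => Nat.mul (Nat.mul (Nat.add (Nat.mul 2 n) 2) (Nat.succ (Nat.mul 2 n))) c) n

/-- Integer moments. -/
noncomputable def mm (p q n : ℕ) : ℕ :=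
  Nat.rec 1 (fun n M => Nat.sub
    (Nat.mul (Nat.mul (Nat.mul p (Nat.add p q)) (Nat.pow (Nat.mul q (Nat.add p q)) n)) (cat n))
    (Nat.mul (Nat.mul p p) M)) n

/-- Rounded coefficients. -/
noncomputable def kc (S p q n : ℕ) : ℕ :=
  Nat.div (Nat.mul (mm p q n) S)
    (Nat.mul (Nat.mul (Nat.pow (Nat.mul q (Nat.add p q)) n) (fac n)) (Nat.pow 1048576 n))

/-- Polynomial values. -/
noncomputable def sm (f : ℕ → ℕ) (x k : ℕ) : ℕ :=
  Nat.rec 0 (fun n s => Nat.add s (Nat.mul (f n) (Nat.pow x n))) k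

/-- Absolute difference. -/
noncomputable def ad (a b : ℕ) : ℕ := Nat.add (Nat.sub a b) (Nat.sub b a)

/-- The relative error allowed on a square. -/
noncomputable def gf (rn h : ℕ) : ℕ :=
  Nat.sub (Nat.succ (Nat.div (Nat.mul rn 70368744177664)
    (Nat.pow (Nat.sub 1048576 (Nat.mul 1449 h)) 2))) 65536

/-- The test at the centre of a square. -/
noncomputable def tst (K KH H B BB E E2 rn h x y : ℕ) : Bool :=
  an (Nat.ble h 256) <| force (gf rn h) fun g => an (Nat.ble g 65536) <|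
  force (Nat.mul x x) fun x2 => force (Nat.mul y y) fun y2 => force (Nat.add x2 y2) fun s =>
  an (Nat.ble s 177209344) <|
  force (Nat.mod KH (Nat.sub (Nat.add (Nat.add BB (Nat.mul s s)) (Nat.mul (Nat.mul 2 y2) B))
    (Nat.mul (Nat.mul 2 x2) B))) fun N =>
  force (Nat.div N B) fun A =>
  force (Nat.add (Nat.add (Nat.mul A x2) (Nat.mul H y2)) (Nat.mod N B)) fun P1 =>
  force (Nat.add (Nat.add (Nat.mul A y2) (Nat.mul H x2)) H) fun P2 =>
  Nat.ble (Nat.succ (Nat.pow (Nat.add (Nat.div (Nat.mul g (Nat.add (Nat.mod K (Nat.sub B x2)) E))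
    65536) E2) 2))
    (Nat.add (Nat.pow (ad P1 P2) 2) (Nat.pow (Nat.mul (ad A H) (Nat.mul (Nat.mul 2 x) y)) 2))

/-- The recursive covering of a square. -/
noncomputable def chk (t : ℕ → ℕ → ℕ → Bool) (a2 b2 j : ℕ) : ℕ → ℕ → Bool :=
  Nat.rec (fun _ _ => false) (fun j ih X Y => force (Nat.pow 2 j) fun h =>
    force (Nat.add X h) fun x => force (Nat.add Y h) fun y =>
    orr (Nat.ble (Nat.succ (Nat.add (Nat.pow (Nat.add x h) 2) (Nat.pow (Nat.add y h) 2))) a2) <|
    orr (Nat.ble (Nat.succ b2) (Nat.add (Nat.mul X X) (Nat.mul Y Y))) <|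
    orr (t h x y) <| an (ih X Y) <| an (ih x Y) <| an (ih X y) (ih x y)) j

/-- The check of one annulus. -/
noncomputable def cov (S B p rn A A' : ℕ) : Bool :=
  force (sm (kc S p 1000000000000) B 43) fun K =>
  force (sm (kc S p 1000000000000) 531628032 43) fun H =>
  an (Nat.ble (Nat.add (Nat.mul 2 H) 400000000) B) <|
  force (Nat.add (Nat.add K (Nat.mul H B)) H) fun KH => force (Nat.mul B B) fun BB =>
  force (Nat.mul (Nat.pow 177209344 43) (Nat.add (Nat.mul 2 (kc S p 1000000000000 43)) 3)) fun E =>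
  force (Nat.add (Nat.add E 2) (Nat.div S 1000000)) fun E2 =>
  force (Nat.mul A A) fun a2 => force (Nat.mul A' A') fun b2 =>
  chk (tst K KH H B BB E E2 rn) a2 b2 14 0 0

/-- The check of one step of the path. -/
noncomputable def stp (yl p yu rn a b A A' : ℕ) : Bool :=
  an (decide (0 < yl ∧ yl < yu ∧ yu ≤ 2500000000000 ∧ 1024 ≤ rn ∧ 0 < p ∧ 1024 * yu ≤ rn * p ∧
    1024 * p ≤ rn * yl ∧ 0 < A ∧ 41 * A ≤ 40 * A' ∧ A' ≤ 13107 ∧ a ≤ b ∧ a ≤ A' ∧ A ≤ b)) <|
  force (Nat.pow 2 1220) fun S => an (Nat.ble 1 S) <| force (Nat.pow 3 815) fun B =>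
  cov S B p rn A A'

theorem cat_eq (n : ℕ) : cat n = catalan n := by
  induction n with
  | zero => simp [cat]
  | succ n ih =>
    have : cat (n + 1) = 2 * (2 * n + 1) * cat n / (n + 2) := rfl
    rw [this, ih, ← catalan_rec, Nat.mul_div_cancel_left _ (by omega)]

theorem fac_eq (n : ℕ) : fac n = (2 * n).factorial := by
  induction n with
  | zero => simp [fac]
  | succ n ih =>
    have : fac (n + 1) = (2 * n + 2) * (2 * n + 1) * fac n := rfl
    rw [this, ih, show 2 * (n + 1) = 2 * n + 1 + 1 by ring, Nat.factorial_succ, Nat.factorial_succ]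
    ring

theorem mm_eq {p q : ℕ} (hp : 0 < p) (hq : 0 < q) (n : ℕ) :
    (mm p q n : ℝ) = mu (p / q) n * (q * (p + q)) ^ n := by
  have hy : (0 : ℝ) < p / q := by positivity
  induction n with
  | zero => simp [mm, mu_zero]
  | succ n ih =>
    have e0 : mm p q (n + 1) = p * (p + q) * (q * (p + q)) ^ n * cat n - p * p * mm p q n := rfl
    have e : ((p * (p + q) * (q * (p + q)) ^ n * cat n : ℕ) : ℝ) - ((p * p * mm p q n : ℕ) : ℝ) =
        mu (p / q) (n + 1) * (q * (p + q)) ^ (n + 1) := by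
      push_cast
      rw [ih, mu_succ hy, cat_eq, kap, pow_succ]
      field_simp
      ring
    have h0 : 0 ≤ mu (p / q) (n + 1) * ((q : ℝ) * (p + q)) ^ (n + 1) :=
      mul_nonneg (mu_nonneg hy _) (by positivity)
    rw [e0, Nat.cast_sub (by rw [← e, sub_nonneg] at h0; exact_mod_cast h0), e]

theorem kc_spec (S : ℕ) {p q : ℕ} (hp : 0 < p) (hq : 0 < q) (n : ℕ) :
    (kc S p q n : ℝ) ≤ cf (p / q) n * S / 1048576 ^ n ∧
      cf (p / q) n * S / 1048576 ^ n ≤ kc S p q n + 1 := by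
  have e0 : kc S p q n = mm p q n * S / ((q * (p + q)) ^ n * fac n * 1048576 ^ n) := rfl
  have e : cf (p / q) n * S / 1048576 ^ n = ((mm p q n * S : ℕ) : ℝ) /
      (((q * (p + q)) ^ n * fac n * 1048576 ^ n : ℕ) : ℝ) := by
    rw [Nat.cast_mul, mm_eq hp hq, fac_eq, cf]
    push_cast
    field_simp
  rw [e, e0, ← Nat.floor_div_eq_div (K := ℝ)]
  exact ⟨Nat.floor_le (by positivity), (Nat.lt_floor_add_one _).le⟩

theorem sm_eq (f : ℕ → ℕ) (x k : ℕ) : sm f x k = ∑ n ∈ range k, f n * x ^ n := by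
  induction k with
  | zero => rfl
  | succ k ih => rw [sum_range_succ, ← ih]; rfl

theorem ad_sq (a b : ℕ) : ((ad a b : ℕ) : ℤ) ^ 2 = ((a : ℤ) - b) ^ 2 := by
  have : ad a b = a - b + (b - a) := rfl
  rw [this]
  rcases le_total a b with h | h
  · rw [Nat.sub_eq_zero_of_le h, zero_add, Nat.cast_sub h]; ring
  · rw [Nat.sub_eq_zero_of_le h, add_zero, Nat.cast_sub h]

theorem pow_rem {p r ρ : ℤ} (hp : |p| ≤ 2 * ρ) (hr : |r| ≤ ρ ^ 2) (hρ : 0 ≤ ρ) (B : ℤ) {w : ℂ}
    (hw : w ^ 2 = p * w - r) (n : ℕ) : ∃ α β : ℤ, ρ * |α| + |β| ≤ (3 * ρ) ^ n ∧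
      (B ^ 2 - p * B + r) ∣ B ^ n - (α * B + β) ∧ w ^ n = α * w + β := by
  induction n with
  | zero => exact ⟨0, 1, by simp, by simp, by simp⟩
  | succ n ih =>
    obtain ⟨α, β, h1, ⟨c, h2⟩, h3⟩ := ih
    refine ⟨p * α + β, -(r * α), ?_, ⟨B * c + α, by linear_combination B * h2⟩, ?_⟩
    · have a1 := abs_add_le (p * α) β
      rw [abs_mul] at a1
      rw [abs_neg, abs_mul, pow_succ]
      have a2 := mul_le_mul_of_nonneg_right hp (abs_nonneg α)
      have a3 := mul_le_mul_of_nonneg_right hr (abs_nonneg α)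
      have a4 := mul_le_mul_of_nonneg_left (a1.trans (add_le_add_left a2 _)) hρ
      have a5 := mul_le_mul_of_nonneg_left h1 hρ
      have a6 := mul_nonneg hρ (abs_nonneg β)
      nlinarith
    · push_cast
      linear_combination w * h3 + α * hw

theorem sum_rem {p r ρ : ℤ} (hp : |p| ≤ 2 * ρ) (hr : |r| ≤ ρ ^ 2) (hρ : 0 ≤ ρ) (B : ℤ) {w : ℂ}
    (hw : w ^ 2 = p * w - r) (f : ℕ → ℕ) (k : ℕ) : ∃ α β : ℤ,
      ρ * |α| + |β| ≤ ∑ n ∈ range k, f n * (3 * ρ) ^ n ∧
      (B ^ 2 - p * B + r) ∣ ∑ n ∈ range k, f n * B ^ n - (α * B + β) ∧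
      ∑ n ∈ range k, f n * w ^ n = α * w + β := by
  induction k with
  | zero => exact ⟨0, 0, by simp, by simp, by simp⟩
  | succ k ih =>
    obtain ⟨α, β, h1, ⟨c, h2⟩, h3⟩ := ih
    obtain ⟨a, b, g1, ⟨d, g2⟩, g3⟩ := pow_rem hp hr hρ B hw k
    have hf : (0 : ℤ) ≤ f k := Nat.cast_nonneg _
    refine ⟨α + f k * a, β + f k * b, ?_, ⟨c + f k * d, ?_⟩, ?_⟩
    · have a1 := abs_add_le α (f k * a)
      have a2 := abs_add_le β (f k * b)
      rw [abs_mul, abs_of_nonneg hf] at a1 a2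
      have a3 := mul_le_mul_of_nonneg_left a1 hρ
      have a4 := mul_le_mul_of_nonneg_left g1 hf
      rw [sum_range_succ]
      linarith
    · rw [sum_range_succ]
      linear_combination h2 + f k * g2
    · rw [sum_range_succ]
      push_cast
      linear_combination h3 + f k * g3

/-- The value at a complex point from one remainder. -/
theorem complex_val (f : ℕ → ℕ) (k : ℕ) {ρ B H x y : ℕ} (hρ : 1 ≤ ρ) (hs : x * x + y * y ≤ ρ)
    (hH : H = sm f (3 * ρ) k) (hB : 2 * H + 2 * ρ + 1 ≤ B) {N : ℕ}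
    (hN : N = (sm f B k + H * B + H) %
      (B * B + (x * x + y * y) * (x * x + y * y) + 2 * (y * y) * B - 2 * (x * x) * B)) :
    ‖∑ n ∈ range k, (f n : ℂ) * ((x + y * Complex.I) ^ 2) ^ n‖ ^ 2 =
      ((ad (N / B * (x * x) + H * (y * y) + N % B) (N / B * (y * y) + H * (x * x) + H) ^ 2 +
        (ad (N / B) H * (2 * x * y)) ^ 2 : ℕ) : ℝ) := by
  have hs' : (x : ℤ) * x + y * y ≤ ρ := by exact_mod_cast hs
  have hρ' : (1 : ℤ) ≤ ρ := by exact_mod_cast hρ
  have hB' : 2 * (H : ℤ) + 2 * ρ + 1 ≤ B := by exact_mod_cast hB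
  have hx : (0 : ℤ) ≤ x * x := by positivity
  have hy : (0 : ℤ) ≤ y * y := by positivity
  have hp : |2 * ((x : ℤ) * x - y * y)| ≤ 2 * ρ := abs_le.2 ⟨by linarith, by linarith⟩
  obtain ⟨α, β, h1, h2, h3⟩ := sum_rem (r := ((x : ℤ) * x + y * y) ^ 2) hp
    (by rw [abs_of_nonneg (by positivity)]; gcongr) (by linarith) (B : ℤ)
    (w := (x + y * Complex.I) ^ 2) (by
      push_cast
      linear_combination (y ^ 4 * Complex.I ^ 2 + 4 * x * y ^ 3 * Complex.I + y ^ 4 +
        4 * x ^ 2 * y ^ 2) * Complex.I_sq) f k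
  have eH : (H : ℤ) = ∑ n ∈ range k, f n * (3 * (ρ : ℤ)) ^ n := by rw [hH, sm_eq]; push_cast; rfl
  rw [← eH] at h1
  have ha : |α| ≤ H := by nlinarith [abs_nonneg α, abs_nonneg β]
  have hb : |β| ≤ H := by nlinarith [abs_nonneg α, abs_nonneg β]
  rw [abs_le] at ha hb
  have hB0 : (0 : ℤ) < B := by linarith
  have hle : 2 * (x * x) * B ≤ B * B + (x * x + y * y) * (x * x + y * y) + 2 * (y * y) * B := by
    have : 2 * (x * x) * B ≤ B * B := Nat.mul_le_mul_right _ (by omega)
    omega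
  have eN : (N : ℤ) = β + H + B * (α + H) := by
    rw [hN, Int.natCast_mod, Nat.cast_sub hle, sm_eq]
    push_cast
    obtain ⟨c, h2⟩ := h2
    have m1 : β + H + B * (α + H) < (B : ℤ) * B + (x * x + y * y) * (x * x + y * y) +
        2 * (y * y) * B - 2 * (x * x) * B := by
      have b1 : (B : ℤ) * (α + H) ≤ B * (2 * H) := by gcongr; linarith
      have b2 : (B : ℤ) * (2 * H + 2 * ρ + 1) ≤ B * B := by gcongr
      have b3 : (B : ℤ) * (x * x) ≤ B * ρ := by gcongr; linarith
      nlinarith [mul_nonneg hB0.le hy, mul_self_nonneg ((x : ℤ) * x + y * y)]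
    rw [← Int.emod_eq_of_lt (add_nonneg (by linarith) (mul_nonneg hB0.le (by linarith))) m1]
    refine (Int.emod_emod_of_dvd _ dvd_rfl).symm.trans ?_
    rw [Int.emod_emod_of_dvd _ dvd_rfl]
    exact Int.modEq_iff_dvd.2 ⟨-c, by linear_combination -h2⟩
  have e1 : ((N / B : ℕ) : ℤ) = α + H := by
    rw [Int.natCast_div, eN, Int.add_mul_ediv_left _ _ hB0.ne',
      Int.ediv_eq_zero_of_lt (by linarith) (by linarith), zero_add]
  have e2 : ((N % B : ℕ) : ℤ) = β + H := by
    rw [Int.natCast_mod, eN, Int.add_mul_emod_self_left, Int.emod_eq_of_lt (by linarith) (by linarith)]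
  have e3 : ((ad (N / B * (x * x) + H * (y * y) + N % B) (N / B * (y * y) + H * (x * x) + H) ^ 2 +
      (ad (N / B) H * (2 * x * y)) ^ 2 : ℕ) : ℤ) =
      (α * (x * x - y * y) + β) ^ 2 + (α * (2 * x * y)) ^ 2 := by
    rw [Nat.cast_add, Nat.cast_pow, Nat.cast_pow, Nat.cast_mul, mul_pow, ad_sq, ad_sq]
    simp only [Nat.cast_add, Nat.cast_mul, e1, e2, Nat.cast_ofNat]
    ring
  rw [h3, ← Int.cast_natCast (R := ℝ), e3, Complex.sq_norm, Complex.normSq_apply]
  simp [pow_two]
  ring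

/-- The value at a real point from one remainder. -/
theorem real_val (f : ℕ → ℕ) (k : ℕ) {ρ B H c : ℕ} (hs : c ≤ ρ)
    (hH : H = sm f (3 * ρ) k) (hB : 2 * H + 2 * ρ + 1 ≤ B) :
    sm f B k % (B - c) = sm f c k := by
  have h1 : sm f c k ≤ H := by
    rw [hH, sm_eq, sm_eq]
    gcongr
    omega
  rw [← Nat.mod_eq_of_lt (show sm f c k < B - c by omega), sm_eq, sm_eq]
  have h2 : c ≡ B [MOD B - c] := (Nat.modEq_iff_dvd' (by omega)).2 dvd_rfl
  exact Nat.ModEq.sum fun n _ => (h2.symm.pow n).mul_left _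

/-- Distance between the function and the rounded polynomial. -/
theorem approx (S : ℕ) {p q : ℕ} (hp : 0 < p) (hq : 0 < q) {ρ : ℕ} (hρ : ρ = 177209344) {z : ℂ}
    (hz : ‖z‖ ^ 2 ≤ ρ) :
    ‖S * Psi (p / q) (z / 1024) - ∑ n ∈ range 43, (kc S p q n : ℂ) * (z ^ 2) ^ n‖ ≤
      ((ρ ^ 43 * (2 * kc S p q 43 + 3) : ℕ) : ℝ) := by
  have hy : (0 : ℝ) < p / q := by positivity
  have hz1 : ‖z‖ ≤ 13312 := by
    rw [hρ] at hz
    exact abs_le_of_sq_le_sq' (b := 13312) (by push_cast at hz; linarith) (by norm_num) |>.2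
  have hn : ‖z / 1024‖ = ‖z‖ / 1024 := by simp
  have h1 := norm_Psi_sub_le hy (v := z / 1024) (D := 42) (by rw [hn]; push_cast; linarith)
  have hk := fun n => kc_spec S hp hq n
  have hS : (0 : ℝ) ≤ S := Nat.cast_nonneg _
  have hw : ∀ n : ℕ, ‖z‖ ^ (2 * n) ≤ (ρ : ℝ) ^ n := fun n => by rw [pow_mul]; gcongr
  have h2 : ‖S * ∑ n ∈ range (42 + 1), (cf (p / q) n : ℂ) * ((z / 1024) ^ 2) ^ n -
      ∑ n ∈ range 43, (kc S p q n : ℂ) * (z ^ 2) ^ n‖ ≤ (ρ : ℝ) ^ 43 := by
    rw [mul_sum, ← sum_sub_distrib]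
    refine (norm_sum_le _ _).trans ?_
    have : ∀ n ∈ range 43, ‖S * ((cf (p / q) n : ℂ) * ((z / 1024) ^ 2) ^ n) -
        (kc S p q n : ℂ) * (z ^ 2) ^ n‖ ≤ (ρ : ℝ) ^ n := fun n _ => by
      have e : S * ((cf (p / q) n : ℂ) * ((z / 1024) ^ 2) ^ n) - (kc S p q n : ℂ) * (z ^ 2) ^ n =
          ((cf (p / q) n * S / 1048576 ^ n - kc S p q n : ℝ) : ℂ) * z ^ (2 * n) := by
        push_cast
        rw [div_pow, div_pow, pow_mul]
        norm_num
        ring
      rw [e, norm_mul, norm_pow, Complex.norm_real, Real.norm_eq_abs]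
      have : |cf (p / q) n * S / 1048576 ^ n - kc S p q n| ≤ 1 :=
        abs_le.2 ⟨by linarith [(hk n).1], by linarith [(hk n).2]⟩
      calc _ ≤ 1 * (ρ : ℝ) ^ n := mul_le_mul this (hw n) (by positivity) zero_le_one
        _ = _ := one_mul _
    refine (sum_le_sum this).trans ?_
    exact_mod_cast (Nat.geomSum_lt (by omega) fun k hk => mem_range.1 hk).le
  have h3 : S * (2 * ‖z / 1024‖ ^ (2 * (42 + 1)) * cf (p / q) (42 + 1)) ≤
      2 * (ρ : ℝ) ^ 43 * (kc S p q 43 + 1) := by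
    have e : S * (2 * ‖z / 1024‖ ^ (2 * (42 + 1)) * cf (p / q) (42 + 1)) =
        2 * ‖z‖ ^ (2 * 43) * (cf (p / q) 43 * S / 1048576 ^ 43) := by
      rw [hn, div_pow, pow_mul (1024 : ℝ), show (1024 : ℝ) ^ 2 = 1048576 by norm_num]
      generalize (1048576 : ℝ) ^ (42 + 1) = U
      ring
    rw [e]
    exact mul_le_mul (by linarith [hw 43]) (hk 43).2
      ((Nat.cast_nonneg _).trans (hk 43).1) (by positivity)
  have h4 := norm_add_le (S * (Psi (p / q) (z / 1024) -
    ∑ n ∈ range (42 + 1), (cf (p / q) n : ℂ) * ((z / 1024) ^ 2) ^ n))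
    (S * ∑ n ∈ range (42 + 1), (cf (p / q) n : ℂ) * ((z / 1024) ^ 2) ^ n -
      ∑ n ∈ range 43, (kc S p q n : ℂ) * (z ^ 2) ^ n)
  rw [mul_sub, sub_add_sub_cancel, ← mul_sub, norm_mul, Complex.norm_natCast] at h4
  have h5 := mul_le_mul_of_nonneg_left h1 hS
  push_cast
  linarith

theorem gf_spec {rn h : ℕ} (hh : h ≤ 256) :
    (rn / 1024 : ℝ) * exp (2 * (1449 * h / 1048576)) - 1 ≤ gf rn h / 65536 := by
  have e0 : gf rn h = rn * 70368744177664 / (1048576 - 1449 * h) ^ 2 + 1 - 65536 := rfl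
  have hh' : (h : ℝ) ≤ 256 := by exact_mod_cast hh
  have h0 : (0 : ℝ) ≤ h := Nat.cast_nonneg _
  set d : ℝ := 1449 * h / 1048576 with hd
  have h1 : 0 < 1 - d := by rw [hd]; linarith
  have h2 : exp d ≤ 1 / (1 - d) := by
    rw [le_div_iff₀ h1]
    have := mul_le_mul_of_nonneg_left (add_one_le_exp (-d)) (exp_pos d).le
    rw [← exp_add] at this
    simp at this
    linarith
  have h3 : exp (2 * d) ≤ (1 / (1 - d)) ^ 2 := by
    rw [two_mul, exp_add, sq]
    exact mul_le_mul h2 h2 (exp_pos _).le (by positivity)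
  have h4 := Nat.lt_floor_add_one (((rn * 70368744177664 : ℕ) : ℝ) /
    (((1048576 - 1449 * h) ^ 2 : ℕ) : ℝ))
  rw [Nat.floor_div_eq_div] at h4
  have e : ((rn * 70368744177664 : ℕ) : ℝ) / (((1048576 - 1449 * h) ^ 2 : ℕ) : ℝ) =
      65536 * (rn / 1024 * (1 / (1 - d)) ^ 2) := by
    rw [Nat.cast_pow, Nat.cast_sub (by omega)]
    have : (((1048576 : ℕ) : ℝ) - ((1449 * h : ℕ) : ℝ)) = 1048576 * (1 - d) := by
      rw [hd]; push_cast; ring
    rw [this]
    push_cast
    field_simp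
    ring
  have h5 : ((rn * 70368744177664 / (1048576 - 1449 * h) ^ 2 : ℕ) : ℝ) + 1 ≤ gf rn h + 65536 := by
    generalize rn * 70368744177664 / (1048576 - 1449 * h) ^ 2 = a at e0
    have : a + 1 ≤ gf rn h + 65536 := by omega
    exact_mod_cast this
  have h6 := mul_le_mul_of_nonneg_left h3
    (show (0 : ℝ) ≤ rn / 1024 from div_nonneg (Nat.cast_nonneg _) (by norm_num))
  linarith

theorem tst_sound {S B p q rn H E h x y ρ : ℕ} (hS : 0 < S) (hp : 0 < p) (hq : 0 < q)
    (hrn : 1024 ≤ rn) (hH : H = sm (kc S p q) 531628032 43) (hB : 2 * H + 400000000 ≤ B)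
    (hρ : ρ = 177209344) (hE : E = ρ ^ 43 * (2 * kc S p q 43 + 3))
    (ht : tst (sm (kc S p q) B 43) (sm (kc S p q) B 43 + H * B + H) H B (B * B) E
      (E + 2 + S / 1000000) rn h x y = true) {t : ℝ} (ht0 : 0 < t) (h1 : t ≤ rn / 1024 * (p / q))
    (h2 : (p / q : ℝ) ≤ rn / 1024 * t) {u w : ℝ} (hu : |u - x| ≤ h) (hw : |w - y| ≤ h) :
    1 / 10 ^ 6 < ‖Psi t ((u + w * Complex.I) / 1024)‖ := by
  simp only [tst, force_eq, an_iff, Nat.ble_eq, Nat.add_eq, Nat.mul_eq, Nat.pow_eq, Nat.sub_eq,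
    Nat.succ_eq_add_one] at ht
  obtain ⟨a1, -, a3, a4⟩ := ht
  rw [← hρ] at a3
  rw [show 531628032 = 3 * ρ by rw [hρ]] at hH
  have hB' : 2 * H + 2 * ρ + 1 ≤ B := le_trans (by rw [hρ]; linarith) hB
  have c1 := complex_val (kc S p q) 43 (by rw [hρ]; norm_num) a3 hH hB' rfl
  have c2 := real_val (kc S p q) 43 (c := x * x) ((Nat.le_add_right _ _).trans a3) hH hB'
  have a3' : (x : ℝ) * x + y * y ≤ ρ := by exact_mod_cast a3
  have c3 := approx S hp hq hρ (z := x + y * Complex.I) (by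
    rw [Complex.sq_norm, Complex.normSq_apply]; simpa using a3')
  have c4 := approx S hp hq hρ (z := x) (by
    rw [Complex.norm_natCast]; nlinarith [mul_self_nonneg (y : ℝ)])
  rw [← hE] at c3 c4
  have hy : (0 : ℝ) < p / q := by positivity
  have hrn' : (1 : ℝ) ≤ rn / 1024 := by
    rw [le_div_iff₀ (by norm_num), one_mul]; exact_mod_cast hrn
  have h0 : (0 : ℝ) ≤ h := Nat.cast_nonneg _
  have c5 := norm_Psi_sub_Psi (v := (u + w * Complex.I) / 1024) (v' := (x + y * Complex.I) / 1024)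
    (δ := 1449 * h / 1048576) ht0 hy hrn' h1 h2 (by
      have e : (u + w * Complex.I) / 1024 - (x + y * Complex.I) / 1024 =
          (((u - x : ℝ) : ℂ) + (w - y : ℝ) * Complex.I) / 1024 := by push_cast; ring
      rw [e, norm_div, Complex.norm_add_mul_I, Complex.norm_ofNat, div_le_iff₀ (by norm_num)]
      refine sqrt_le_iff.2 ⟨by positivity, ?_⟩
      nlinarith [sq_le_sq' (abs_le.1 hu).1 (abs_le.1 hu).2, sq_le_sq' (abs_le.1 hw).1 (abs_le.1 hw).2])
  have e1 : (((x : ℂ) + y * Complex.I) / 1024).re = x / 1024 := by simp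
  have e2 : (x : ℂ) / 1024 = ((x / 1024 : ℝ) : ℂ) := by push_cast; rfl
  have e3 : ∑ n ∈ range 43, (kc S p q n : ℂ) * ((x : ℂ) ^ 2) ^ n =
      ((sm (kc S p q) (x * x) 43 : ℝ) : ℂ) := by rw [sm_eq]; push_cast; simp only [sq]
  rw [e2, Psi_ofReal, e3, ← Complex.ofReal_natCast, ← Complex.ofReal_mul, ← Complex.ofReal_sub,
    Complex.norm_real, Real.norm_eq_abs, abs_le] at c4
  rw [e1] at c5
  have hP : 0 ≤ PsiR (p / q) (x / 1024) :=
    (by simp : (0 : ℝ) ≤ ∑ n ∈ range 0, _).trans (sum_le_PsiR hy _ 0)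
  have c6 := mul_le_mul_of_nonneg_right (gf_spec (rn := rn) a1) hP
  change (gf rn h * (sm (kc S p q) B 43 % (B - x * x) + E) / 65536 + (E + 2 + S / 1000000)) ^ 2 + 1 ≤
    _ at a4
  rw [c2] at a4
  generalize sm (kc S p q) (x * x) 43 = F at a4 c4
  generalize gf rn h = g at a4 c6
  have c7 : ((g * (F + E) / 65536 + (E + 2 + S / 1000000) : ℕ) : ℝ) <
      ‖∑ n ∈ range 43, (kc S p q n : ℂ) * ((x + y * Complex.I) ^ 2) ^ n‖ := by
    refine lt_of_pow_lt_pow_left₀ 2 (norm_nonneg _) ?_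
    rw [c1]
    exact_mod_cast a4
  have d1 := Nat.lt_floor_add_one (((g * (F + E) : ℕ) : ℝ) / ((65536 : ℕ) : ℝ))
  have d2 := Nat.lt_floor_add_one ((S : ℝ) / ((1000000 : ℕ) : ℝ))
  rw [Nat.floor_div_eq_div] at d1 d2
  have hS' : (0 : ℝ) < S := by exact_mod_cast hS
  have d3 := norm_sub_norm_le (∑ n ∈ range 43, (kc S p q n : ℂ) * ((x + y * Complex.I) ^ 2) ^ n)
    (S * Psi (p / q) ((x + y * Complex.I) / 1024))
  rw [norm_sub_rev, norm_mul, Complex.norm_natCast] at d3
  have d4 := norm_sub_norm_le (Psi (p / q) ((x + y * Complex.I) / 1024))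
    (Psi t ((u + w * Complex.I) / 1024))
  rw [norm_sub_rev] at d4
  have d5 := mul_le_mul_of_nonneg_left (d4.trans (c5.trans c6)) hS'.le
  have d6 := mul_le_mul_of_nonneg_left (show S * PsiR (p / q) (x / 1024) ≤ F + E by linarith [c4.2])
    (show (0 : ℝ) ≤ g / 65536 by positivity)
  refine lt_of_mul_lt_mul_left ?_ hS'.le
  rw [Nat.cast_add, Nat.cast_add, Nat.cast_add] at c7
  rw [Nat.cast_mul, Nat.cast_add] at d1
  simp only [Nat.cast_ofNat] at c7 d1 d2
  linarith

theorem chk_succ (t : ℕ → ℕ → ℕ → Bool) (a2 b2 j X Y : ℕ) : chk t a2 b2 (j + 1) X Y =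
    (orr (Nat.ble ((X + 2 ^ j + 2 ^ j) ^ 2 + (Y + 2 ^ j + 2 ^ j) ^ 2 + 1) a2) <|
    orr (Nat.ble (b2 + 1) (X * X + Y * Y)) <| orr (t (2 ^ j) (X + 2 ^ j) (Y + 2 ^ j)) <|
    an (chk t a2 b2 j X Y) <| an (chk t a2 b2 j (X + 2 ^ j) Y) <|
    an (chk t a2 b2 j X (Y + 2 ^ j)) (chk t a2 b2 j (X + 2 ^ j) (Y + 2 ^ j))) := by
  simp only [chk, force_eq]
  rfl

theorem chk_sound {t : ℕ → ℕ → ℕ → Bool} {P : ℝ → ℝ → Prop} {a2 b2 : ℕ}
    (ht : ∀ h x y, t h x y = true → ∀ u w : ℝ, |u - x| ≤ h → |w - y| ≤ h → P u w) (j : ℕ) :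
    ∀ X Y : ℕ, chk t a2 b2 j X Y = true → ∀ u w : ℝ, X ≤ u → u ≤ X + 2 ^ j → Y ≤ w →
      w ≤ Y + 2 ^ j → a2 ≤ u ^ 2 + w ^ 2 → u ^ 2 + w ^ 2 ≤ b2 → P u w := by
  induction j with
  | zero => intro X Y h; exact absurd h (by simp [chk])
  | succ j ih =>
    intro X Y h u w h1 h2 h3 h4 h5 h6
    have hX : (0 : ℝ) ≤ X := Nat.cast_nonneg _
    have hY : (0 : ℝ) ≤ Y := Nat.cast_nonneg _
    rw [pow_succ] at h2 h4
    rw [chk_succ] at h
    simp only [an_iff, orr_iff, Nat.ble_eq] at h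
    rcases h with h | h | h | ⟨g1, g2, g3, g4⟩
    · have : ((X : ℝ) + 2 ^ j + 2 ^ j) ^ 2 + (Y + 2 ^ j + 2 ^ j) ^ 2 + 1 ≤ a2 := by exact_mod_cast h
      have b1 : u ^ 2 ≤ ((X : ℝ) + 2 ^ j + 2 ^ j) ^ 2 := by gcongr <;> linarith
      have b2 : w ^ 2 ≤ ((Y : ℝ) + 2 ^ j + 2 ^ j) ^ 2 := by gcongr <;> linarith
      linarith
    · have : (b2 : ℝ) + 1 ≤ X * X + Y * Y := by exact_mod_cast h
      nlinarith
    · refine ht _ _ _ h u w ?_ ?_ <;> push_cast <;> exact abs_le.2 ⟨by linarith, by linarith⟩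
    · rcases le_total u (X + 2 ^ j) with k1 | k1 <;> rcases le_total w (Y + 2 ^ j) with k2 | k2
      · exact ih _ _ g1 u w h1 k1 h3 k2 h5 h6
      · exact ih _ _ g3 u w h1 k1 (by push_cast; linarith) (by push_cast; linarith) h5 h6
      · exact ih _ _ g2 u w (by push_cast; linarith) (by push_cast; linarith) h3 k2 h5 h6
      · exact ih _ _ g4 u w (by push_cast; linarith) (by push_cast; linarith)
          (by push_cast; linarith) (by push_cast; linarith) h5 h6

theorem Psi_neg (y : ℝ) (v : ℂ) : Psi y (-v) = Psi y v := by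
  simp only [Psi, neg_mul, Complex.cosh_neg]

theorem norm_Psi_abs (y : ℝ) (v : ℂ) :
    ‖Psi y v‖ = ‖Psi y ((|v.re| : ℝ) + (|v.im| : ℝ) * Complex.I)‖ := by
  rcases le_total 0 v.re with h1 | h1 <;> rcases le_total 0 v.im with h2 | h2
  · rw [abs_of_nonneg h1, abs_of_nonneg h2, Complex.re_add_im]
  · rw [abs_of_nonneg h1, abs_of_nonpos h2, ← norm_Psi_conj]
    congr 2
    apply Complex.ext <;> simp
  · rw [abs_of_nonpos h1, abs_of_nonneg h2, ← norm_Psi_conj, ← Psi_neg]
    congr 2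
    apply Complex.ext <;> simp
  · rw [abs_of_nonpos h1, abs_of_nonpos h2, ← Psi_neg]
    congr 2
    apply Complex.ext <;> simp

theorem cov_sound {S B p rn A A' : ℕ} (hS : 0 < S) (hp : 0 < p) (hrn : 1024 ≤ rn)
    (hA : A' ≤ 13107) (h : cov S B p rn A A' = true) {t : ℝ} (ht0 : 0 < t)
    (h1 : t ≤ rn / 1024 * (p / 1000000000000)) (h2 : (p / 1000000000000 : ℝ) ≤ rn / 1024 * t) :
    Ann t (A / 1024) (A' / 1024) := by
  simp only [cov, force_eq, an_iff, Nat.ble_eq] at h
  intro v k1 k2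
  have hA' : (A' : ℝ) ≤ 13107 := by exact_mod_cast hA
  have e : (1024 * |v.re|) ^ 2 + (1024 * |v.im|) ^ 2 = (1024 * ‖v‖) ^ 2 := by
    rw [mul_pow, mul_pow, mul_pow, sq_abs, sq_abs, Complex.sq_norm, Complex.normSq_apply]; ring
  have := chk_sound (P := fun u w => 1 / 10 ^ 6 < ‖Psi t ((u + w * Complex.I) / 1024)‖)
    (fun _ x y ht u w hu hw => tst_sound (q := 1000000000000) hS hp (by norm_num) hrn rfl h.1 rfl rfl
      ht ht0 (by exact_mod_cast h1) (by exact_mod_cast h2) hu hw) 14 0 0 h.2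
    (1024 * |v.re|) (1024 * |v.im|) (by simp)
    (by have := Complex.abs_re_le_norm v; norm_num; linarith) (by simp)
    (by have := Complex.abs_im_le_norm v; norm_num; linarith)
    (by rw [e, Nat.mul_eq, Nat.cast_mul, ← sq]; gcongr; linarith)
    (by rw [e, Nat.mul_eq, Nat.cast_mul, ← sq]; gcongr; linarith)
  rw [norm_Psi_abs]
  convert this using 3
  push_cast
  ring

/-- A path of radii from `(y0, r0)` to `(5 / 2, 21 / 5)`, checked on the set `s`. -/
def Good (s : Set ℝ) (y0 r0 : ℝ) : Prop :=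
  ∃ R : ℝ → ℝ, Continuous R ∧ R y0 = r0 ∧ R (5 / 2) = 21 / 5 ∧ ∀ y ∈ s,
    ∃ a b, 0 < a ∧ a ≤ R y ∧ R y ≤ b ∧ b ≤ 12.8 ∧ 1.025 * a ≤ b ∧ Ann y a b

theorem glue {y0 y1 r0 r1 a b : ℝ} (h : Good (Set.Ioc y1 (5 / 2)) y1 r1) (h01 : y0 < y1)
    (h1 : y1 ≤ 5 / 2) (ha : 0 < a) (hb : b ≤ 12.8) (hab : 1.025 * a ≤ b) (k0 : r0 ∈ Set.Icc a b)
    (k1 : r1 ∈ Set.Icc a b) (hc : ∀ y ∈ Set.Icc y0 y1, Ann y a b) :
    Good (Set.Icc y0 (5 / 2)) y0 r0 := by
  obtain ⟨R, c1, c2, c3, c4⟩ := h
  have hd : 0 < y1 - y0 := by linarith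
  refine ⟨fun y => if y ≤ y1 then r0 + (y - y0) / (y1 - y0) * (r1 - r0) else R y,
    Continuous.if_le (by fun_prop) c1 continuous_id continuous_const ?_, by simp [h01.le], ?_, ?_⟩
  · rintro y rfl
    rw [div_self hd.ne', c2]; ring
  · rcases h1.eq_or_lt with h | h
    · subst h
      simp only [le_refl, if_true]
      rw [div_self hd.ne', ← c3, c2]; ring
    · simp only [h.not_ge, if_false, c3]
  · intro y hy
    by_cases h : y ≤ y1
    · have l0 : 0 ≤ (y - y0) / (y1 - y0) := div_nonneg (by linarith [hy.1]) hd.le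
      have l1 : (y - y0) / (y1 - y0) ≤ 1 := by rw [div_le_one hd]; linarith
      simp only [h, if_true]
      refine ⟨a, b, ha, ?_, ?_, hb, hab, hc y ⟨hy.1, h⟩⟩ <;> nlinarith [k0.1, k0.2, k1.1, k1.2]
    · simp only [h, if_false]
      exact c4 y ⟨not_le.1 h, hy.2⟩

/-- A path starts at a radius of the given range. -/
def St (y a b : ℕ) : Prop := ∃ r ∈ Set.Icc (a / 1024 : ℝ) (b / 1024),
  Good (Set.Ioc (y / 1000000000000) (5 / 2)) (y / 1000000000000) r

theorem last : St 2500000000000 4234 4340 :=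
  ⟨21 / 5, ⟨by norm_num, by norm_num⟩, fun _ => 21 / 5, continuous_const, rfl, rfl,
    fun y hy => absurd (hy.1.trans_le hy.2) (by norm_num)⟩

theorem first {yl p yu rn a b A A' : ℕ} (h : stp yl p yu rn a b A A' = true) (hn : St yu A A')
    {y0 r0 : ℝ} (h0 : (yl / 1000000000000 : ℝ) ≤ y0) (h1 : y0 < yu / 1000000000000)
    (hr : r0 ∈ Set.Icc (A / 1024 : ℝ) (A' / 1024)) : Good (Set.Icc y0 (5 / 2)) y0 r0 := by
  simp only [stp, force_eq, an_iff, Nat.ble_eq, decide_eq_true_eq] at h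
  obtain ⟨⟨a1, a2, a3, a4, a5, a6, a7, a8, a9, a10, -⟩, hS, h⟩ := h
  obtain ⟨r, k1, k2⟩ := hn
  have b1 : (0 : ℝ) < yl := by exact_mod_cast a1
  have b3 : (yu : ℝ) ≤ 2500000000000 := by exact_mod_cast a3
  have b6 : (1024 : ℝ) * yu ≤ rn * p := by exact_mod_cast a6
  have b7 : (1024 : ℝ) * p ≤ rn * yl := by exact_mod_cast a7
  have b9 : (41 : ℝ) * A ≤ 40 * A' := by exact_mod_cast a9
  have b10 : (A' : ℝ) ≤ 13107 := by exact_mod_cast a10
  refine glue k2 h1 (by linarith) (by positivity) (by linarith) (by linarith) hr k1 fun y hy => ?_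
  have b11 := mul_le_mul_of_nonneg_left (h0.trans hy.1) (Nat.cast_nonneg (α := ℝ) rn)
  exact cov_sound hS a5 a4 a10 h (by linarith [hy.1]) (by linarith [hy.2]) (by linarith)

theorem step {yl p yu rn a b A A' : ℕ} (h : stp yl p yu rn a b A A' = true) (hn : St yu A A') :
    St yl a b := by
  have h' := h
  simp only [stp, an_iff, decide_eq_true_eq] at h'
  obtain ⟨⟨-, a2, -, -, -, -, -, -, a9, -, a11, a12, a13⟩, -⟩ := h'
  have b2 : (yl : ℝ) < yu := by exact_mod_cast a2
  obtain ⟨R, c1, c2, c3, c4⟩ := first h hn (r0 := (max a A : ℕ) / 1024) le_rfl (by linarith)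
    ⟨by gcongr; omega, by gcongr; omega⟩
  exact ⟨_, ⟨by gcongr; omega, by gcongr; omega⟩, R, c1, c2, c3, fun y hy => c4 y ⟨hy.1.le, hy.2⟩⟩

end Cells

end Pool.Agent.P.MP_ee6314_co
end
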