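import Pool.Agent.K.MP_ee6314_co.C0

/-! The finite check: sign changes of the reduced polynomials for `k ≤ 62`. -/

namespace Pool.Agent.P.MP_ee6314_co

open Finset Polynomial

/-- Strict evaluation of a natural number. -/
noncomputable def frc {α : Type} (n : ℕ) (κ : ℕ → α) : α :=
  Nat.rec (κ Nat.zero) (fun m _ => κ (Nat.succ m)) n

theorem frc_eq {α : Type} (n : ℕ) (κ : ℕ → α) : frc n κ = κ n := by cases n <;> rfl

/-- Strict evaluation of an integer. -/
noncomputable def frcI {α : Type} (z : ℤ) (κ : ℤ → α) : α :=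
  Int.rec (fun n => frc n fun m => κ (Int.ofNat m)) (fun n => frc n fun m => κ (Int.negSucc m)) z

theorem frcI_eq {α : Type} (z : ℤ) (κ : ℤ → α) : frcI z κ = κ z := by
  cases z <;> simp only [frcI, frc_eq]

/-- The list `q (k - 1), …, q 0`. -/
def dn (q : ℕ → ℤ) : ℕ → List ℤ
  | 0 => []
  | k + 1 => q k :: dn q k

/-- The list `m s, …, m (s + l - 1)`. -/
def up (m : ℕ → ℤ) : ℕ → ℕ → List ℤ
  | 0, _ => []
  | l + 1, s => m s :: up m l (s + 1)

/-- The next binomial coefficient. -/
def nx (n r c : ℕ) : ℕ := c * (n - r) / (r + 1)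

theorem nx_eq (n r : ℕ) : nx n r (n.choose r) = n.choose (r + 1) := by
  rw [nx, ← Nat.choose_succ_right_eq, Nat.mul_div_cancel _ r.succ_pos]

/-- The binomial convolution. -/
noncomputable def cv (n : ℕ) : List ℤ → List ℤ → ℕ → ℕ → ℤ → ℤ
  | _, [], _, _, _ => 0
  | [], m :: _, _, _, acc => acc + m
  | q :: qs, m :: ms, r, c, acc => frc (nx n (r + 1) (nx n r c)) fun c' => frc (r + 2) fun r' =>
      frcI (acc + c * (q * m)) fun acc' => cv n qs ms r' c' acc'

theorem cv_eq (n : ℕ) (q m : ℕ → ℤ) : ∀ (t l s : ℕ) (acc : ℤ), t < l →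
    cv n (dn q t) (up m l s) (2 * s) (n.choose (2 * s)) acc = acc + ∑ j ∈ range t,
      (n.choose (2 * (s + (t - 1 - j))) : ℤ) * (q j * m (s + (t - 1 - j))) + m (s + t)
  | _, 0, _, _, h => absurd h (Nat.not_lt_zero _)
  | 0, l + 1, s, acc, _ => by simp [dn, up, cv]
  | t + 1, l + 1, s, acc, h => by
    rw [dn, up, cv, frc_eq, frc_eq, frcI_eq, nx_eq, nx_eq, show 2 * s + 1 + 1 = 2 * (s + 1) by ring,
      cv_eq n q m t l (s + 1) _ (by omega), sum_range_succ,
      show s + (t + 1 - 1 - t) = s by omega, show s + 1 + t = s + (t + 1) by omega,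
      sum_congr rfl fun j hj => by
        rw [show s + 1 + (t - 1 - j) = s + (t + 1 - 1 - j) by have := mem_range.1 hj; omega]]
    ring

theorem map_qq {R S : Type} [CommRing R] [CommRing S] (f : R →+* S) (x : R) (k : ℕ) :
    f (qq x k) = qq (f x) k := by rw [qq, qq, map_mul, map_gf]

theorem qq_int (x : ℤ) (k l : ℕ) (h : k < l) :
    qq x k = -cv (2 * k + 1) (dn (qq x) k) (up (mo x) l 1) 2 (nx (2 * k + 1) 1 (2 * k + 1)) 0 := by
  have h1 := cv_eq (2 * k + 1) (qq x) (mo x) k l 1 0 h
  have h2 := nx_eq (2 * k + 1) 1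
  rw [Nat.choose_one_right] at h2
  rw [h2, h1]
  apply (Int.castRingHom ℚ).injective_int
  simp only [map_neg, map_add, map_sum, map_mul, map_natCast, map_zero, map_qq, map_mo]
  rw [qq_eq, add_comm 1 k, zero_add, neg_add, add_comm (-_ : ℚ), ← sub_eq_add_neg, sub_right_inj]
  refine sum_congr rfl fun j hj => ?_
  have := mem_range.1 hj
  rw [show 1 + (k - 1 - j) = k - j by omega, show 2 * (k - j) = 2 * k + 1 - (2 * j + 1) by omega,
    Nat.choose_symm (by omega)]

/-- The list of moments. -/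
noncomputable def gm {α : Type} (x : ℤ) : ℕ → ℕ → ℤ → ℕ → ℤ → (List ℤ → α) → α
  | 0, _, _, _, _, κ => κ []
  | l + 1, n, m, c, w, κ => frcI (-x * w * c - x * x * m) fun m' =>
      frc (2 * (2 * n + 1) * c / (n + 2)) fun c' => frcI (w * (1 - x)) fun w' =>
        frc (n + 1) fun n' => gm x l n' m' c' w' fun L => κ (m' :: L)

theorem gm_eq {α : Type} (x : ℤ) : ∀ (l n : ℕ) (κ : List ℤ → α),
    gm x l n (mo x n) (catalan n) ((1 - x) ^ (n + 1)) κ = κ (up (mo x) l (n + 1))
  | 0, _, _ => rfl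
  | l + 1, n, κ => by
    rw [gm, frcI_eq, frc_eq, frcI_eq, frc_eq, ← catalan_rec, Nat.mul_div_cancel_left _ (by omega),
      ← pow_succ, ← pow_two, ← mo_succ, gm_eq x l, up]

/-- The list of values. -/
noncomputable def gq {α : Type} (ms : List ℤ) : ℕ → ℕ → List ℤ → (List ℤ → α) → α
  | 0, _, qs, κ => κ qs
  | l + 1, k, qs, κ => frc (2 * k + 1) fun n => frcI (-cv n qs ms 2 (nx n 1 n) 0) fun q =>
      frc (k + 1) fun k' => gq ms l k' (q :: qs) κ

theorem gq_eq {α : Type} (x : ℤ) (L : ℕ) (κ : List ℤ → α) : ∀ l k : ℕ, k + l ≤ L →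
    gq (up (mo x) L 1) l k (dn (qq x) k) κ = κ (dn (qq x) (k + l))
  | 0, _, _ => rfl
  | l + 1, k, h => by
    rw [gq, frc_eq, frcI_eq, frc_eq, ← qq_int x k L (by omega), ← dn, gq_eq x L κ l _ (by omega),
      show k + 1 + l = k + (l + 1) by ring]

/-- All values at one point. -/
noncomputable def ql {α : Type} (x : ℤ) (L : ℕ) (κ : List ℤ → α) : α :=
  frcI x fun x => gm x L 0 1 1 (1 - x) fun ms => gq ms L 0 [] κ

theorem ql_eq {α : Type} (x : ℤ) (L : ℕ) (κ : List ℤ → α) : ql x L κ = κ (dn (qq x) L) := by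
  have h1 := gm_eq x L 0 fun ms => gq ms L 0 [] κ
  have h2 := gq_eq x L κ L 0 (by omega)
  rw [mo_zero, catalan_zero, zero_add, pow_one] at h1
  rw [zero_add] at h2
  rw [ql, frcI_eq, h1, ← h2, dn]

theorem qq_sum (k : ℕ) : ∃ c : ℕ → ℤ, ∀ (R : Type) [CommRing R] (x : R),
    qq x k = ∑ i ∈ range (k + 2), (c i : R) * x ^ i := by
  refine ⟨fun i => (qq (X : ℤ[X]) k).coeff i, fun R _ x => ?_⟩
  have h1 := map_qq (mapRingHom (Int.castRingHom ℝ)) X k
  have h2 := natDegree_qq k
  rw [coe_mapRingHom, map_X] at h1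
  rw [← h1, natDegree_map_eq_of_injective (Int.castRingHom ℝ).injective_int] at h2
  have h3 := map_qq (eval₂RingHom (Int.castRingHom R) x) X k
  rw [coe_eval₂RingHom, eval₂_X, eval₂_eq_sum_range' _ (Nat.lt_succ_of_le h2)] at h3
  rw [← h3]
  simp

theorem kron (k : ℕ) {a D : ℕ} (B : ℤ) (hD : 0 < D) (ha : a ≤ 3 * D) : ∃ V : ℤ,
    (V : ℝ) = -(D ^ (k + 1) * (a / D * red k (a / D))) ∧
      (D * B + a) ∣ D ^ (k + 1) * qq B k - V ∧ |V| ≤ D ^ (k + 1) * qq 3 k := by
  obtain ⟨c, hc⟩ := qq_sum k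
  have hD' : (0 : ℝ) < D := by exact_mod_cast hD
  have h1 : ((∑ i ∈ range (k + 2), c i * D ^ (k + 1 - i) * (-a) ^ i : ℤ) : ℝ) =
      -(D ^ (k + 1) * (a / D * red k (a / D))) := by
    have h := hc ℝ (-(a / D))
    rw [qq, ← red] at h
    rw [← mul_neg, ← neg_mul, h, mul_sum]
    push_cast
    refine sum_congr rfl fun i hi => ?_
    obtain ⟨j, hj⟩ : ∃ j, k + 1 = i + j := ⟨k + 1 - i, by have := mem_range.1 hi; omega⟩
    rw [hj, Nat.add_sub_cancel_left, ← neg_div, div_pow, pow_add]
    field_simp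
  refine ⟨_, h1, ?_, ?_⟩
  · rw [hc, mul_sum, ← sum_sub_distrib]
    refine dvd_sum fun i hi => ?_
    obtain ⟨j, hj⟩ : ∃ j, k + 1 = i + j := ⟨k + 1 - i, by have := mem_range.1 hi; omega⟩
    have h := (sub_dvd_pow_sub_pow (D * B) (-a) i).mul_left (c i * D ^ j)
    rw [sub_neg_eq_add] at h
    rw [hj, Nat.add_sub_cancel_left]
    refine h.trans (dvd_of_eq ?_)
    simp only [Int.cast_id]
    ring
  · have h2 := map_qq (Int.castRingHom ℝ) 3 k
    have h3 : (a / D : ℝ) ≤ 3 := by rw [div_le_iff₀ hD']; exact_mod_cast ha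
    have h4 : (0 : ℝ) ≤ a / D := by positivity
    have h5 := abs_gf_le k (x := -(a / D)) (b := 3) (by rwa [abs_neg, abs_of_nonneg h4])
    simp only [eq_intCast, Int.cast_ofNat] at h2
    rw [← Int.cast_le (R := ℝ), Int.cast_abs, h1]
    push_cast
    rw [h2, qq, abs_neg, abs_mul, abs_mul, abs_of_nonneg h4, abs_of_pos (pow_pos hD' _), red]
    gcongr

/-- Counting sign changes along a grid. -/
noncomputable def sc (Z H E : ℤ) (T : ℕ) : List ℕ → ℕ → Bool → ℕ → ℕ
  | [], _, _, n => n
  | a :: g, p, s, n => frcI (Z % (E + a)) fun r =>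
      if r = H ∨ a < p ∨ T < a then n else
        if r < H then frc (if s then n else n + 1) fun n' => sc Z H E T g a true n'
        else frc (if s then n + 1 else n) fun n' => sc Z H E T g a false n'

theorem HR.mono {f : ℝ → ℝ} {a b : ℝ} {n : ℕ} (h : HR f a n) (hab : a ≤ b) : HR f b n := by
  obtain ⟨s, h1, h2⟩ := h
  exact ⟨s, h1, fun r hr => ⟨(h2 r hr).1.trans_le hab, (h2 r hr).2⟩⟩

theorem sc_sound (k : ℕ) {D : ℕ} (B : ℤ) (hD : 0 < D) (hB : 2 * (D ^ (k + 1) * qq 3 k) < D * B) :
    ∀ (g : List ℕ) (p : ℕ) (s : Bool) (n : ℕ), HR (red k) (p / D) n →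
      (if s then 0 < red k (p / D) else red k (p / D) < 0) →
      ∃ a, HR (red k) a (sc (D ^ (k + 1) * qq B k + D ^ (k + 1) * qq 3 k) (D ^ (k + 1) * qq 3 k)
        (D * B) (3 * D) g p s n)
  | [], _, _, _, h, _ => ⟨_, h⟩
  | a :: g, p, s, n, h, hs => by
    have hD' : (0 : ℝ) < D := by exact_mod_cast hD
    rw [sc, frcI_eq]
    by_cases h1 : (D ^ (k + 1) * qq B k + D ^ (k + 1) * qq 3 k) % (D * B + a) =
        D ^ (k + 1) * qq 3 k ∨ a < p ∨ 3 * D < a
    · rw [if_pos h1]
      exact ⟨_, h⟩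
    rw [if_neg h1, frc_eq, frc_eq]
    push Not at h1
    obtain ⟨V, v1, v2, v3⟩ := kron k B hD h1.2.2
    have hr : (D ^ (k + 1) * qq B k + D ^ (k + 1) * qq 3 k) % (D * B + a) =
        V + D ^ (k + 1) * qq 3 k := by
      have a1 := abs_le.1 v3
      have a2 : (0 : ℤ) ≤ a := by positivity
      rw [← Int.emod_eq_of_lt (a := V + D ^ (k + 1) * qq 3 k) (b := D * B + a) (by linarith)
        (by linarith)]
      exact (Int.modEq_iff_dvd.2 (by rwa [add_sub_add_right_eq_sub])).symm
    have hpa : (p / D : ℝ) ≤ a / D := by gcongr; exact_mod_cast h1.2.1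
    have h4 : (0 : ℝ) ≤ a / D := by positivity
    have h5 : (0 : ℝ) ≤ D ^ (k + 1) := by positivity
    rw [hr] at h1 ⊢
    by_cases h2 : V + D ^ (k + 1) * qq 3 k < D ^ (k + 1) * qq 3 k
    · have hV : (V : ℝ) < 0 := by exact_mod_cast (by linarith : V < 0)
      have hp : 0 < red k (a / D) := by
        by_contra hn
        have := mul_nonneg h5 (mul_nonneg h4 (neg_nonneg.2 (not_lt.1 hn)))
        linarith
      rw [if_pos h2]
      refine sc_sound k B hD hB g a true _ ?_ (by simpa using hp)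
      cases s
      · exact h.step (red_continuous k) hpa (mul_neg_of_neg_of_pos (by simpa using hs) hp)
      · exact h.mono hpa
    · have hV : (0 : ℝ) < V := by
        exact_mod_cast (by rcases lt_or_gt_of_ne h1.1 with h | h <;> linarith : 0 < V)
      have hp : red k (a / D) < 0 := by
        by_contra hn
        have := mul_nonneg h5 (mul_nonneg h4 (not_lt.1 hn))
        linarith
      rw [if_neg h2]
      refine sc_sound k B hD hB g a false _ ?_ (by simpa using hp)
      cases s
      · exact h.mono hpa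
      · exact h.step (red_continuous k) hpa (mul_neg_of_pos_of_neg (by simpa using hs) hp)

/-- The check for all indices. -/
noncomputable def ck (D : ℕ) (B : ℤ) (g : List ℕ) : List ℤ → List ℤ → ℕ → Bool
  | u :: us, v :: vs, k + 1 => (frc (D ^ (k + 1)) fun W => frcI (W * v) fun H =>
      frcI (W * u + H) fun Z => frcI (D * B) fun E => frc (3 * D) fun T =>
        decide (2 * H < E) && decide (k - 1 ≤ sc Z H E T g 0 true 0)) && ck D B g us vs k
  | _, _, _ => true

theorem ck_sound {D : ℕ} (B : ℤ) (g : List ℕ) (hD : 0 < D) : ∀ t : ℕ,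
    ck D B g (dn (qq B) t) (dn (qq 3) t) t = true → ∀ k < t, ∃ a, HR (red k) a (k - 1)
  | 0, _, _, hk => absurd hk (Nat.not_lt_zero _)
  | t + 1, h, k, hk => by
    rw [dn, dn, ck, frc_eq, frcI_eq, frcI_eq, frcI_eq, frc_eq, Bool.and_eq_true, Bool.and_eq_true,
      decide_eq_true_eq, decide_eq_true_eq, Nat.cast_pow] at h
    rcases Nat.lt_succ_iff_lt_or_eq.1 hk with hk | rfl
    · exact ck_sound B g hD t h.2 k hk
    obtain ⟨a, s, h1, h2⟩ := sc_sound k B hD h.1.1 g 0 true 0 (HR.zero _ _)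
      (by simpa using red_zero k)
    obtain ⟨s', h3, h4⟩ := exists_subset_card_eq (h1 ▸ h.1.2)
    exact ⟨a, s', h4, fun r hr => h2 r (h3 hr)⟩

/-- The grid, in units of `3 ^ (-41)`. -/
def grid : List ℕ :=
  [1, 1814093, 4179671617, 475553748459, 13043759957733, 144568339531533, 852192317238507,
    3339202549179455, 10574141405734939, 26713620393435635, 56766443336050723, 106854481573742539,
    185882275237656291, 298302094393364587, 449679276622833181, 648918362057207289,
    894906283180093759, 1193208377573458345, 1549389982819266805, 1958998828851946535,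
    2422034915671497535, 2974116403802500649, 3561816052458084609, 4238561102425120685,
    4973185663244600637, 5770142004982097067, 6624977857572037373, 7568859111473429795,
    8583976686423983909, 9545667020587666753, 10845729879734867637, 12074556417832906827,
    13392428357242398133, 14817154778225631977, 16313117520258027513, 17915934743864165587,
    19518751967470303661, 21370896314748507659, 23223040662026711655, 25360130293501562421,
    27497219924976413187, 29705545877500425645, 32056344472122761487, 34620852029892582405,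
    37327832229760726709, 39892339787530547629, 43026737913693662085, 46303608681955099925,
    49580479450216537767, 53249149984248364915, 56419166270936060217, 60693345533885761749,
    64540106870540493127, 68529340849293547891, 72518574828046602653, 76365336164701334031,
    79784679575061095257, 83061550343322533097, 85626057901092354017, 87442584087845977167,
    87763147532567204783]

/-- The whole computation. -/
noncomputable def runB (D : ℕ) (B : ℤ) (g : List ℕ) (L : ℕ) : Bool :=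
  ql B L fun us => ql 3 L fun vs => ck D B g us vs L

theorem runB_sound {D : ℕ} {B : ℤ} {g : List ℕ} {L : ℕ} (hD : 0 < D) (h : runB D B g L = true) :
    ∀ k < L, ∃ a, HR (red k) a (k - 1) := by
  rw [runB, ql_eq, ql_eq] at h
  exact ck_sound B g hD L h

theorem run : runB (3 ^ 41) ((3 ^ 3000 : ℕ) : ℤ) grid 63 = true := by
  decide +kernel

theorem fin_check (k : ℕ) (hk : k ≤ 62) : ∃ a, HR (red k) a (k - 1) :=
  runB_sound (pow_pos (by norm_num) 41) run k (Nat.lt_succ_of_le hk)

end Pool.Agent.P.MP_ee6314_co
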