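import Pool.Agent.K.MP_ee6314_co.C0
import Mathlib

-- part Pool.Agent.P.MP_ee6314_co.Asym
section

/-! Asymptotic form of the entire function in a sector. -/

namespace Pool.Agent.P.MP_ee6314_co

open Real intervalIntegral MeasureTheory Set Filter

/-- The leading term. -/
noncomputable def aa (v : ℂ) : ℂ :=
  Complex.exp (2 * v - 3 / 2 * Complex.log (v - 7 / 8)) / (8 * √π : ℝ)

theorem integrableOn_root_exp {b : ℂ} (hb : 0 < b.re) :
    IntegrableOn (fun z : ℝ => ((√z : ℝ) : ℂ) * Complex.exp (-(b * z))) (Ioi 0) := by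
  refine Integrable.mono' (integrableOn_rpow_mul_exp_neg_mul_rpow (s := 1 / 2) (p := 1)
    (by norm_num) one_pos hb) (Continuous.aestronglyMeasurable (by fun_prop))
    (Eventually.of_forall fun z => le_of_eq ?_)
  rw [norm_mul, Complex.norm_real, Complex.norm_exp, norm_of_nonneg (sqrt_nonneg _), sqrt_eq_rpow]
  simp

theorem integral_root_exp {b : ℂ} (hb : 0 < b.re) :
    ∫ z : ℝ in Ioi 0, ((√z : ℝ) : ℂ) * Complex.exp (-(b * z)) =
      (√π : ℝ) / 2 * Complex.exp (-(3 / 2 * Complex.log b)) := by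
  have hb0 : b ≠ 0 := by rintro rfl; simp at hb
  have i1 : IntegrableOn (fun x : ℝ => Complex.exp (-b * (x : ℂ) ^ 2)) (Ioi 0) :=
    (integrable_cexp_neg_mul_sq hb).integrableOn
  have i2 : IntegrableOn (fun x : ℝ => (x : ℂ) ^ 2 * Complex.exp (-b * (x : ℂ) ^ 2)) (Ioi 0) := by
    refine Integrable.mono' (integrableOn_rpow_mul_exp_neg_mul_sq (s := 2) hb (by norm_num))
      (Continuous.aestronglyMeasurable (by fun_prop)) (Eventually.of_forall fun z => le_of_eq ?_)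
    rw [norm_mul, norm_cexp_neg_mul_sq]
    simp
  have h1 : ∫ x : ℝ in Ioi 0, (Complex.exp (-b * (x : ℂ) ^ 2) -
      2 * b * ((x : ℂ) ^ 2 * Complex.exp (-b * (x : ℂ) ^ 2))) = 0 - ((0 : ℝ) : ℂ) *
        Complex.exp (-b * ((0 : ℝ) : ℂ) ^ 2) := by
    refine integral_Ioi_of_hasDerivAt_of_tendsto'
      (f := fun x : ℝ => (x : ℂ) * Complex.exp (-b * (x : ℂ) ^ 2)) (fun x _ => ?_)
      (i1.sub (i2.const_mul _)) ?_
    · have A : HasDerivAt (fun x : ℂ => x * Complex.exp (-b * x ^ 2))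
          (1 * Complex.exp (-b * (x : ℂ) ^ 2) + x * (Complex.exp (-b * (x : ℂ) ^ 2) *
            (-b * ((2 : ℕ) * (x : ℂ) ^ (2 - 1))))) (x : ℂ) :=
        (hasDerivAt_id _).mul ((hasDerivAt_pow 2 _).const_mul (-b)).cexp
      refine HasDerivAt.congr_deriv A.comp_ofReal ?_
      push_cast
      ring
    · rw [tendsto_zero_iff_norm_tendsto_zero]
      have := (rpow_mul_exp_neg_mul_sq_isLittleO_exp_neg hb 1).trans_tendsto
        (tendsto_exp_atBot.comp (tendsto_id.const_mul_atTop_of_neg (by norm_num)))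
      refine this.congr' ?_
      filter_upwards [eventually_ge_atTop 0] with x hx
      rw [norm_mul, norm_cexp_neg_mul_sq, Complex.norm_real, norm_of_nonneg hx, rpow_one]
  rw [integral_sub i1 (i2.const_mul _), MeasureTheory.integral_const_mul,
    integral_gaussian_complex_Ioi hb] at h1
  rw [← integral_comp_rpow_Ioi_of_pos (p := 2) two_pos]
  have h2 : ∫ x : ℝ in Ioi 0, (2 * x ^ ((2 : ℝ) - 1)) • (((√(x ^ (2 : ℝ)) : ℝ) : ℂ) *
      Complex.exp (-(b * (x ^ (2 : ℝ) : ℝ)))) =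
      2 * ∫ x : ℝ in Ioi 0, (x : ℂ) ^ 2 * Complex.exp (-b * (x : ℂ) ^ 2) := by
    rw [← MeasureTheory.integral_const_mul]
    refine setIntegral_congr_fun measurableSet_Ioi fun x hx => ?_
    simp only [rpow_two, sqrt_sq (le_of_lt hx), show (2 : ℝ) - 1 = 1 by norm_num, rpow_one,
      Complex.real_smul]
    push_cast
    ring_nf
  have h3 : ((π : ℂ) / b) ^ (1 / 2 : ℂ) = (√π : ℝ) * Complex.exp (-(1 / 2 * Complex.log b)) := by
    have harg : b.arg ≠ π := fun h => by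
      have := Complex.abs_arg_lt_pi_div_two_iff.2 (Or.inl hb)
      rw [h, abs_of_pos pi_pos] at this
      linarith [pi_pos]
    rw [Complex.cpow_def_of_ne_zero (by simp [hb0]), div_eq_mul_inv,
      Complex.log_ofReal_mul pi_pos (inv_ne_zero hb0), Complex.log_inv _ harg, add_mul,
      Complex.exp_add, sqrt_eq_rpow, rpow_def_of_pos pi_pos]
    push_cast
    ring_nf
  have h4 : Complex.exp (-(1 / 2 * Complex.log b)) = b * Complex.exp (-(3 / 2 * Complex.log b)) := by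
    conv_rhs => lhs; rw [← Complex.exp_log hb0]
    rw [← Complex.exp_add]
    ring_nf
  rw [h2]
  rw [h3, h4] at h1
  apply mul_left_cancel₀ hb0
  simp only [Complex.ofReal_zero, zero_mul, sub_zero] at h1
  linear_combination -h1

theorem gamma_seven_half : Gamma (7 / 2) = 15 / 8 * √π := by
  rw [show (7 / 2 : ℝ) = 5 / 2 + 1 by norm_num, Gamma_add_one (by norm_num),
    show (5 / 2 : ℝ) = 3 / 2 + 1 by norm_num, Gamma_add_one (by norm_num),
    show (3 / 2 : ℝ) = 1 / 2 + 1 by norm_num, Gamma_add_one (by norm_num), Gamma_one_half_eq]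
  ring

theorem weight_bound {z k : ℝ} (h0 : 0 ≤ z) (h1 : z ≤ 3 / 2) (hk : 0 ≤ k) :
    |2 * √(4 - z) / ((2 - z) ^ 2 + k) - exp (7 / 8 * z)| ≤ z ^ 2 * exp (2 * z) / 4 + 64 * k := by
  have hq : 1 / 4 ≤ (2 - z) ^ 2 := by nlinarith
  have hr := sq_sqrt (show 0 ≤ 4 - z by linarith)
  have hr0 := sqrt_nonneg (4 - z)
  set r := √(4 - z)
  have hr1 : r ≤ 2 - z / 4 := by nlinarith
  have hr2 : 2 - z / 4 - z ^ 2 / 16 ≤ r := by
    refine le_sqrt_of_sq_le ?_
    nlinarith [mul_nonneg (sq_nonneg z) h0, mul_nonneg (sq_nonneg z) (sub_nonneg.2 h1),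
      mul_nonneg (mul_nonneg (sq_nonneg z) h0) (sub_nonneg.2 h1)]
  have a1 : 2 * r / ((2 - z) ^ 2 + k) ≤ 2 * r / (2 - z) ^ 2 := by gcongr; linarith
  have a2 : 2 * r / (2 - z) ^ 2 - 64 * k ≤ 2 * r / ((2 - z) ^ 2 + k) := by
    rw [sub_le_iff_le_add, div_add' _ _ _ (by positivity), div_le_div_iff₀ (by positivity)
      (by positivity)]
    have : 1 / 16 ≤ ((2 - z) ^ 2 + k) * (2 - z) ^ 2 := by nlinarith
    nlinarith
  rw [abs_le]
  constructor
  · have b1 : 2 - z ≤ 2 * exp (-(z / 2)) := by linarith [add_one_le_exp (-(z / 2))]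
    have b2 : (2 - z) ^ 2 * exp z ≤ 4 := by
      calc _ ≤ (2 * exp (-(z / 2))) ^ 2 * exp z := by gcongr; linarith
        _ = 4 := by
          rw [mul_pow, ← exp_nat_mul, mul_assoc, ← exp_add, show ((2 : ℕ) : ℝ) * -(z / 2) + z = 0 by
            push_cast; ring]
          norm_num
    have b3 : r / 2 * exp z ≤ 2 * r / (2 - z) ^ 2 := by
      rw [le_div_iff₀ (by positivity)]
      nlinarith
    have b4 : exp (-(z / 8)) ≤ 1 - z / 8 + z ^ 2 / 64 := by
      have := abs_le.1 (abs_exp_sub_one_sub_id_le (x := -(z / 8))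
        (by rw [abs_neg, abs_of_nonneg (by linarith)]; linarith))
      linarith [this.2]
    have b5 : exp (7 / 8 * z) = exp (-(z / 8)) * exp z := by rw [← exp_add]; ring_nf
    have b6 : exp z ≤ exp (2 * z) := exp_le_exp.2 (by linarith)
    have b7 : (exp (-(z / 8)) - 3 / 64 * z ^ 2) * exp z ≤ r / 2 * exp z := by
      gcongr; linarith
    nlinarith [mul_le_mul_of_nonneg_left b6 (sq_nonneg z), mul_nonneg (sq_nonneg z) (exp_pos z).le]
  · have b1 := sum_le_exp_of_nonneg (x := 7 / 8 * z) (by linarith) 4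
    have b2 := sum_le_exp_of_nonneg (x := 2 * z) (by linarith) 6
    simp only [Finset.sum_range_succ, Finset.range_zero, Finset.sum_empty, Nat.factorial] at b1 b2
    push_cast at b1 b2
    have b3 : 2 * r / (2 - z) ^ 2 ≤ (1 + 7 / 8 * z + (7 / 8 * z) ^ 2 / 2 + (7 / 8 * z) ^ 3 / 6) +
        z ^ 2 * (1 + 2 * z + (2 * z) ^ 2 / 2 + (2 * z) ^ 3 / 6 + (2 * z) ^ 4 / 24 +
          (2 * z) ^ 5 / 120) / 4 := by
      rw [div_le_iff₀ (by positivity)]
      have hw : 0 ≤ 3 / 2 - z := by linarith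
      have : 0 ≤ z ^ 2 * (4 / 2187 * (3 / 2 - z) ^ 7 + 719 / 8748 * z * (3 / 2 - z) ^ 6 +
          2795 / 5832 * z ^ 2 * (3 / 2 - z) ^ 5 + 170279 / 139968 * z ^ 3 * (3 / 2 - z) ^ 4 +
          56131 / 34992 * z ^ 4 * (3 / 2 - z) ^ 3 + 126139 / 116640 * z ^ 5 * (3 / 2 - z) ^ 2 +
          40973 / 174960 * z ^ 6 * (3 / 2 - z) + 4099 / 699840 * z ^ 7) := by positivity
      linarith
    have b4 := mul_le_mul_of_nonneg_left b2 (sq_nonneg z)
    linarith

theorem cosh_sub_one_le (a : ℝ) : cosh a - 1 ≤ a ^ 2 / 2 * cosh a := by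
  have h1 := (hasSum_nat_add_iff' 1).2 (hasSum_cosh a)
  simp only [Finset.sum_range_one, mul_zero, pow_zero, Nat.factorial_zero, Nat.cast_one,
    div_one] at h1
  refine hasSum_le (fun n => ?_) h1 ((hasSum_cosh a).mul_left _)
  rw [show 2 * (n + 1) = 2 * n + 1 + 1 by ring, Nat.factorial_succ, Nat.factorial_succ,
    div_mul_div_comm, ← pow_add, show 2 + 2 * n = 2 * n + 1 + 1 by ring, ← mul_assoc]
  have h0 : 0 ≤ a ^ (2 * n + 1 + 1) := by
    rw [show 2 * n + 1 + 1 = 2 * (n + 1) by ring, pow_mul]; positivity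
  push_cast
  gcongr
  nlinarith [(Nat.cast_nonneg n : (0 : ℝ) ≤ n)]

variable {y : ℝ}

theorem dens_mul_sq_le (hy : 0 < y) (s : ℝ) : s ^ 2 * dens y s ≤ 2 * y / π := by
  have hk := kap_pos hy
  have h1 : √(4 - s ^ 2) ≤ 2 := by
    rw [sqrt_le_left (by norm_num)]; nlinarith [sq_nonneg s]
  rw [dens, ← mul_div_assoc, div_le_div_iff₀ (by positivity) pi_pos]
  have h2 : s ^ 2 * √(4 - s ^ 2) ≤ (s ^ 2 + kap y) * 2 := by gcongr; linarith
  nlinarith [mul_pos hy pi_pos]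

theorem norm_main_sub (hy : 0 < y) {v : ℂ} (hx : 2 < v.re) :
    ‖(∫ s in (1 / 2 : ℝ)..2, Complex.exp (v * s) / 2 * dens y s) - y * aa v‖ ≤
      y * exp (2 * v.re) / (4 * π) * (15 / 32 * √π * (1 / (v.re - 2)) ^ (7 / 2 : ℝ) +
        120 * kap y) := by
  have hk := kap_pos hy
  have hb : 0 < (v - 7 / 8).re := by simp; linarith
  set c : ℂ := y * Complex.exp (2 * v) / (4 * π) with hc
  set f : ℝ → ℂ := fun z => ((√z * (2 * √(4 - z) / ((2 - z) ^ 2 + kap y)) : ℝ) : ℂ) *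
    Complex.exp (-(v * z)) with hf
  set g : ℝ → ℂ := fun z => ((√z : ℝ) : ℂ) * Complex.exp (-((v - 7 / 8) * z)) with hg
  set B : ℝ → ℝ := fun z => z ^ ((7 / 2 : ℝ) - 1) * exp (-((v.re - 2) * z)) / 4 with hB
  have cf : Continuous f := by
    refine Continuous.mul (Complex.continuous_ofReal.comp (Continuous.mul (by fun_prop)
      (Continuous.div (by fun_prop) (by fun_prop) fun s => by positivity))) (by fun_prop)
  have cg : Continuous g := by fun_prop
  have ig : IntegrableOn g (Ioi 0) := integrableOn_root_exp hb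
  have iB : IntegrableOn B (Ioi 0) := by
    have := integrableOn_rpow_mul_exp_neg_mul_rpow (s := 7 / 2 - 1) (p := 1) (b := v.re - 2)
      (by norm_num) one_pos (by linarith)
    simp only [rpow_one, neg_mul] at this
    exact this.div_const 4
  have cB : Continuous B := by
    refine ((continuous_rpow_const (by norm_num)).mul (by fun_prop)).div_const _
  have eB : ∀ z, 0 ≤ z → B z = √z * exp (-(v.re * z)) * (z ^ 2 * exp (2 * z) / 4) := by
    intro z hz
    simp only [hB]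
    rw [show (7 / 2 : ℝ) - 1 = 1 / 2 + (2 : ℕ) by norm_num, rpow_add' hz (by norm_num),
      rpow_natCast, ← sqrt_eq_rpow, show -((v.re - 2) * z) = -(v.re * z) + 2 * z by ring, exp_add]
    ring
  have eg : ∀ z : ℝ, g z = ((√z * exp (7 / 8 * z) : ℝ) : ℂ) * Complex.exp (-(v * z)) := by
    intro z
    simp only [hg]
    push_cast
    rw [mul_assoc, ← Complex.exp_add]
    ring_nf
  have e1 : ∫ s in (1 / 2 : ℝ)..2, Complex.exp (v * s) / 2 * dens y s =
      c * ∫ z in (0 : ℝ)..3 / 2, f z := by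
    have := integral_comp_sub_left (fun s : ℝ => Complex.exp (v * s) / 2 * dens y s)
      (a := 0) (b := 3 / 2) 2
    rw [show (2 : ℝ) - 3 / 2 = 1 / 2 by norm_num, sub_zero] at this
    rw [← this, ← intervalIntegral.integral_const_mul]
    refine integral_congr fun z hz => ?_
    rw [uIcc_of_le (by norm_num)] at hz
    simp only [hc, hf, dens]
    rw [show 4 - (2 - z) ^ 2 = z * (4 - z) by ring, sqrt_mul hz.1]
    have : (((2 - z) ^ 2 + kap y : ℝ) : ℂ) ≠ 0 := by exact_mod_cast (by positivity)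
    push_cast at this ⊢
    rw [mul_sub v, sub_eq_add_neg (v * 2), Complex.exp_add, mul_comm v 2]
    field_simp
    ring
  have e2 : y * aa v = c * ∫ z in Ioi 0, g z := by
    rw [integral_root_exp hb, aa, sub_eq_add_neg (2 * v), Complex.exp_add, hc]
    have h1 : ((√π : ℝ) : ℂ) ≠ 0 := by exact_mod_cast (sqrt_pos.2 pi_pos).ne'
    have h2 : (π : ℂ) = ((√π : ℝ) : ℂ) ^ 2 := by exact_mod_cast (sq_sqrt pi_pos.le).symm
    push_cast
    rw [h2]
    field_simp
    ring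
  have e3 := integral_interval_add_Ioi ig (ig.mono_set (Ioi_subset_Ioi (by norm_num : (0 : ℝ) ≤ 3 / 2)))
  have e4 := integral_interval_add_Ioi iB (iB.mono_set (Ioi_subset_Ioi (by norm_num : (0 : ℝ) ≤ 3 / 2)))
  have e5 : ∫ z in Ioi 0, B z = 15 / 32 * √π * (1 / (v.re - 2)) ^ (7 / 2 : ℝ) := by
    simp only [hB]
    rw [MeasureTheory.integral_div, integral_rpow_mul_exp_neg_mul_Ioi (by norm_num) (by linarith),
      gamma_seven_half]
    ring
  have n1 : ‖∫ z in (0 : ℝ)..3 / 2, (f z - g z)‖ ≤ ∫ z in (0 : ℝ)..3 / 2, (B z + 80 * kap y) := by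
    refine norm_integral_le_of_norm_le (by norm_num) (Eventually.of_forall fun z hz => ?_)
      (Continuous.intervalIntegrable (by fun_prop) _ _)
    rw [eg, eB z hz.1.le]
    simp only [hf]
    rw [← sub_mul, ← Complex.ofReal_sub, ← mul_sub, norm_mul, Complex.norm_real, Complex.norm_exp,
      norm_eq_abs, abs_mul, abs_of_nonneg (sqrt_nonneg z)]
    simp only [Complex.neg_re, Complex.mul_re, Complex.ofReal_re, Complex.ofReal_im, mul_zero,
      sub_zero]
    have w1 := weight_bound hz.1.le hz.2 hk.le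
    have w2 : √z ≤ 5 / 4 := by rw [sqrt_le_left (by norm_num)]; linarith [hz.2]
    have w3 : exp (-(v.re * z)) ≤ 1 := exp_le_one_iff.2 (by nlinarith [hz.1])
    have w4 : √z * exp (-(v.re * z)) ≤ 5 / 4 * 1 := by gcongr
    have w5 := mul_le_mul_of_nonneg_left w1
      (mul_nonneg (sqrt_nonneg z) (exp_pos (-(v.re * z))).le)
    nlinarith
  have n2 : ‖∫ z in Ioi (3 / 2 : ℝ), g z‖ ≤ ∫ z in Ioi (3 / 2 : ℝ), B z := by
    refine MeasureTheory.norm_integral_le_of_norm_le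
      (iB.mono_set (Ioi_subset_Ioi (by norm_num : (0 : ℝ) ≤ 3 / 2))) ?_
    filter_upwards [ae_restrict_mem measurableSet_Ioi] with z hz
    have hz' : 3 / 2 < z := hz
    rw [eg, eB z (by linarith), norm_mul, Complex.norm_real, Complex.norm_exp,
      norm_of_nonneg (by positivity)]
    simp only [Complex.neg_re, Complex.mul_re, Complex.ofReal_re, Complex.ofReal_im, mul_zero,
      sub_zero]
    have w1 : exp (7 / 8 * z) ≤ z ^ 2 * exp (2 * z) / 4 := by
      rw [show 2 * z = 9 / 8 * z + 7 / 8 * z by ring, exp_add]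
      have := add_one_le_exp (9 / 8 * z)
      have h2 : 4 ≤ z ^ 2 * exp (9 / 8 * z) := by nlinarith
      nlinarith [exp_pos (7 / 8 * z)]
    rw [mul_right_comm]
    gcongr
  rw [integral_add (cB.intervalIntegrable _ _) (by simp), intervalIntegral.integral_const] at n1
  rw [integral_sub (cf.intervalIntegrable _ _) (cg.intervalIntegrable _ _)] at n1
  rw [e1, e2, ← mul_sub, norm_mul, ← e3, ← sub_sub]
  have n3 : ‖c‖ = y * exp (2 * v.re) / (4 * π) := by
    rw [hc, norm_div, norm_mul, norm_mul, Complex.norm_exp, Complex.norm_real, Complex.norm_real,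
      norm_of_nonneg hy.le, norm_of_nonneg pi_pos.le]
    simp
  rw [n3]
  gcongr
  refine (norm_sub_le _ _).trans ?_
  simp only [smul_eq_mul] at n1
  linarith

theorem norm_rest (hy : 0 < y) {v : ℂ} (hx : 0 ≤ v.re) :
    ‖Psi y v - 1 - ∫ s in (1 / 2 : ℝ)..2, Complex.exp (v * s) / 2 * dens y s‖ ≤
      y * (‖v‖ ^ 2 * exp (v.re / 2) / 2 + 18) / π := by
  have hc := continuous_dens hy
  have e1 : (1 : ℂ) = ∫ s in (0 : ℝ)..2, (dens y s : ℂ) := by
    rw [intervalIntegral.integral_ofReal, mass hy]; simp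
  have e2 : Psi y v - 1 - ∫ s in (1 / 2 : ℝ)..2, Complex.exp (v * s) / 2 * dens y s =
      (∫ s in (0 : ℝ)..1 / 2, (Complex.cosh (v * s) - 1) * dens y s) +
      ∫ s in (1 / 2 : ℝ)..2, (Complex.exp (-(v * s)) / 2 - 1) * dens y s := by
    rw [e1, Psi, ← integral_sub (Continuous.intervalIntegrable (by fun_prop) _ _)
      (Continuous.intervalIntegrable (by fun_prop) _ _), ← e1,
      ← integral_add_adjacent_intervals (b := 1 / 2) (Continuous.intervalIntegrable (by fun_prop) _ _)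
      (Continuous.intervalIntegrable (by fun_prop) _ _), add_sub_assoc,
      ← integral_sub (Continuous.intervalIntegrable (by fun_prop) _ _)
      (Continuous.intervalIntegrable (by fun_prop) _ _)]
    congr 2
    · ext s; ring
    · ext s; rw [Complex.cosh]; ring
  have n1 := norm_integral_le_of_norm_le_const (a := 0) (b := 1 / 2)
    (f := fun s : ℝ => (Complex.cosh (v * s) - 1) * dens y s)
    (C := y * (‖v‖ ^ 2 * exp (v.re / 2)) / π) fun s hs => by
      rw [uIoc_of_le (by norm_num)] at hs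
      rw [norm_mul, Complex.norm_real, norm_of_nonneg (dens_nonneg hy s)]
      have h1 := norm_cosh_sub_one (v * s)
      simp only [Complex.mul_re, Complex.mul_im, Complex.ofReal_re, Complex.ofReal_im, mul_zero,
        sub_zero, zero_add] at h1
      have h2 := cosh_sub_one_le (v.re * s)
      have h3 : cosh (v.re * s) ≤ exp (v.re / 2) := by
        have a1 : exp (v.re * s) ≤ exp (v.re / 2) := exp_le_exp.2 (by nlinarith [hs.1, hs.2])
        have a2 : exp (-(v.re * s)) ≤ exp (v.re / 2) := exp_le_exp.2 (by nlinarith [hs.1, hs.2])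
        rw [cosh_eq]; linarith
      have h4 : 1 ≤ exp (v.re / 2) := one_le_exp (by linarith)
      have h5 : ‖Complex.cosh (v * s) - 1‖ ≤ ‖v‖ ^ 2 * exp (v.re / 2) / 2 * s ^ 2 := by
        rw [Complex.sq_norm, Complex.normSq_apply]
        nlinarith [mul_le_mul_of_nonneg_left h3 (sq_nonneg (v.re * s)),
          mul_le_mul_of_nonneg_left h4 (sq_nonneg (v.im * s))]
      calc _ ≤ ‖v‖ ^ 2 * exp (v.re / 2) / 2 * s ^ 2 * dens y s :=
            mul_le_mul_of_nonneg_right h5 (dens_nonneg hy s)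
        _ = ‖v‖ ^ 2 * exp (v.re / 2) / 2 * (s ^ 2 * dens y s) := by ring
        _ ≤ ‖v‖ ^ 2 * exp (v.re / 2) / 2 * (2 * y / π) := by gcongr; exact dens_mul_sq_le hy s
        _ = _ := by ring
  have n2 := norm_integral_le_of_norm_le_const (a := 1 / 2) (b := 2)
    (f := fun s : ℝ => (Complex.exp (-(v * s)) / 2 - 1) * dens y s) (C := 12 * y / π) fun s hs => by
      rw [uIoc_of_le (by norm_num)] at hs
      rw [norm_mul, Complex.norm_real, norm_of_nonneg (dens_nonneg hy s)]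
      have h1 : ‖Complex.exp (-(v * s)) / 2 - 1‖ ≤ 3 / 2 := by
        refine (norm_sub_le _ _).trans ?_
        rw [norm_div, Complex.norm_exp]
        have : exp (-(v * s)).re ≤ 1 := exp_le_one_iff.2 (by simp; nlinarith [hs.1])
        simp only [Complex.norm_ofNat, norm_one]
        linarith
      have h2 := dens_mul_sq_le hy s
      have h3 := dens_nonneg hy s
      have h4 : dens y s ≤ 4 * (2 * y / π) := by
        have : 1 / 4 ≤ s ^ 2 := by nlinarith [hs.1]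
        nlinarith
      calc _ ≤ 3 / 2 * (4 * (2 * y / π)) := by gcongr
        _ = _ := by ring
  rw [e2]
  refine (norm_add_le _ _).trans ((add_le_add n1 n2).trans (le_of_eq ?_))
  norm_num
  ring

theorem norm_aa {v : ℂ} (h : v - 7 / 8 ≠ 0) :
    ‖aa v‖ = exp (2 * v.re) / (8 * √π * (‖v - 7 / 8‖ * √‖v - 7 / 8‖)) := by
  have h0 := norm_pos_iff.2 h
  rw [aa, norm_div, Complex.norm_exp, Complex.norm_real, norm_of_nonneg (by positivity)]
  have e : (2 * v - 3 / 2 * Complex.log (v - 7 / 8)).re =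
      2 * v.re - (log ‖v - 7 / 8‖ + log ‖v - 7 / 8‖ * (1 / 2)) := by
    simp [Complex.log_re]
    ring
  rw [e, exp_sub, exp_add, exp_log h0, ← rpow_def_of_pos h0, ← sqrt_eq_rpow]
  field_simp

theorem pow_six_le {x : ℝ} (hx : 11.4 ≤ x) : x ^ 6 * exp (x / 2) ≤ 0.0865 * exp (2 * x) := by
  have b5 : x ≤ 0.665 * exp (x / 4) := by
    have c1 := sum_le_exp_of_nonneg (x := 2.85) (by norm_num) 10
    simp only [Finset.sum_range_succ, Finset.range_zero, Finset.sum_empty, Nat.factorial] at c1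
    norm_num at c1
    have c2 := add_one_le_exp (x / 4 - 2.85)
    rw [show x / 4 = 2.85 + (x / 4 - 2.85) by ring, exp_add]
    norm_num at c2 ⊢
    nlinarith
  have : 0 ≤ x := by linarith
  calc _ ≤ (0.665 * exp (x / 4)) ^ 6 * exp (x / 2) := by gcongr
    _ = 0.665 ^ 6 * exp (2 * x) := by
      rw [mul_pow, ← exp_nat_mul, mul_assoc, ← exp_add]; ring_nf
    _ ≤ _ := by gcongr; norm_num

theorem asym_real {q s k E F : ℝ} (hy : 0 < y) (hq : 3.376 ≤ q) (hs : 1.772 ≤ s) (hE : 0 < E)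
    (hk : k * (q ^ 2) ^ 4 ≤ 1 / 10 ^ 5) (hF : (q ^ 2) ^ 6 * F ≤ 0.0865 * E) :
    y * (0.69 * ((q ^ 2) ^ 2 * F)) / s ^ 2 + y * E / (4 * s ^ 2) *
      (15 / 32 * s * (1 / (0.908 * q) ^ 7) + 120 * k) ≤
        2.42 / (q ^ 2) ^ 2 * (y * (E / (10 * s * q ^ 3))) := by
  have hq0 : 0 < q := by linarith
  have hs0 : 0 < s := by linarith
  have h0 : 5.98 ≤ s * q := by nlinarith
  have hU : 0 < y * E / (10 * s * q ^ 7) := by positivity
  have e : y * (0.69 * ((q ^ 2) ^ 2 * F)) / s ^ 2 + y * E / (4 * s ^ 2) *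
      (15 / 32 * s * (1 / (0.908 * q) ^ 7) + 120 * k) = (6.9 * ((q ^ 2) ^ 6 * F / E) / (s * q) +
        150 / 128 / 0.908 ^ 7 + 300 * (k * (q ^ 2) ^ 4) / (s * q)) * (y * E / (10 * s * q ^ 7)) := by
    field_simp
    ring
  have e' : 2.42 / (q ^ 2) ^ 2 * (y * (E / (10 * s * q ^ 3))) =
      2.42 * (y * E / (10 * s * q ^ 7)) := by field_simp
  rw [e, e']
  refine mul_le_mul_of_nonneg_right ?_ hU.le
  have t1 : (150 / 128 / 0.908 ^ 7 : ℝ) ≤ 2.304 := by norm_num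
  have t2 : 300 * (k * (q ^ 2) ^ 4) / (s * q) ≤ 0.001 := by
    rw [div_le_iff₀ (by positivity)]; linarith
  have t3 : 6.9 * ((q ^ 2) ^ 6 * F / E) / (s * q) ≤ 0.11 := by
    have : (q ^ 2) ^ 6 * F / E ≤ 0.0865 := by rwa [div_le_iff₀ hE]
    rw [div_le_iff₀ (by positivity)]; linarith
  linarith

theorem asym (hy : 0 < y) {v : ℂ} (hx : 11.4 ≤ v.re) (hv : ‖v‖ ≤ 1.16 * v.re)
    (hk : kap y * v.re ^ 4 ≤ 1 / 10 ^ 5) :
    ‖Psi y v - 1 - y * aa v‖ ≤ 2.42 / v.re ^ 2 * (y * ‖aa v‖) := by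
  have h1 := norm_main_sub hy (v := v) (by linarith)
  have h2 := norm_rest hy (v := v) (by linarith)
  have hb : v - 7 / 8 ≠ 0 := fun h => by
    have := congrArg Complex.re h
    simp at this
    linarith
  have b0 : ‖v - 7 / 8‖ ≤ ‖v‖ := by
    rw [← sq_le_sq₀ (norm_nonneg _) (norm_nonneg _), Complex.sq_norm, Complex.sq_norm,
      Complex.normSq_apply, Complex.normSq_apply]
    simp
    nlinarith
  have hn := norm_aa hb
  have hb0 := norm_pos_iff.2 hb
  generalize v.re = x at *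
  have hx0 : 0 < x := by linarith
  have hk0 := kap_pos hy
  have b6 := pow_six_le hx
  have hq : 3.376 ≤ √x := le_sqrt_of_sq_le (by linarith)
  obtain ⟨q, hq2, hq⟩ : ∃ q, q ^ 2 = x ∧ 3.376 ≤ q := ⟨√x, sq_sqrt hx0.le, hq⟩
  have hs2 := sq_sqrt pi_pos.le
  have hs' : 1.772 ≤ √π := le_sqrt_of_sq_le (by linarith [pi_gt_d4])
  have hq0 : 0 < q := by linarith
  have b1 : ‖v - 7 / 8‖ ≤ 1.16 * q ^ 2 := by rw [hq2]; exact b0.trans hv
  have b2 : √‖v - 7 / 8‖ ≤ 1.0771 * q := by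
    rw [sqrt_le_left (by positivity)]; nlinarith
  have b3 : exp (2 * x) / (10 * √π * q ^ 3) ≤ ‖aa v‖ := by
    rw [hn]
    refine div_le_div_of_nonneg_left (exp_pos _).le (by positivity) ?_
    calc _ ≤ 8 * √π * (1.16 * q ^ 2 * (1.0771 * q)) := by gcongr
      _ = (8 * 1.16 * 1.0771) * (√π * q ^ 3) := by ring
      _ ≤ 10 * (√π * q ^ 3) := by gcongr; norm_num
      _ = _ := by ring
  have b4 : (1 / (x - 2)) ^ (7 / 2 : ℝ) ≤ 1 / (0.908 * q) ^ 7 := by
    have c1 : 1 / (x - 2) ≤ (1 / (0.908 * q)) ^ 2 := by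
      rw [div_pow, one_pow, mul_pow, hq2]
      exact one_div_le_one_div_of_le (by positivity) (by linarith)
    calc _ ≤ ((1 / (0.908 * q)) ^ 2) ^ (7 / 2 : ℝ) :=
          rpow_le_rpow (one_div_nonneg.2 (by linarith)) c1 (by norm_num)
      _ = _ := by
        rw [← rpow_natCast, ← rpow_mul (by positivity), show ((2 : ℕ) : ℝ) * (7 / 2) = (7 : ℕ) by
          norm_num, rpow_natCast, div_pow, one_pow]
  have b7 : ‖v‖ ^ 2 * exp (x / 2) / 2 + 18 ≤ 0.69 * (x ^ 2 * exp (x / 2)) := by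
    have c1 : ‖v‖ ^ 2 ≤ (1.16 * x) ^ 2 := by gcongr
    have c2 := quadratic_le_exp_of_nonneg (x := x / 2) (by linarith)
    have c4 : 129 ≤ x ^ 2 := by nlinarith
    have c3 : 20 ≤ exp (x / 2) := by linarith
    have c5 : 129 * 20 ≤ x ^ 2 * exp (x / 2) := by gcongr
    have c6 := mul_le_mul_of_nonneg_right c1 (exp_pos (x / 2)).le
    linarith
  have key := asym_real (k := kap y) (F := exp (x / 2)) hy hq hs' (exp_pos (2 * x))
    (by rwa [hq2]) (by rwa [hq2])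
  rw [hq2, hs2] at key
  have h3 := norm_add_le_of_le h2 h1
  rw [sub_add_sub_cancel] at h3
  calc _ ≤ _ := h3
    _ ≤ y * (0.69 * (x ^ 2 * exp (x / 2))) / π + y * exp (2 * x) / (4 * π) *
        (15 / 32 * √π * (1 / (0.908 * q) ^ 7) + 120 * kap y) := by gcongr
    _ ≤ _ := key
    _ ≤ _ := by gcongr

end Pool.Agent.P.MP_ee6314_co
end

-- part Pool.Agent.P.MP_ee6314_co.Near
section

/-! Location of the approximate zeros for small values of the parameter. -/

namespace Pool.Agent.P.MP_ee6314_co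

open Real

/-- The parameter for which the leading term equals one at `ξ`. -/
noncomputable def yA (ξ : ℝ) : ℝ := 8 * √π * ((ξ - 7 / 8) * √(ξ - 7 / 8)) * exp (-(2 * ξ))

variable {ξ : ℝ}

theorem yA_pos (h : 12 ≤ ξ) : 0 < yA ξ := by
  have : 0 < ξ - 7 / 8 := by linarith
  unfold yA; positivity

theorem kap_yA (h : 12 ≤ ξ) {x : ℝ} (h0 : 0 ≤ x) (hx : x ≤ 2 * ξ) :
    kap (yA ξ) * x ^ 4 ≤ 1 / 10 ^ 5 := by
  have hy := yA_pos h
  have hs : √π ≤ 2 := by rw [sqrt_le_left (by norm_num)]; linarith [pi_lt_d2]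
  have h1 : √(ξ - 7 / 8) ≤ ξ / 3 := by rw [sqrt_le_left (by linarith)]; nlinarith
  have h2 : yA ξ ≤ 8 * 2 * (ξ * (ξ / 3)) * exp (-(2 * ξ)) := by
    unfold yA
    have : 0 ≤ ξ - 7 / 8 := by linarith
    gcongr; linarith
  have h3 := pow_six_le (x := ξ) (by linarith)
  have h4 := quadratic_le_exp_of_nonneg (x := ξ / 2) (by linarith)
  have h5 : 144 ≤ ξ ^ 2 := by nlinarith
  have h6 : ξ ^ 4 * (144 * 25) ≤ ξ ^ 4 * (ξ ^ 2 * exp (ξ / 2)) := by gcongr; linarith
  have h7 : ξ ^ 4 * exp (-(2 * ξ)) ≤ 1 / 40000 := by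
    rw [exp_neg, ← div_eq_mul_inv, div_le_iff₀ (exp_pos _)]
    have : ξ ^ 4 * (ξ ^ 2 * exp (ξ / 2)) = ξ ^ 6 * exp (ξ / 2) := by ring
    linarith [exp_pos (2 * ξ)]
  have h8 : yA ξ * x ^ 2 ≤ 1 / 1000 := by
    calc _ ≤ 8 * 2 * (ξ * (ξ / 3)) * exp (-(2 * ξ)) * (2 * ξ) ^ 2 := by gcongr
      _ = 64 / 3 * (ξ ^ 4 * exp (-(2 * ξ))) := by ring
      _ ≤ _ := by linarith
  calc _ ≤ yA ξ ^ 2 * x ^ 4 := by
        gcongr
        exact div_le_self (sq_nonneg _) (by linarith)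
    _ = (yA ξ * x ^ 2) ^ 2 := by ring
    _ ≤ (1 / 1000) ^ 2 := by gcongr
    _ ≤ _ := by norm_num

theorem yA_mul_aa (h : 12 ≤ ξ) (v : ℂ) : yA ξ * aa v = Complex.exp (2 * (v - ξ) -
    3 / 2 * (Complex.log (v - 7 / 8) - (log (ξ - 7 / 8) : ℝ))) := by
  have h0 : 0 < ξ - 7 / 8 := by linarith
  have e : yA ξ = 8 * √π * exp (3 / 2 * log (ξ - 7 / 8) - 2 * ξ) := by
    rw [yA, sub_eq_add_neg _ (2 * ξ), exp_add, show 3 / 2 * log (ξ - 7 / 8) =
      log (ξ - 7 / 8) + log (ξ - 7 / 8) * (1 / 2) by ring, exp_add, exp_log h0,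
      ← rpow_def_of_pos h0, ← sqrt_eq_rpow]
    ring
  have h1 : ((8 * √π : ℝ) : ℂ) ≠ 0 := by exact_mod_cast (by positivity)
  rw [e, aa, Complex.ofReal_mul, mul_assoc, mul_div_assoc', mul_div_assoc',
    mul_div_cancel_left₀ _ h1, Complex.ofReal_exp, ← Complex.exp_add]
  congr 1
  push_cast
  ring

theorem PsiR_le (h : 12 ≤ ξ) {x : ℝ} (h1 : 11.4 ≤ x) (h2 : x ≤ 2 * ξ) : PsiR (yA ξ) x - 1 ≤
    1.019 * exp (2 * (x - ξ) - 3 / 2 * (log (x - 7 / 8) - log (ξ - 7 / 8))) := by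
  have hy := yA_pos h
  have a := asym hy (v := x) (by simpa using h1)
    (by rw [Complex.norm_real, Complex.ofReal_re, norm_of_nonneg (by linarith)]; linarith)
    (kap_yA h (by simp; linarith) (by simpa using h2))
  have e : yA ξ * ‖aa x‖ = ‖yA ξ * aa x‖ := by
    rw [norm_mul, Complex.norm_real, norm_of_nonneg hy.le]
  have e2 : yA ξ * aa x =
      (exp (2 * (x - ξ) - 3 / 2 * (log (x - 7 / 8) - log (ξ - 7 / 8))) : ℝ) := by
    rw [yA_mul_aa h, Complex.ofReal_exp, show (x : ℂ) - 7 / 8 = ((x - 7 / 8 : ℝ) : ℂ) by simp,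
      ← Complex.ofReal_log (by linarith)]
    push_cast
    rfl
  rw [e, e2, Psi_ofReal, ← Complex.ofReal_one, ← Complex.ofReal_sub, ← Complex.ofReal_sub,
    Complex.norm_real, Complex.norm_real, Complex.ofReal_re, norm_of_nonneg (exp_pos _).le] at a
  have b : 2.42 / x ^ 2 ≤ 0.019 := by rw [div_le_iff₀ (by positivity)]; nlinarith
  have c := mul_le_mul_of_nonneg_right b
    (exp_pos (2 * (x - ξ) - 3 / 2 * (log (x - 7 / 8) - log (ξ - 7 / 8)))).le
  linarith [le_abs_self (PsiR (yA ξ) x - 1 -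
    exp (2 * (x - ξ) - 3 / 2 * (log (x - 7 / 8) - log (ξ - 7 / 8)))), norm_eq_abs (PsiR (yA ξ) x - 1 -
    exp (2 * (x - ξ) - 3 / 2 * (log (x - 7 / 8) - log (ξ - 7 / 8))))]

theorem log_sub_le {a b : ℝ} (ha : 0 < a) (hb : 0 < b) : log a - log b ≤ (a - b) / b := by
  rw [← log_div ha.ne' hb.ne', sub_div, div_self hb.ne']
  exact log_le_sub_one_of_pos (by positivity)

theorem PsiR_far (h : 12 ≤ ξ) : PsiR (yA ξ) (1.65 * ξ) ≤ exp (1.3 * ξ + 0.03) := by
  have h1 := PsiR_le h (x := 1.65 * ξ) (by linarith) (by linarith)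
  have h2 : log (ξ - 7 / 8) ≤ log (1.65 * ξ - 7 / 8) := log_le_log (by linarith) (by linarith)
  have h3 : exp (2 * (1.65 * ξ - ξ) - 3 / 2 * (log (1.65 * ξ - 7 / 8) - log (ξ - 7 / 8))) ≤
      exp (1.3 * ξ) := exp_le_exp.2 (by linarith)
  have h4 := quadratic_le_exp_of_nonneg (x := 1.3 * ξ) (by linarith)
  have h5 : 100 ≤ exp (1.3 * ξ) := by nlinarith
  have h6 := add_one_le_exp (0.03 : ℝ)
  rw [exp_add]
  nlinarith

theorem re_gt (h : 12 ≤ ξ) {v : ℂ} (h0 : 0 ≤ v.re) (hv : ‖v‖ ≤ 1.1 * ξ)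
    (hz : ‖Psi (yA ξ) v‖ ≤ 0.1) : ξ - 0.6 < v.re := by
  by_contra hc
  have h1 := norm_Psi_sub_one (yA_pos h) (v := v) (a := ξ - 0.6) (by linarith)
    (by rw [abs_of_nonneg h0]; exact not_lt.1 hc)
  have h2 := PsiR_le h (x := ξ - 0.6) (by linarith) (by linarith)
  have h3 := log_sub_le (a := ξ - 7 / 8) (b := ξ - 0.6 - 7 / 8) (by linarith) (by linarith)
  have h4 : (ξ - 7 / 8 - (ξ - 0.6 - 7 / 8)) / (ξ - 0.6 - 7 / 8) ≤ 0.06 := by
    rw [div_le_iff₀ (by linarith)]; linarith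
  have h5 : exp (2 * (ξ - 0.6 - ξ) - 3 / 2 * (log (ξ - 0.6 - 7 / 8) - log (ξ - 7 / 8))) ≤ 0.37 := by
    refine (exp_le_exp.2 (show _ ≤ -1 by linarith)).trans ?_
    linarith [exp_neg_one_lt_d9]
  have h6 : v.im ^ 2 / (ξ - 0.6) ^ 2 ≤ 1.35 := by
    rw [div_le_iff₀ (by apply pow_pos; linarith)]
    have := (Complex.abs_im_le_norm v).trans hv
    have h7 : v.im ^ 2 ≤ (1.1 * ξ) ^ 2 := by rw [← sq_abs]; gcongr
    nlinarith
  have h7 := norm_sub_norm_le (1 : ℂ) (Psi (yA ξ) v)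
  rw [norm_sub_rev, norm_one] at h7
  have h8 : (1 + v.im ^ 2 / (ξ - 0.6) ^ 2) * (PsiR (yA ξ) (ξ - 0.6) - 1) ≤ 2.35 * (1.019 * 0.37) := by
    rcases le_total 0 (PsiR (yA ξ) (ξ - 0.6) - 1) with h | h
    · gcongr <;> linarith
    · exact (mul_nonpos_of_nonneg_of_nonpos (by positivity) h).trans (by norm_num)
  linarith

theorem arctan_le_self {u : ℝ} (h : 0 ≤ u) : arctan u ≤ u := by
  conv_rhs => rw [← tan_arctan u]
  exact le_tan (arctan_nonneg.2 h) (arctan_lt_pi_div_two u)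

theorem sub_arctan_le {u : ℝ} (h : 0 ≤ u) : u - arctan u ≤ u ^ 3 / 3 := by
  have hd : ∀ x, HasDerivAt (fun x => x ^ 3 / 3 - x + arctan x)
      (x ^ 2 - 1 + 1 / (1 + x ^ 2)) x := fun x =>
    HasDerivAt.congr_deriv ((((hasDerivAt_pow 3 x).div_const 3).sub (hasDerivAt_id x)).add
      (hasDerivAt_arctan x)) (by push_cast; ring)
  have hm : Monotone fun x => x ^ 3 / 3 - x + arctan x :=
    monotone_of_deriv_nonneg (fun x => (hd x).differentiableAt) fun x => by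
      rw [(hd x).deriv, show x ^ 2 - 1 + 1 / (1 + x ^ 2) = x ^ 4 / (1 + x ^ 2) by
        field_simp; ring]
      positivity
  have := hm h
  simp only [arctan_zero] at this
  linarith

theorem arg_eq_arctan {v : ℂ} (h : 0 < v.re) : v.arg = arctan (v.im / v.re) := by
  have := abs_lt.1 (Complex.abs_arg_lt_pi_div_two_iff.2 (Or.inl h))
  rw [← Complex.tan_arg, arctan_tan this.1 this.2]

theorem near_eq (h : 12 ≤ ξ) {v : ℂ} (h0 : 0 ≤ v.re) (hv : ‖v‖ ≤ 1.1 * ξ)
    (hz : ‖Psi (yA ξ) v‖ ≤ 0.008 / ξ ^ 2) : ξ - 0.6 < v.re ∧ ∃ (n : ℤ) (e₁ e₂ : ℝ),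
      |e₁| ≤ 2.8 / ξ ^ 2 ∧ |e₂| ≤ 2.8 / ξ ^ 2 ∧
      2 * (v.re - ξ) - 3 / 2 * (log ‖v - 7 / 8‖ - log (ξ - 7 / 8)) = e₁ ∧
      2 * v.im - 3 / 2 * arctan (v.im / (v.re - 7 / 8)) = π * (2 * n + 1) + e₂ := by
  have hy := yA_pos h
  have hξ : 144 ≤ ξ ^ 2 := by nlinarith
  have hx := re_gt h h0 hv (hz.trans (by rw [div_le_iff₀ (by positivity)]; linarith))
  refine ⟨hx, ?_⟩
  have hx2 := (Complex.re_le_norm v).trans hv
  have a := asym hy (v := v) (by linarith) (by linarith) (kap_yA h h0 (by linarith))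
  rw [show yA ξ * ‖aa v‖ = ‖yA ξ * aa v‖ by
    rw [norm_mul, Complex.norm_real, norm_of_nonneg hy.le]] at a
  set w := yA ξ * aa v with hw
  have b1 : 2.42 / v.re ^ 2 ≤ 2.6815 / ξ ^ 2 := by
    rw [div_le_div_iff₀ (by apply pow_pos; linarith) (by positivity)]
    have : (0.95 * ξ) ^ 2 ≤ v.re ^ 2 := by gcongr; linarith
    linarith
  have b2 : 1 / ξ ^ 2 ≤ 1 / 144 := one_div_le_one_div_of_le (by norm_num) hξ
  have b3 : 0 < 1 / ξ ^ 2 := by positivity
  rw [show 2.6815 / ξ ^ 2 = 2.6815 * (1 / ξ ^ 2) by ring] at b1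
  rw [show 0.008 / ξ ^ 2 = 0.008 * (1 / ξ ^ 2) by ring] at hz
  rw [show 2.8 / ξ ^ 2 = 2.8 * (1 / ξ ^ 2) by ring]
  generalize 1 / ξ ^ 2 = g at *
  have c1 : ‖w‖ ≤ 1 + ‖-1 - w‖ := by
    have := norm_sub_le (-1) (-1 - w)
    rwa [sub_sub_cancel, norm_neg, norm_one] at this
  have c2 : ‖-1 - w‖ ≤ ‖Psi (yA ξ) v - 1 - w‖ + ‖Psi (yA ξ) v‖ := by
    have := norm_sub_le (Psi (yA ξ) v - 1 - w) (Psi (yA ξ) v)
    rwa [show Psi (yA ξ) v - 1 - w - Psi (yA ξ) v = -1 - w by ring] at this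
  have c3 := mul_le_mul b1 c1 (norm_nonneg _) (by positivity)
  have c4 : ‖-1 - w‖ ≤ 2.742 * g := by nlinarith [norm_nonneg (-1 - w)]
  have c5 : ‖-1 - w‖ ≤ 0.02 := by linarith
  have c6 := Complex.norm_log_one_add_le (z := -1 - w) (by linarith)
  have c7 : (1 - ‖-1 - w‖)⁻¹ ≤ 1.03 := by
    rw [inv_le_comm₀ (by linarith) (by norm_num)]; norm_num; linarith
  have c8 : ‖Complex.log (1 + (-1 - w))‖ ≤ 2.8 * g := by
    have := mul_le_mul_of_nonneg_left c7 (sq_nonneg ‖-1 - w‖)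
    nlinarith [norm_nonneg (-1 - w)]
  set L := Complex.log (1 + (-1 - w)) with hL
  have d1 : Complex.exp (L + π * Complex.I) = w := by
    rw [Complex.exp_add, Complex.exp_pi_mul_I, hL, Complex.exp_log]
    · ring
    · intro h0
      rw [show -1 - w = -1 by linear_combination h0] at c5
      norm_num at c5
  rw [hw, yA_mul_aa h, eq_comm, Complex.exp_eq_exp_iff_exists_int] at d1
  obtain ⟨n, hn⟩ := d1
  refine ⟨n, L.re, L.im, (Complex.abs_re_le_norm L).trans c8, (Complex.abs_im_le_norm L).trans c8,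
    ?_, ?_⟩
  · have := congrArg Complex.re hn
    simpa [Complex.log_re] using this
  · have := congrArg Complex.im hn
    simp [Complex.log_im] at this
    rw [arg_eq_arctan (by simp; linarith)] at this
    simp at this
    linarith

/-- Location data of an approximate zero `x + t i` on the `J`-th branch. -/
structure Loc (ξ x t : ℝ) (J : ℕ) : Prop where
  odd : Odd J
  lo : ξ - 1.514 / ξ ^ 2 ≤ x
  hi : x ≤ ξ + 1.37 * (J / ξ) ^ 2 + 1.514 / ξ ^ 2
  t0 : 0 ≤ t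
  t1 : t ≤ 1.7 * J
  t2 : π * J - 2.8 / ξ ^ 2 ≤ 2 * t
  ph : ∃ φ e : ℝ, 0 ≤ φ ∧ φ ≤ 2.07 * (J / ξ) ^ 3 ∧ |e| ≤ 2.8 / ξ ^ 2 ∧
    t * (2 - 1.5 / (x - 7 / 8)) = π * J + e - 1.5 * φ

theorem loc_real (h : 12 ≤ ξ) {x t u e₁ e₂ : ℝ} {n : ℤ} (hx : ξ - 0.6 < x) (ht : 0 ≤ t)
    (hu : u = t / (x - 7 / 8)) (h1 : |e₁| ≤ 2.8 / ξ ^ 2) (h2 : |e₂| ≤ 2.8 / ξ ^ 2)
    (h3 : 2 * (x - ξ) - 3 / 2 * (log (x - 7 / 8) + log (1 + u ^ 2) / 2 - log (ξ - 7 / 8)) = e₁)
    (h4 : 2 * t - 3 / 2 * arctan u = π * (2 * n + 1) + e₂) : ∃ J, Loc ξ x t J := by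
  have hb : 0 < x - 7 / 8 := by linarith
  have hξ : 144 ≤ ξ ^ 2 := by nlinarith
  have hξ0 : 0 < ξ := by linarith
  have g1 : 2.8 / ξ ^ 2 ≤ 0.0195 := by rw [div_le_iff₀ (by positivity)]; linarith
  have g2 : 1.514 / ξ ^ 2 = 1.514 / 2.8 * (2.8 / ξ ^ 2) := by ring
  have g0 : 0 < 2.8 / ξ ^ 2 := by positivity
  have u0 : 0 ≤ u := by rw [hu]; positivity
  have l0 : 0 ≤ log (1 + u ^ 2) := log_nonneg (by linarith [sq_nonneg u])
  have l1 : log (1 + u ^ 2) ≤ u ^ 2 := by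
    linarith [log_le_sub_one_of_pos (show 0 < 1 + u ^ 2 by positivity)]
  have a1 := arctan_le_self u0
  have a2 := sub_arctan_le u0
  have a0 := arctan_nonneg.2 u0
  rw [abs_le] at h1
  have lo : ξ - 1.514 / ξ ^ 2 ≤ x := by
    rcases le_total ξ x with c | c
    · linarith
    · have b1 := log_sub_le (a := ξ - 7 / 8) (b := x - 7 / 8) (by linarith) hb
      have b2 : (ξ - 7 / 8 - (x - 7 / 8)) / (x - 7 / 8) ≤ (ξ - x) / 10 := by
        rw [show ξ - 7 / 8 - (x - 7 / 8) = ξ - x by ring]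
        exact div_le_div_of_nonneg_left (by linarith) (by norm_num) (by linarith)
      linarith
  have hx1 : 0.9262 * ξ ≤ x - 7 / 8 := by linarith
  have ut : u ≤ 0.09 * t := by
    rw [hu, div_le_iff₀ hb]
    have : t * 11.112 ≤ t * (x - 7 / 8) := mul_le_mul_of_nonneg_left (by linarith) ht
    linarith
  have h2' := abs_le.1 h2
  have hn : 0 ≤ n := by
    by_contra c
    have c1 : (n : ℝ) ≤ -1 := by exact_mod_cast (by omega : n ≤ -1)
    have c2 : π * (2 * n + 1) ≤ π * (-1) := mul_le_mul_of_nonneg_left (by linarith) pi_pos.le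
    linarith [pi_gt_three]
  obtain ⟨m, rfl⟩ := Int.eq_ofNat_of_zero_le hn
  have hJ : ((2 * m + 1 : ℕ) : ℝ) = 2 * ((m : ℤ) : ℝ) + 1 := by push_cast; ring
  rw [← hJ] at h4
  have J1 : (1 : ℝ) ≤ (2 * m + 1 : ℕ) := by exact_mod_cast (by omega)
  refine ⟨2 * m + 1, ?_⟩
  have ho : Odd (2 * m + 1) := odd_two_mul_add_one m
  generalize 2 * m + 1 = J at *
  have t1 : t ≤ 1.7 * J := by
    have : π * J ≤ 3.1416 * J := mul_le_mul_of_nonneg_right pi_lt_d4.le (by linarith)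
    linarith
  have τ0 : 0 ≤ J / ξ := by positivity
  have u1 : u ≤ 1.838 * (J / ξ) := by
    rw [hu, div_le_iff₀ hb]
    have : 1.838 * (J / ξ) * (0.9262 * ξ) ≤ 1.838 * (J / ξ) * (x - 7 / 8) := by gcongr
    rw [show 1.838 * (J / ξ) * (0.9262 * ξ) = 1.838 * 0.9262 * J by field_simp] at this
    linarith
  refine ⟨ho, lo, ?_, ht, t1, by linarith, u - arctan u, e₂, by linarith, ?_, h2, ?_⟩
  · have u2 : u ^ 2 ≤ (1.838 * (J / ξ)) ^ 2 := by gcongr
    have u3 : 0 ≤ (J / ξ) ^ 2 := by positivity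
    rw [mul_pow] at u2
    rcases le_total x ξ with c | c
    · linarith
    · have b1 := log_sub_le (a := x - 7 / 8) (b := ξ - 7 / 8) hb (by linarith)
      have b2 : (x - 7 / 8 - (ξ - 7 / 8)) / (ξ - 7 / 8) ≤ (x - ξ) / 10 := by
        rw [show x - 7 / 8 - (ξ - 7 / 8) = x - ξ by ring]
        exact div_le_div_of_nonneg_left (by linarith) (by norm_num) (by linarith)
      linarith
  · have u3 : u ^ 3 ≤ (1.838 * (J / ξ)) ^ 3 := by gcongr
    have : 0 ≤ (J / ξ) ^ 3 := by positivity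
    rw [mul_pow] at u3
    linarith
  · rw [mul_sub, show t * (1.5 / (x - 7 / 8)) = 1.5 * u by rw [hu]; ring]
    linarith

theorem loc (h : 12 ≤ ξ) {v : ℂ} (h0 : 0 ≤ v.re) (ht : 0 ≤ v.im) (hv : ‖v‖ ≤ 1.1 * ξ)
    (hz : ‖Psi (yA ξ) v‖ ≤ 0.008 / ξ ^ 2) : ∃ J, Loc ξ v.re v.im J := by
  obtain ⟨hx, n, e₁, e₂, h1, h2, h3, h4⟩ := near_eq h h0 hv hz
  have hb : 0 < v.re - 7 / 8 := by linarith
  have e : log ‖v - 7 / 8‖ = log (v.re - 7 / 8) + log (1 + (v.im / (v.re - 7 / 8)) ^ 2) / 2 := by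
    have : ‖v - 7 / 8‖ ^ 2 = (v.re - 7 / 8) ^ 2 * (1 + (v.im / (v.re - 7 / 8)) ^ 2) := by
      rw [Complex.sq_norm, Complex.normSq_apply, mul_add, ← mul_pow, mul_div_cancel₀ _ hb.ne']
      simp
      ring
    have h5 := congrArg log this
    rw [log_mul (by positivity) (by positivity), log_pow, log_pow] at h5
    push_cast at h5
    linarith
  rw [e] at h3
  exact loc_real h hx ht rfl h1 h2 h3 h4

theorem slope_eq {x : ℝ} (hb : 0 < x - 7 / 8) :
    x * (2 - 1.5 / (x - 7 / 8)) = 2 * x - 1.5 - 1.3125 / (x - 7 / 8) := by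
  obtain ⟨b, rfl⟩ : ∃ b, x = b + 7 / 8 := ⟨x - 7 / 8, by ring⟩
  rw [add_sub_cancel_right] at *
  field_simp
  ring

theorem Loc.norm_one (h : 12 ≤ ξ) {x t : ℝ} (L : Loc ξ x t 1) : x ^ 2 + t ^ 2 ≤ ξ ^ 2 + 3.39 := by
  have hξ0 : 0 < ξ := by linarith
  have h1 := L.hi
  have h2 := L.t1
  have h3 := L.lo
  rw [show ξ + 1.37 * (((1 : ℕ) : ℝ) / ξ) ^ 2 + 1.514 / ξ ^ 2 = ξ + 2.884 / ξ / ξ by
    push_cast; field_simp; ring] at h1
  have g1 : 2.884 / ξ ≤ 0.2404 := by rw [div_le_iff₀ hξ0]; linarith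
  have g2 : 2.884 / ξ / ξ ≤ 0.021 := by rw [div_le_iff₀ hξ0]; linarith
  have g3 : 1.514 / ξ ^ 2 ≤ 1 := by rw [div_le_iff₀ (by positivity)]; nlinarith
  have g4 : x ^ 2 ≤ (ξ + 2.884 / ξ / ξ) ^ 2 := by gcongr; linarith
  have g5 : ξ * (2.884 / ξ / ξ) = 2.884 / ξ := by field_simp
  have g6 : 0 ≤ 2.884 / ξ / ξ := by positivity
  have g7 : t ^ 2 ≤ 1.7 ^ 2 := by
    have := L.t0
    gcongr
    simpa using h2
  nlinarith

theorem Loc.norm_three (h : 12 ≤ ξ) {x t : ℝ} {J : ℕ} (L : Loc ξ x t J) (hJ : J ≠ 1) :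
    3 ≤ J ∧ (ξ ^ 2 + 3.39) * (1 + 2 * (J / ξ) ^ 2) ≤ x ^ 2 + t ^ 2 := by
  have hξ0 : 0 < ξ := by linarith
  have hξ : 144 ≤ ξ ^ 2 := by nlinarith
  have h3 : 3 ≤ J := by obtain ⟨m, hm⟩ := L.odd; omega
  refine ⟨h3, ?_⟩
  have h3' : (3 : ℝ) ≤ J := by exact_mod_cast h3
  have g1 : 2.8 / ξ ^ 2 ≤ 0.0195 := by rw [div_le_iff₀ (by positivity)]; linarith
  have g2 : 1.5675 * J ≤ t := by nlinarith [L.t2, pi_gt_d6]
  have g3 : (1.5675 * J) ^ 2 ≤ t ^ 2 := by gcongr
  have g4 : 1.514 / ξ ≤ 0.1262 := by rw [div_le_iff₀ hξ0]; linarith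
  have g5 : ξ * (1.514 / ξ ^ 2) = 1.514 / ξ := by field_simp
  have g6 : (ξ - 1.514 / ξ ^ 2) ^ 2 ≤ x ^ 2 := by
    have : 1.514 / ξ ^ 2 ≤ 1 := by rw [div_le_iff₀ (by positivity)]; nlinarith
    have := L.lo
    gcongr; linarith
  have g7 : ((J : ℝ) / ξ) ^ 2 ≤ J ^ 2 / 144 := by rw [div_pow]; gcongr
  have g8 : ξ ^ 2 * ((J : ℝ) / ξ) ^ 2 = J ^ 2 := by field_simp
  have g9 : (9 : ℝ) ≤ J ^ 2 := by nlinarith
  nlinarith [sq_nonneg (1.514 / ξ ^ 2)]

theorem Loc.ratio (h : 12 ≤ ξ) {x t : ℝ} {J : ℕ} (L : Loc ξ x t J) :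
    11.98 ≤ x ∧ t / x ≤ 1.704 * (J / ξ) ∧ 1.8625 * ξ ≤ x * (2 - 1.5 / (x - 7 / 8)) := by
  have hξ0 : 0 < ξ := by linarith
  have g1 : 1.514 / ξ ^ 2 ≤ 0.0106 := by rw [div_le_iff₀ (by positivity)]; nlinarith
  have h1 := L.lo
  refine ⟨by linarith, ?_, ?_⟩
  · rw [div_le_iff₀ (by linarith)]
    have : 1.704 * (J / ξ) * (0.999 * ξ) ≤ 1.704 * (J / ξ) * x := by gcongr; linarith
    rw [show 1.704 * (J / ξ) * (0.999 * ξ) = 1.704 * 0.999 * J by field_simp] at this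
    linarith [L.t1, (Nat.cast_nonneg J : (0 : ℝ) ≤ J)]
  · have hb : 0 < x - 7 / 8 := by linarith
    rw [slope_eq hb]
    have : 1.3125 / (x - 7 / 8) ≤ 0.1182 := by rw [div_le_iff₀ hb]; linarith
    linarith

theorem phase_real {g τ J u u₁ A A₁ e e₁ φ φ₁ : ℝ} (h : 12 ≤ ξ) (hg : ξ * g = 1) (h3 : 3 ≤ J)
    (hτ : τ = J * g) (u0 : 0 ≤ u) (v0 : 0 ≤ u₁) (a2 : u ≤ 1.704 * τ) (b2 : u₁ ≤ 1.704 * g)
    (a3 : 1.8625 * ξ ≤ A) (r3 : |A₁ - A| ≤ 3.44 * τ ^ 2) (p0 : 0 ≤ φ) (p1 : φ ≤ 2.07 * τ ^ 3)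
    (p2 : |e| ≤ 2.8 * g ^ 2) (q0 : 0 ≤ φ₁) (q1 : φ₁ ≤ 2.07 * g ^ 3) (q2 : |e₁| ≤ 2.8 * g ^ 2)
    (r1 : u * A = π * J + e - 1.5 * φ) (r2 : u₁ * A₁ = π + e₁ - 1.5 * φ₁) :
    |arctan u - J * arctan u₁| ≤ 2.3 * τ ^ 3 := by
  have g0 : 0 < g := by nlinarith
  have J0 : 0 ≤ J := by linarith
  have τ1 : 3 * g ≤ τ := by rw [hτ]; gcongr
  have τ0 : 0 < τ := by linarith
  have τ2 : (3 * g) ^ 2 ≤ τ ^ 2 := by gcongr
  have τ3 : J * g ^ 3 ≤ τ ^ 3 / 9 := by
    have := mul_le_mul_of_nonneg_left τ2 τ0.le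
    rw [show J * g ^ 3 = τ * g ^ 2 by rw [hτ]; ring]
    linarith
  have τ4 : 0 < τ ^ 3 := by positivity
  have s1 : J * u₁ ≤ 1.704 * τ := by
    have := mul_le_mul_of_nonneg_left b2 J0
    rw [hτ]; linarith
  have s2 : |J * u₁ * (A₁ - A)| ≤ 5.862 * τ ^ 3 := by
    rw [abs_mul, abs_of_nonneg (by positivity)]
    calc _ ≤ 1.704 * τ * (3.44 * τ ^ 2) := by gcongr
      _ ≤ _ := by linarith
  have s3 : |e - J * e₁| ≤ 0.4149 * (ξ * τ ^ 3) := by
    refine (abs_sub _ _).trans ?_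
    rw [abs_mul, abs_of_nonneg J0]
    have k1 : J * |e₁| ≤ J * (2.8 * g ^ 2) := by gcongr
    have k2 : J * g ^ 2 = ξ * (J * g ^ 3) := by linear_combination (-J * g ^ 2) * hg
    have k3 : ξ * (J * g ^ 3) ≤ ξ * (τ ^ 3 / 9) := by gcongr
    have k4 : 3 * g ^ 2 ≤ J * g ^ 2 := by gcongr
    have k5 : 0 ≤ ξ * τ ^ 3 := by positivity
    linarith
  have s4 : |J * φ₁ - φ| ≤ 2.07 * τ ^ 3 := by
    have k1 : J * φ₁ ≤ J * (2.07 * g ^ 3) := by gcongr
    have k2 : 0 ≤ J * φ₁ := by positivity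
    rw [abs_le]; constructor <;> linarith
  have s5 : (u - J * u₁) * A = J * u₁ * (A₁ - A) + (e - J * e₁) + 1.5 * (J * φ₁ - φ) := by
    linear_combination r1 - J * r2
  have s6 : |u - J * u₁| ≤ 0.63 * τ ^ 3 := by
    have hA0 : 0 < A := by linarith
    refine le_of_mul_le_mul_right ?_ hA0
    rw [← abs_of_pos hA0, ← abs_mul, s5, abs_of_pos hA0]
    have k1 := abs_add_three (J * u₁ * (A₁ - A)) (e - J * e₁) (1.5 * (J * φ₁ - φ))
    rw [abs_mul (1.5 : ℝ), abs_of_pos (by norm_num : (0 : ℝ) < 1.5)] at k1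
    have k2 : 0.63 * τ ^ 3 * (1.8625 * ξ) ≤ 0.63 * τ ^ 3 * A := by gcongr
    have k3 : 12 * τ ^ 3 ≤ ξ * τ ^ 3 := by gcongr
    linarith
  have s7 : u ^ 3 ≤ (1.704 * τ) ^ 3 := by gcongr
  have s8 : u₁ ^ 3 ≤ (1.704 * g) ^ 3 := by gcongr
  have s9 : J * (u₁ - arctan u₁) ≤ J * ((1.704 * g) ^ 3 / 3) := by
    gcongr; linarith [sub_arctan_le v0]
  have s10 : 0 ≤ J * (u₁ - arctan u₁) := mul_nonneg J0 (by linarith [arctan_le_self v0])
  have s11 := sub_arctan_le u0
  have s12 := arctan_le_self u0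
  rw [abs_le] at s6 ⊢
  constructor <;> linarith

theorem Loc.phase (h : 12 ≤ ξ) {x t x₁ t₁ : ℝ} {J : ℕ} (L : Loc ξ x t J) (L₁ : Loc ξ x₁ t₁ 1)
    (hJ : 3 ≤ J) : |arctan (t / x) - J * arctan (t₁ / x₁)| ≤ 2.3 * (J / ξ) ^ 3 := by
  have hξ0 : 0 < ξ := by linarith
  have h3 : (3 : ℝ) ≤ J := by exact_mod_cast hJ
  obtain ⟨a1, a2, a3⟩ := L.ratio h
  obtain ⟨b1, b2, -⟩ := L₁.ratio h
  obtain ⟨φ, e, p0, p1, p2, p3⟩ := L.ph
  obtain ⟨φ₁, e₁, q0, q1, q2, q3⟩ := L₁.ph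
  have c1 := L.lo
  have c2 := L.hi
  have d1 := L₁.lo
  have d2 := L₁.hi
  simp only [Nat.cast_one, mul_one] at b2 q1 q3 d2
  have e2 : ∀ c : ℝ, c / ξ ^ 2 = c * (1 / ξ) ^ 2 := fun c => by ring
  rw [e2] at p2 q2 c1 c2 d1 d2
  refine phase_real (g := 1 / ξ) (A₁ := x₁ * (2 - 1.5 / (x₁ - 7 / 8))) h (by field_simp) h3
    (by ring) (div_nonneg L.t0 (by linarith)) (div_nonneg L₁.t0 (by linarith)) a2 b2 a3 ?_ p0 p1 p2
    q0 q1 q2 ?_ ?_
  · have hb : 11 ≤ x - 7 / 8 := by linarith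
    have hb₁ : 11 ≤ x₁ - 7 / 8 := by linarith
    have τ2 : (3 * (1 / ξ)) ^ 2 ≤ (J / ξ) ^ 2 := by
      rw [mul_one_div]; gcongr
    have : x₁ * (2 - 1.5 / (x₁ - 7 / 8)) - x * (2 - 1.5 / (x - 7 / 8)) =
        (x₁ - x) * (2 + 1.3125 / ((x₁ - 7 / 8) * (x - 7 / 8))) := by
      rw [slope_eq (by linarith), slope_eq (by linarith), show x₁ - x = (x₁ - 7 / 8) - (x - 7 / 8)
        by ring, show 2 * x₁ = 2 * (x₁ - 7 / 8) + 7 / 4 by ring,
        show 2 * x = 2 * (x - 7 / 8) + 7 / 4 by ring]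
      generalize x - 7 / 8 = b at *
      generalize x₁ - 7 / 8 = b₁ at *
      have : b ≠ 0 := by linarith
      have : b₁ ≠ 0 := by linarith
      field_simp
      ring
    have s1 : 1.3125 / ((x₁ - 7 / 8) * (x - 7 / 8)) ≤ 0.011 := by
      have : 11 * 11 ≤ (x₁ - 7 / 8) * (x - 7 / 8) := by gcongr
      rw [div_le_iff₀ (by positivity)]; linarith
    have s2 : |x₁ - x| ≤ 1.7065 * (J / ξ) ^ 2 := by
      have := sq_nonneg (1 / ξ)
      rw [abs_le]; constructor <;> linarith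
    rw [this, abs_mul, abs_of_nonneg (a := 2 + _) (by positivity)]
    calc _ ≤ 1.7065 * (J / ξ) ^ 2 * (2 + 0.011) := by gcongr
      _ ≤ _ := by linarith [sq_nonneg (J / ξ)]
  · rw [← p3, ← mul_assoc, div_mul_cancel₀ _ (by linarith)]
  · rw [← q3, ← mul_assoc, div_mul_cancel₀ _ (by linarith)]

end Pool.Agent.P.MP_ee6314_co
end

-- part Pool.Agent.P.MP_ee6314_co.Roots
section

/-! Roots of complex polynomials inside a circle: continuity, counting and power sums. -/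

namespace Pool.Agent.P.MP_ee6314_co

open Polynomial Complex Metric Set

/-- The roots inside the circle of radius `R`. -/
noncomputable def ins (p : ℂ[X]) (R : ℝ) : Multiset ℂ := p.roots.filter fun z => ‖z‖ < R

/-- Power sums of the roots inside the circle. -/
noncomputable def psum (p : ℂ[X]) (R : ℝ) (j : ℕ) : ℂ := ((ins p R).map (· ^ j)).sum

theorem circ_multiset {R : ℝ} (hR : 0 < R) (j : ℕ) (s : Multiset ℂ) (hs : ∀ w ∈ s, ‖w‖ ≠ R) :
    ContinuousOn (fun z => z ^ j * (s.map fun w => 1 / (z - w)).sum) (sphere 0 R) ∧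
    (∮ z in C(0, R), z ^ j * (s.map fun w => 1 / (z - w)).sum) =
      2 * Real.pi * I * ((s.filter fun z => ‖z‖ < R).map (· ^ j)).sum := by
  induction s using Multiset.induction_on with
  | empty => simp [continuousOn_const, circleIntegral]
  | cons w s ih =>
    obtain ⟨h1, h2⟩ := ih fun u hu => hs u (Multiset.mem_cons_of_mem hu)
    have hw := hs w (Multiset.mem_cons_self _ _)
    have h3 : ContinuousOn (fun z : ℂ => (z - w)⁻¹ • z ^ j) (sphere 0 R) := by
      refine ContinuousOn.smul (f := fun z : ℂ => (z - w)⁻¹) (g := fun z : ℂ => z ^ j)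
        (ContinuousOn.inv₀ (f := fun z : ℂ => z - w) (by fun_prop) fun z hz h => hw ?_)
        (by fun_prop)
      rw [← sub_eq_zero.1 h]
      simpa using hz
    have e : (fun z : ℂ => z ^ j * ((w ::ₘ s).map fun w => 1 / (z - w)).sum) =
        fun z => (z - w)⁻¹ • z ^ j + z ^ j * (s.map fun w => 1 / (z - w)).sum := by
      ext z
      simp only [Multiset.map_cons, Multiset.sum_cons, smul_eq_mul]
      ring
    rw [e]
    refine ⟨h3.add h1, ?_⟩
    rw [circleIntegral.integral_add (h3.circleIntegrable hR.le) (h1.circleIntegrable hR.le), h2]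
    rcases hw.lt_or_gt with h | h
    · rw [DifferentiableOn.circleIntegral_sub_inv_smul (f := fun z => z ^ j) (by fun_prop)
        (by simpa using h), Multiset.filter_cons_of_pos (p := fun z : ℂ => ‖z‖ < R) _ h]
      simp only [Multiset.map_cons, Multiset.sum_cons, smul_eq_mul]
      ring
    · rw [Multiset.filter_cons_of_neg (p := fun z : ℂ => ‖z‖ < R) _ (not_lt.2 h.le),
        DiffContOnCl.circleIntegral_eq_zero hR.le, zero_add]
      refine DifferentiableOn.diffContOnCl ?_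
      rw [closure_ball _ hR.ne']
      refine DifferentiableOn.smul (c := fun z : ℂ => (z - w)⁻¹) (f := fun z : ℂ => z ^ j)
        (DifferentiableOn.inv (h := fun z : ℂ => z - w) (by fun_prop) fun z hz h' => ?_)
        (by fun_prop)
      rw [← sub_eq_zero.1 h'] at h
      exact absurd (mem_closedBall_zero_iff.1 hz) (not_le.2 h)

theorem circ_eq {p : ℂ[X]} {R : ℝ} (hR : 0 < R) (h : ∀ z, ‖z‖ = R → p.eval z ≠ 0) (j : ℕ) :
    (∮ z in C(0, R), z ^ j * (p.derivative.eval z / p.eval z)) = 2 * Real.pi * I * psum p R j := by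
  rw [psum, ins, ← (circ_multiset hR j p.roots fun w hw e => h w e (isRoot_of_mem_roots hw)).2]
  refine circleIntegral.integral_congr hR.le fun z hz => ?_
  rw [(IsAlgClosed.splits p).eval_derivative_div_eval_of_ne_zero (h z (by simpa using hz))]

theorem continuousOn_psum {p : ℝ → ℂ[X]} {R : ℝ → ℝ} {S : Set ℝ}
    (h0 : ContinuousOn (fun x : ℝ × ℂ => (p x.1).eval x.2) (S ×ˢ univ))
    (h1 : ContinuousOn (fun x : ℝ × ℂ => (p x.1).derivative.eval x.2) (S ×ˢ univ))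
    (hR : ContinuousOn R S) (hpos : ∀ s ∈ S, 0 < R s)
    (hf : ∀ s ∈ S, ∀ z, ‖z‖ = R s → (p s).eval z ≠ 0) (j : ℕ) :
    ContinuousOn (fun s => psum (p s) (R s) j) S := by
  have hne : (2 * Real.pi * I : ℂ) ≠ 0 := two_pi_I_ne_zero
  refine ContinuousOn.congr (f := fun s => (2 * Real.pi * I)⁻¹ *
    ∮ z in C(0, R s), z ^ j * ((p s).derivative.eval z / (p s).eval z)) ?_ fun s hs => ?_
  · refine continuousOn_const.mul ?_
    rw [continuousOn_iff_continuous_domRestrict]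
    simp only [circleIntegral, deriv_circleMap]
    apply intervalIntegral.continuous_parametric_intervalIntegral_of_continuous'
      (f := fun (s : S) θ => (circleMap 0 (R s) θ * I) • (circleMap 0 (R s) θ ^ j *
        ((p s).derivative.eval (circleMap 0 (R s) θ) / (p s).eval (circleMap 0 (R s) θ))))
    have c0 : Continuous fun s : S => R s := continuousOn_iff_continuous_domRestrict.1 hR
    have c1 : Continuous fun x : S × ℝ => circleMap 0 (R x.1) x.2 := by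
      have := c0.comp (continuous_fst (X := S) (Y := ℝ))
      unfold circleMap
      exact continuous_const.add ((continuous_ofReal.comp this).mul (by fun_prop))
    have c2 : Continuous fun x : S × ℝ => ((x.1 : ℝ), circleMap 0 (R x.1) x.2) := by fun_prop
    have c3 := h0.comp_continuous c2 fun x => ⟨x.1.2, trivial⟩
    have c4 := h1.comp_continuous c2 fun x => ⟨x.1.2, trivial⟩
    refine (c1.mul continuous_const).smul ((c1.pow j).mul (c4.div c3 fun x => hf _ x.1.2 _ ?_))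
    simp [abs_of_pos (hpos _ x.1.2)]
  · simp only
    rw [circ_eq (hpos s hs) (hf s hs), inv_mul_cancel_left₀ hne]

theorem psum_zero (p : ℂ[X]) (R : ℝ) : psum p R 0 = (ins p R).card := by simp [psum]

theorem card_ins_eq {p : ℝ → ℂ[X]} {R : ℝ → ℝ} {S : Set ℝ} (hS : IsPreconnected S)
    (h : ContinuousOn (fun s => psum (p s) (R s) 0) S) {a b : ℝ} (ha : a ∈ S) (hb : b ∈ S) :
    (ins (p a) (R a)).card = (ins (p b) (R b)).card := by
  refine hS.constant (f := fun s => (ins (p s) (R s)).card) ?_ ha hb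
  rw [(isometry_ofReal.isEmbedding.comp
    Nat.isClosedEmbedding_coe_real.isEmbedding).continuousOn_iff]
  simpa [psum_zero, Function.comp_def] using h

theorem rouche {p q : ℂ[X]} {R : ℝ} (hR : 0 < R)
    (h : ∀ z, ‖z‖ = R → ‖p.eval z - q.eval z‖ < ‖q.eval z‖) :
    (ins p R).card = (ins q R).card := by
  have key := card_ins_eq (p := fun s : ℝ => q + C (s : ℂ) * (p - q)) (R := fun _ => R)
    (S := Icc 0 1) isPreconnected_Icc (continuousOn_psum ?_ ?_ continuousOn_const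
      (fun _ _ => hR) ?_ 0) (a := 1) (b := 0) (by simp) (by simp)
  · simpa using key
  · simp only [eval_add, eval_mul, eval_C]
    fun_prop
  · simp only [derivative_add, derivative_C_mul, eval_add, eval_mul, eval_C]
    fun_prop
  · intro s hs z hz h0
    simp only [eval_add, eval_mul, eval_C, eval_sub] at h0
    have h1 := h z hz
    rw [eq_neg_of_add_eq_zero_left h0, norm_neg, norm_mul, norm_real,
      Real.norm_of_nonneg hs.1] at h1
    rw [← eq_neg_of_add_eq_zero_left h0] at h1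
    nlinarith [norm_nonneg (p.eval z - q.eval z), hs.2]

theorem root_ne_zero {p : ℂ[X]} (h : p.eval 0 = 1) {z : ℂ} (hz : z ∈ p.roots) : z ≠ 0 := by
  rintro rfl
  have := isRoot_of_mem_roots hz
  rw [IsRoot, h] at this
  exact one_ne_zero this

theorem eq_prod_one_sub {p : ℂ[X]} (h : p.eval 0 = 1) :
    p = (p.roots.map fun z => 1 - C z⁻¹ * X).prod := by
  have h1 := (IsAlgClosed.splits p).eq_prod_roots
  have h2 := (IsAlgClosed.splits p).eval_eq_prod_roots 0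
  have h3 : (p.roots.map fun z => X - C z) =
      p.roots.map fun z => C (0 - z) * (1 - C z⁻¹ * X) := by
    refine Multiset.map_congr rfl fun z hz => ?_
    rw [mul_sub, ← mul_assoc, ← C_mul, zero_sub, neg_mul, mul_inv_cancel₀ (root_ne_zero h hz)]
    simp only [map_neg, map_one]
    ring
  rw [h3, Multiset.prod_map_mul, ← mul_assoc] at h1
  have h4 : (p.roots.map fun z => (C (0 - z) : ℂ[X])).prod = C (p.roots.map (0 - ·)).prod := by
    rw [map_multiset_prod, Multiset.map_map]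
    rfl
  rw [h4, ← C_mul, ← h2, h, C_1, one_mul] at h1
  exact h1

theorem newton_series (s : Multiset ℂ) :
    PowerSeries.derivative ℂ (s.map fun a => 1 - PowerSeries.C a * PowerSeries.X).prod =
      -((s.map fun a => 1 - PowerSeries.C a * PowerSeries.X).prod *
        PowerSeries.mk fun j => (s.map (· ^ (j + 1))).sum) := by
  induction s using Multiset.induction_on with
  | empty => ext n; simp
  | cons a s ih =>
    have e1 : (PowerSeries.mk fun j => ((a ::ₘ s).map (· ^ (j + 1))).sum) =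
        (PowerSeries.mk fun j => a ^ (j + 1)) + PowerSeries.mk fun j => (s.map (· ^ (j + 1))).sum := by
      ext n; simp
    have e2 : (1 - PowerSeries.C a * PowerSeries.X) * (PowerSeries.mk fun j => a ^ (j + 1)) =
        PowerSeries.C a := by
      ext n
      rw [sub_mul, one_mul, mul_assoc, map_sub, PowerSeries.coeff_C_mul]
      cases n with
      | zero => simp
      | succ n => simp [PowerSeries.coeff_succ_X_mul, pow_succ']
    have e3 : PowerSeries.derivative ℂ (1 - PowerSeries.C a * PowerSeries.X) = -PowerSeries.C a := by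
      simp
    rw [Multiset.map_cons, Multiset.prod_cons, Derivation.leibniz, ih, e1, e3, smul_eq_mul,
      smul_eq_mul]
    linear_combination (s.map fun a => 1 - PowerSeries.C a * PowerSeries.X).prod * e2

theorem newton {p : ℂ[X]} (h : p.eval 0 = 1) (n : ℕ) : p.coeff (n + 1) * (n + 1) =
    -∑ j ∈ Finset.range (n + 1), (p.roots.map fun z => z⁻¹ ^ (j + 1)).sum * p.coeff (n - j) := by
  have h1 := newton_series (p.roots.map (·⁻¹))
  have h2 : ((p.roots.map (·⁻¹)).map fun a => 1 - PowerSeries.C a * PowerSeries.X).prod =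
      (p : PowerSeries ℂ) := by
    conv_rhs => rw [eq_prod_one_sub h]
    rw [← coeToPowerSeries.ringHom_apply, map_multiset_prod, Multiset.map_map, Multiset.map_map]
    refine congrArg _ (Multiset.map_congr rfl fun z _ => ?_)
    simp
  rw [h2, mul_comm] at h1
  have h3 := congrArg (PowerSeries.coeff n) h1
  rw [PowerSeries.coeff_derivative, map_neg, PowerSeries.coeff_mul,
    Finset.Nat.sum_antidiagonal_eq_sum_range_succ_mk] at h3
  simpa [Multiset.map_map] using h3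

/-- A polynomial with real coefficients. -/
noncomputable def poly (c : ℕ → ℝ) (D : ℕ) : ℂ[X] :=
  ∑ n ∈ Finset.range (D + 1), C (c n : ℂ) * X ^ n

theorem eval_poly (c : ℕ → ℝ) (D : ℕ) (z : ℂ) :
    (poly c D).eval z = ∑ n ∈ Finset.range (D + 1), c n * z ^ n := by
  simp [poly, eval_finsetSum]

theorem coeff_poly (c : ℕ → ℝ) (D n : ℕ) : (poly c D).coeff n = if n ≤ D then (c n : ℂ) else 0 := by
  simp [poly, coeff_X_pow]

theorem eval_zero_poly {c : ℕ → ℝ} (h : c 0 = 1) (D : ℕ) : (poly c D).eval 0 = 1 := by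
  rw [← coeff_zero_eq_eval_zero, coeff_poly, h]
  simp

theorem mahler {c : ℕ → ℝ} (h : c 0 = 1) (hc : ∀ n, 0 ≤ c n) (D : ℕ) {r : ℝ} (hr : 0 < r) :
    ((poly c D).roots.map fun z => max 1 (r / ‖z‖)).prod ≤
      ∑ n ∈ Finset.range (D + 1), c n * r ^ n := by
  have h0 := eval_zero_poly h D
  have h1 := mahlerMeasure_le_sum_norm_coeff ((poly c D).comp (C (r : ℂ) * X))
  have h2 : (poly c D).comp (C (r : ℂ) * X) = poly (fun n => c n * r ^ n) D := by
    simp [poly, Polynomial.sum_comp, mul_pow, mul_assoc]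
  refine le_trans (le_of_eq ?_) (h1.trans ?_)
  · conv_rhs => rw [eq_prod_one_sub h0]
    rw [multiset_prod_comp, prod_mahlerMeasure_eq_mahlerMeasure_prod, Multiset.map_map,
      Multiset.map_map]
    refine congrArg _ (Multiset.map_congr rfl fun z hz => ?_)
    have hz0 := root_ne_zero h0 hz
    have e : (1 - C z⁻¹ * X : ℂ[X]).comp (C (r : ℂ) * X) = C (-(z⁻¹ * r)) * X + C 1 := by
      simp only [sub_comp, one_comp, mul_comp, C_comp, X_comp, map_neg, map_mul, map_one]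
      ring
    simp only [Function.comp]
    rw [e, mahlerMeasure_C_mul_X_add_C (by simp [hz0, hr.ne']), max_comm]
    simp [div_eq_inv_mul, abs_of_pos hr]
  · rw [h2, Polynomial.sum_def]
    refine (Finset.sum_le_sum_of_subset_of_nonneg (t := Finset.range (D + 1)) ?_
      fun _ _ _ => norm_nonneg _).trans (le_of_eq (Finset.sum_congr rfl fun n hn => ?_))
    · intro n hn
      rw [mem_support_iff, coeff_poly] at hn
      by_contra h
      exact hn (if_neg fun h' => h (Finset.mem_range.2 (by omega)))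
    · rw [coeff_poly, if_pos (Nat.lt_succ_iff.1 (Finset.mem_range.1 hn)), norm_real,
        Real.norm_of_nonneg (mul_nonneg (hc n) (by positivity))]

theorem pow_card_le {s : Multiset ℂ} (hs : ∀ z ∈ s, z ≠ 0) {a r : ℝ} (hr : 0 ≤ r) :
    (r / a) ^ (s.filter fun z => ‖z‖ ≤ a).card ≤ (s.map fun z => max 1 (r / ‖z‖)).prod := by
  induction s using Multiset.induction_on with
  | empty => simp
  | cons w s ih =>
    have h1 := ih fun u hu => hs u (Multiset.mem_cons_of_mem hu)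
    have hw := norm_pos_iff.2 (hs w (Multiset.mem_cons_self _ _))
    have h2 : 0 ≤ (s.map fun z => max 1 (r / ‖z‖)).prod :=
      Multiset.prod_nonneg fun x hx => by
        obtain ⟨z, -, rfl⟩ := Multiset.mem_map.1 hx
        positivity
    rw [Multiset.map_cons, Multiset.prod_cons]
    by_cases h : ‖w‖ ≤ a
    · have ha := hw.trans_le h
      rw [Multiset.filter_cons_of_pos (p := fun z : ℂ => ‖z‖ ≤ a) _ h, Multiset.card_cons,
        pow_succ']
      exact mul_le_mul (le_max_of_le_right (by gcongr)) h1 (by positivity) (by positivity)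
    · rw [Multiset.filter_cons_of_neg (p := fun z : ℂ => ‖z‖ ≤ a) _ h]
      exact h1.trans (le_mul_of_one_le_left h2 (le_max_left _ _))

theorem sum_filter_eq (s : Multiset ℂ) (p : ℂ → Prop) [DecidablePred p] (f : ℂ → ℝ) :
    ((s.filter p).map f).sum = (s.map fun z => if p z then f z else 0).sum := by
  induction s using Multiset.induction_on with
  | empty => simp
  | cons w s ih => by_cases h : p w <;> simp [h, ih]

theorem card_filter_eq (s : Multiset ℂ) (p : ℂ → Prop) [DecidablePred p] :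
    ((s.filter p).card : ℝ) = (s.map fun z => if p z then (1 : ℝ) else 0).sum := by
  rw [← sum_filter_eq]
  simp

/-- Growth of order one half, expressed through the zeros. -/
def Growth (s : Multiset ℂ) : Prop :=
  (∀ z ∈ s, z ≠ 0) ∧ ∀ ρ : ℝ, 0 < ρ → (s.map fun z => max 1 (ρ ^ 2 / ‖z‖)).prod ≤ Real.exp (2 * ρ)

theorem Growth.card_le {s : Multiset ℂ} (h : Growth s) {ρ : ℝ} (hρ : 0 < ρ) :
    ((s.filter fun z => ‖z‖ ≤ ρ ^ 2).card : ℝ) ≤ 2.75 * ρ := by
  have h1 := (pow_card_le h.1 (a := ρ ^ 2) (sq_nonneg (3 * ρ))).trans (h.2 (3 * ρ) (by positivity))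
  rw [show (3 * ρ) ^ 2 / ρ ^ 2 = 9 by field_simp; norm_num] at h1
  have h2 : Real.exp (24 / 11) ≤ 9 := by
    have h3 : Real.exp (24 / 11) ^ 11 ≤ 9 ^ 11 := by
      rw [← Real.exp_nat_mul, show ((11 : ℕ) : ℝ) * (24 / 11) = (24 : ℕ) * 1 by norm_num,
        Real.exp_nat_mul]
      exact (pow_le_pow_left₀ (Real.exp_pos 1).le Real.exp_one_lt_d9.le 24).trans (by norm_num)
    exact le_of_pow_le_pow_left₀ (by norm_num) (by norm_num) h3
  have h4 := (pow_le_pow_left₀ (Real.exp_pos _).le h2 _).trans h1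
  rw [← Real.exp_nat_mul, Real.exp_le_exp] at h4
  linarith

theorem Growth.tail {s : Multiset ℂ} (h : Growth s) {ρ : ℝ} (hρ : 0 < ρ) :
    ((s.filter fun z => ¬ ‖z‖ ≤ ρ ^ 2).map fun z => ρ ^ 2 / ‖z‖).sum ≤ 11 * ρ := by
  obtain ⟨I, hI⟩ : ∃ I : ℕ, ∀ z ∈ s, ‖z‖ ≤ (2 ^ I * ρ) ^ 2 := by
    obtain ⟨I, hI⟩ := pow_unbounded_of_one_lt ((s.map fun z => ‖z‖).sum / ρ ^ 2)
      (show (1 : ℝ) < 4 by norm_num)
    refine ⟨I, fun z hz => ?_⟩
    have h1 : ‖z‖ ≤ (s.map fun z => ‖z‖).sum := Multiset.single_le_sum (fun x hx => by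
      obtain ⟨z, -, rfl⟩ := Multiset.mem_map.1 hx
      positivity) _ (Multiset.mem_map_of_mem _ hz)
    rw [div_lt_iff₀ (by positivity)] at hI
    rw [mul_pow, ← pow_mul, mul_comm I, pow_mul]
    norm_num
    linarith
  induction I generalizing ρ with
  | zero =>
    rw [Multiset.filter_eq_nil.2 fun z hz => by simpa using hI z hz]
    simp
    positivity
  | succ I ih =>
    have h1 := ih (ρ := 2 * ρ) (by positivity) fun z hz => by
      rw [← mul_assoc, ← pow_succ]; exact hI z hz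
    have h2 := h.card_le (ρ := 2 * ρ) (by positivity)
    have h3 : ((s.filter fun z => ¬ ‖z‖ ≤ ρ ^ 2).map fun z => ρ ^ 2 / ‖z‖).sum ≤
        (s.filter fun z => ‖z‖ ≤ (2 * ρ) ^ 2).card + 1 / 4 *
        ((s.filter fun z => ¬ ‖z‖ ≤ (2 * ρ) ^ 2).map fun z => (2 * ρ) ^ 2 / ‖z‖).sum := by
      rw [sum_filter_eq, sum_filter_eq, card_filter_eq, ← Multiset.sum_map_mul_left,
        ← Multiset.sum_map_add]
      refine Multiset.sum_map_le_sum_map _ _ fun w _ => ?_
      by_cases a1 : ‖w‖ ≤ ρ ^ 2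
      · have a2 : ‖w‖ ≤ (2 * ρ) ^ 2 := by nlinarith
        simp [a1, a2]
      · by_cases a2 : ‖w‖ ≤ (2 * ρ) ^ 2
        · simpa [a1, a2] using div_le_one_of_le₀ (not_le.1 a1).le (norm_nonneg _)
        · rw [if_pos a1, if_neg a2, if_pos a2]
          exact le_of_eq (by ring)
    linarith

/-- The dominant pair decides the sign. -/
theorem Growth.dom {s : Multiset ℂ} (h : Growth s) {k : ℕ} {R r ρ w : ℝ} (f : ℂ → ℝ)
    (hr : 0 < r) (hρ : 0 < ρ) (hw : 0 ≤ w) (hf : ∀ z ∈ s, -(r / ‖z‖) ^ (k + 1) ≤ f z)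
    (hin : ((s.filter fun z => ‖z‖ < R).map f).sum = 2)
    (hmid : ∀ z ∈ s, ¬ ‖z‖ < R → ‖z‖ ≤ ρ ^ 2 → -w ≤ f z)
    (hN : (s.filter fun z => ‖z‖ ≤ ρ ^ 2).card * w ≤ 1.9)
    (hfar : (r / ρ ^ 2) ^ (k + 1) * (11 * ρ) < 0.1) : 0 < (s.map f).sum := by
  have h1 := h.tail hρ
  have h2 : ((s.filter fun z => ‖z‖ < R).map f).sum ≤ (s.map f).sum +
      (s.filter fun z => ‖z‖ ≤ ρ ^ 2).card * w + (r / ρ ^ 2) ^ (k + 1) *
      ((s.filter fun z => ¬ ‖z‖ ≤ ρ ^ 2).map fun z => ρ ^ 2 / ‖z‖).sum := by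
    rw [sum_filter_eq, sum_filter_eq, card_filter_eq, ← Multiset.sum_map_mul_left,
      ← Multiset.sum_map_mul_right, ← Multiset.sum_map_add, ← Multiset.sum_map_add]
    refine Multiset.sum_map_le_sum_map _ _ fun z hz => ?_
    have hz0 := norm_pos_iff.2 (h.1 z hz)
    by_cases a1 : ‖z‖ ≤ ρ ^ 2
    · rw [if_pos a1, if_neg (not_not.2 a1)]
      split_ifs with a2
      · linarith
      · linarith [hmid z hz a2 a1]
    · rw [if_neg a1, if_pos a1]
      have a3 : (r / ‖z‖) ^ (k + 1) ≤ (r / ρ ^ 2) ^ (k + 1) * (ρ ^ 2 / ‖z‖) := by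
        calc _ = (r / ‖z‖) ^ k * (r / ‖z‖) := pow_succ _ _
          _ ≤ (r / ρ ^ 2) ^ k * (r / ‖z‖) := by
            gcongr
            exact (not_le.1 a1).le
          _ = _ := by rw [pow_succ (r / ρ ^ 2)]; field_simp
      have a4 : 0 ≤ (r / ρ ^ 2) ^ (k + 1) * (ρ ^ 2 / ‖z‖) := by positivity
      split_ifs with a2
      · linarith
      · linarith [hf z hz]
  have h4 := mul_le_mul_of_nonneg_left h1 (show 0 ≤ (r / ρ ^ 2) ^ (k + 1) by positivity)
  linarith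

end Pool.Agent.P.MP_ee6314_co
end

-- part Pool.Agent.P.MP_ee6314_co.Pair
section

/-! Power sums of the zeros of the truncations, the inner pair, and the chain of sign changes. -/

namespace Pool.Agent.P.MP_ee6314_co

open Polynomial Complex Set
open scoped Real

variable {y : ℝ}

theorem cf_zero (y : ℝ) : cf y 0 = 1 := by simp [cf, mu_zero]

theorem cf_rec (hy : 0 < y) (k : ℕ) : cf y (k + 1) * (k + 1) = -∑ j ∈ Finset.range (k + 1),
    qq (-y) j / (2 * (2 * j + 1).factorial * (1 + y) ^ (j + 1)) * cf y (k - j) := by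
  have h1 : (1 + y) ≠ 0 := by positivity
  have h2 : (((2 * (k + 1)).factorial : ℕ) : ℝ) = 2 * (k + 1) * (2 * k + 1).factorial := by
    rw [show 2 * (k + 1) = 2 * k + 1 + 1 by ring, Nat.factorial_succ]
    push_cast
    ring
  have h3 : (((2 * k + 1).factorial : ℕ) : ℝ) ≠ 0 := by positivity
  have h4 : cf y (k + 1) * (k + 1) =
      mo (-y) (k + 1) * (1 / (2 * (2 * k + 1).factorial * (1 + y) ^ (k + 1))) := by
    rw [cf, mu, h2]
    field_simp
  rw [h4, qq_rec, neg_mul, Finset.sum_mul]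
  congr 1
  refine Finset.sum_congr rfl fun j hj => ?_
  obtain ⟨i, rfl⟩ := Nat.exists_eq_add_of_le (Nat.lt_succ_iff.1 (Finset.mem_range.1 hj))
  have h5 := Nat.add_choose_mul_factorial_mul_factorial (2 * i) (2 * j + 1)
  rw [show 2 * i + (2 * j + 1) = 2 * (j + i) + 1 by ring] at h5
  have h6 : (((2 * j + 1).factorial : ℕ) : ℝ) ≠ 0 := by positivity
  have h7 : (((2 * i).factorial : ℕ) : ℝ) ≠ 0 := by positivity
  have h8 : (((2 * (j + i) + 1).choose (2 * j + 1) : ℕ) : ℝ) ≠ 0 := by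
    exact_mod_cast (Nat.choose_pos (by omega)).ne'
  rw [Nat.add_sub_cancel_left, cf, mu, ← h5]
  push_cast
  field_simp
  ring

theorem newton_qq (hy : 0 < y) {D : ℕ} (j : ℕ) (hj : j + 1 ≤ D) :
    ((poly (cf y) D).roots.map fun z => z⁻¹ ^ (j + 1)).sum =
      (qq (-y) j / (2 * (2 * j + 1).factorial * (1 + y) ^ (j + 1)) : ℝ) := by
  induction j using Nat.strong_induction_on with
  | _ k ih =>
    have h1 := newton (eval_zero_poly (cf_zero y) D) k
    have h2 := congrArg (fun x : ℝ => (x : ℂ)) (cf_rec hy k)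
    simp only [ofReal_mul, ofReal_neg, ofReal_sum, ofReal_add, ofReal_natCast, ofReal_one] at h2
    rw [coeff_poly, if_pos hj, h2, Finset.sum_range_succ, Finset.sum_range_succ, neg_inj, eq_comm,
      Finset.sum_congr rfl fun j hj' => by
        rw [ih j (Finset.mem_range.1 hj') (by have := Finset.mem_range.1 hj'; omega), coeff_poly,
          if_pos (by omega)], add_right_inj, coeff_poly, if_pos (by omega), Nat.sub_self,
      cf_zero] at h1
    simpa using h1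

theorem re_sum (s : Multiset ℂ) (f : ℂ → ℂ) : (s.map f).sum.re = (s.map fun z => (f z).re).sum := by
  induction s using Multiset.induction_on with
  | empty => simp
  | cons a s ih => simp [ih]

theorem re_pow (r : ℝ) (z : ℂ) (K : ℕ) :
    ((r : ℂ) ^ K * z⁻¹ ^ K).re = (r / ‖z‖) ^ K * Real.cos (K * |arg z|) := by
  have h1 : (r : ℂ) ^ K * z⁻¹ ^ K = ((r / ‖z‖) ^ K : ℝ) * exp ((-(K * arg z) : ℝ) * I) := by
    conv_lhs => rw [← norm_mul_exp_arg_mul_I z]
    rw [mul_inv, mul_pow, ← exp_neg, ← exp_nat_mul]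
    push_cast
    rw [div_eq_mul_inv, mul_pow, mul_assoc]
    congr 3
    ring
  rw [h1, re_ofReal_mul, exp_ofReal_mul_I_re, Real.cos_neg, ← Real.cos_abs, abs_mul,
    Nat.abs_cast]

/-- The signed contribution of one zero. -/
noncomputable def term (k m : ℕ) (r : ℝ) (z : ℂ) : ℝ :=
  (-1) ^ m * ((r / ‖z‖) ^ (k + 1) * Real.cos ((k + 1 : ℕ) * |arg z|))

theorem term_ge (k m : ℕ) {r : ℝ} (hr : 0 < r) (z : ℂ) : -(r / ‖z‖) ^ (k + 1) ≤ term k m r z := by
  refine (neg_le_neg ?_).trans (neg_abs_le _)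
  rw [term, abs_mul, abs_mul, abs_neg_one_pow, one_mul, abs_of_nonneg (by positivity)]
  exact mul_le_of_le_one_right (by positivity) (Real.abs_cos_le_one _)

theorem sign_of_sum (hy : 0 < y) {D k m : ℕ} (hk : k + 1 ≤ D) {r : ℝ} (hr : 0 < r)
    (h : 0 < ((poly (cf y) D).roots.map (term k m r)).sum) : 0 < (-1) ^ (m + 1) * red k y := by
  have h1 := congrArg (fun w : ℂ => (-1 : ℝ) ^ m * ((r : ℂ) ^ (k + 1) * w).re) (newton_qq hy k hk)
  rw [← Multiset.sum_map_mul_left, re_sum, ← Multiset.sum_map_mul_left, ← ofReal_pow,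
    ← ofReal_mul, ofReal_re] at h1
  simp only [ofReal_pow, re_pow] at h1
  unfold term at h
  rw [h1, qq, ← red] at h
  have h2 : 0 < r ^ (k + 1) * y / (2 * (2 * k + 1).factorial * (1 + y) ^ (k + 1)) := by positivity
  refine pos_of_mul_pos_left (b := _) (h.trans_eq ?_) h2.le
  ring

theorem term_sum {s : Multiset ℂ} (h2 : s.card = 2) {k m : ℕ} {r : ℝ} (hr : 0 < r)
    (h : ∀ z ∈ s, ‖z‖ = r ∧ |arg z| = m * π / (k + 1)) : (s.map (term k m r)).sum = 2 := by
  rw [Multiset.map_congr rfl (g := fun _ => (1 : ℝ)) fun z hz => ?_]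
  · simp [h2]
    norm_num
  · rw [term, (h z hz).1, (h z hz).2, div_self hr.ne', one_pow, one_mul,
      show ((k + 1 : ℕ) : ℝ) * (m * π / (k + 1)) = m * π by push_cast; field_simp,
      Real.cos_nat_mul_pi, ← mul_pow]
    simp

theorem growth (hy : 0 < y) (D : ℕ) : Growth (poly (cf y) D).roots :=
  ⟨fun _ => root_ne_zero (eval_zero_poly (cf_zero y) D), fun ρ hρ =>
    ((mahler (cf_zero y) (cf_nonneg hy) D (by positivity)).trans (sum_le_PsiR hy ρ _)).trans
      (PsiR_le_exp hy hρ.le)⟩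

theorem trunc (K : ℕ) {ε : ℝ} (hε : 0 < ε) : ∃ D, K ≤ D ∧ ∀ y, 0 < y → ∀ v : ℂ, ‖v‖ ≤ K →
    ‖Psi y v - (poly (cf y) D).eval (v ^ 2)‖ ≤ ε := by
  obtain ⟨N, hN⟩ := Filter.eventually_atTop.1
    ((FloorSemiring.tendsto_pow_div_factorial_atTop (2 * K : ℝ)).eventually
      (gt_mem_nhds (half_pos hε)))
  refine ⟨N + 2 * K, by omega, fun y hy v hv => ?_⟩
  have h1 := hN (2 * (N + 2 * K + 1)) (by omega)
  rw [eval_poly]
  refine (norm_Psi_sub_le hy (by
    push_cast; linarith [(Nat.cast_nonneg N : (0 : ℝ) ≤ N), norm_nonneg v])).trans ?_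
  have h2 := mu_le hy (N + 2 * K + 1)
  have h3 := mu_nonneg hy (N + 2 * K + 1)
  rw [cf]
  generalize N + 2 * K + 1 = n at *
  calc _ ≤ 2 * (K : ℝ) ^ (2 * n) * (4 ^ n / (2 * n).factorial) := by gcongr
    _ = 2 * ((2 * K : ℝ) ^ (2 * n) / (2 * n).factorial) := by
      rw [mul_pow, pow_mul (2 : ℝ)]; norm_num; ring
    _ ≤ _ := by linarith

theorem eval_conj (c : ℕ → ℝ) (D : ℕ) (z : ℂ) :
    (poly c D).eval (starRingEnd ℂ z) = starRingEnd ℂ ((poly c D).eval z) := by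
  simp [eval_poly]

/-- A square root in the first quadrant of a zero or of its conjugate. -/
theorem exists_sqrt {c : ℕ → ℝ} {D : ℕ} {z : ℂ} (hz : (poly c D).eval z = 0) : ∃ v : ℂ,
    (poly c D).eval (v ^ 2) = 0 ∧ 0 ≤ v.re ∧ 0 ≤ v.im ∧ ‖v‖ ^ 2 = ‖z‖ ∧
      (z ≠ 0 → |arg z| = 2 * arg v) := by
  have h1 := abs_arg_le_pi z
  have h0 := abs_nonneg (arg z)
  have h2 : ∀ θ : ℝ, ((√‖z‖ : ℝ) * exp ((θ / 2 : ℝ) * I)) ^ 2 = ‖z‖ * exp (θ * I) := fun θ => by
    rw [mul_pow, ← ofReal_pow, Real.sq_sqrt (norm_nonneg z), ← exp_nat_mul]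
    push_cast
    ring_nf
  refine ⟨(√‖z‖ : ℝ) * exp ((|arg z| / 2 : ℝ) * I), ?_, ?_, ?_, ?_, fun hz0 => ?_⟩
  · rw [h2]
    rcases abs_choice (arg z) with h | h <;> rw [h]
    · rwa [norm_mul_exp_arg_mul_I]
    · have : (‖z‖ : ℂ) * exp ((-arg z : ℝ) * I) = starRingEnd ℂ z := by
        conv_rhs => rw [← norm_mul_exp_arg_mul_I z, map_mul, ← exp_conj]
        simp
      rw [this, eval_conj, hz, map_zero]
  · rw [re_ofReal_mul, exp_ofReal_mul_I_re]
    exact mul_nonneg (Real.sqrt_nonneg _) (Real.cos_nonneg_of_mem_Icc ⟨by linarith, by linarith⟩)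
  · rw [im_ofReal_mul, exp_ofReal_mul_I_im]
    exact mul_nonneg (Real.sqrt_nonneg _)
      (Real.sin_nonneg_of_nonneg_of_le_pi (by linarith) (by linarith))
  · rw [norm_mul, norm_exp_ofReal_mul_I, mul_one, norm_real, Real.norm_of_nonneg (Real.sqrt_nonneg _),
      Real.sq_sqrt (norm_nonneg z)]
  · rw [exp_mul_I, arg_mul_cos_add_sin_mul_I (Real.sqrt_pos.2 (norm_pos_iff.2 hz0))
      ⟨by linarith [Real.pi_pos], by linarith⟩]
    ring

/-- The product of the two inner zeros. -/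
noncomputable def e2 (p : ℂ[X]) (R : ℝ) : ℝ := (psum p R 1 ^ 2 - psum p R 2).re / 2

/-- The cosine of the argument of the inner pair. -/
noncomputable def cs (p : ℂ[X]) (R : ℝ) : ℝ := (psum p R 1).re / (2 * √(e2 p R))

theorem mem_ins {c : ℕ → ℝ} (h : c 0 = 1) {D : ℕ} {R : ℝ} {z : ℂ} :
    z ∈ ins (poly c D) R ↔ (poly c D).eval z = 0 ∧ ‖z‖ < R := by
  rw [ins, Multiset.mem_filter, mem_roots, IsRoot]
  intro h0
  have := eval_zero_poly h D
  simp [h0] at this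

theorem pair {c : ℕ → ℝ} (h : c 0 = 1) (hc : ∀ n, 0 ≤ c n) {D : ℕ} {R : ℝ}
    (h2 : (ins (poly c D) R).card = 2) : 0 < e2 (poly c D) R ∧
      ((cs (poly c D) R ≤ -1 ∧ ∀ z ∈ ins (poly c D) R, |arg z| = π) ∨
      ∃ r, 0 < r ∧ ∀ z ∈ ins (poly c D) R, ‖z‖ = r ∧ Real.cos |arg z| = cs (poly c D) R) := by
  obtain ⟨a, b, hab⟩ := Multiset.card_eq_two.1 h2
  have k1 : ∀ z ∈ ins (poly c D) R, starRingEnd ℂ z ∈ ins (poly c D) R := fun z hz => by
    rw [mem_ins h] at hz ⊢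
    rw [eval_conj, hz.1, map_zero, norm_conj]
    exact ⟨rfl, hz.2⟩
  have k2 : ∀ z ∈ ins (poly c D) R, starRingEnd ℂ z = z → z.im = 0 ∧ z.re < 0 := fun z hz e => by
    refine ⟨conj_eq_iff_im.1 e, not_le.1 fun h0 => ?_⟩
    have h1 := ((mem_ins h).1 hz).1
    rw [← conj_eq_iff_re.1 e, eval_poly, Finset.sum_range_succ', h] at h1
    have h3 : 0 ≤ ∑ n ∈ Finset.range D, c (n + 1) * z.re ^ (n + 1) :=
      Finset.sum_nonneg fun n _ => mul_nonneg (hc _) (by positivity)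
    norm_cast at h1
    linarith
  have e1 : psum (poly c D) R 1 = a + b := by simp [psum, hab]
  have e3 : e2 (poly c D) R = (a * b).re := by
    rw [e2, e1, psum, hab, show (a + b) ^ 2 - (Multiset.map (· ^ 2) {a, b}).sum = (2 : ℝ) * (a * b)
      by simp; ring, re_ofReal_mul]
    ring
  have k3 : b = starRingEnd ℂ a → 0 < e2 (poly c D) R ∧ ∃ r, 0 < r ∧ ∀ z ∈ ins (poly c D) R,
      ‖z‖ = r ∧ Real.cos |arg z| = cs (poly c D) R := by
    rintro rfl
    have ha : a ≠ 0 := by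
      rintro rfl
      have := ((mem_ins h).1 (show 0 ∈ ins (poly c D) R by simp [hab])).1
      simp [eval_zero_poly h] at this
    have hn := norm_pos_iff.2 ha
    rw [mul_conj, ofReal_re, normSq_eq_norm_sq] at e3
    refine ⟨by rw [e3]; positivity, ‖a‖, hn, fun z hz => ?_⟩
    rw [cs, e3, e1, Real.sqrt_sq hn.le, Real.cos_abs]
    rw [hab] at hz
    simp only [Multiset.insert_eq_cons, Multiset.mem_cons, Multiset.mem_singleton] at hz
    rcases hz with rfl | rfl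
    · rw [cos_arg ha]
      simp
      field_simp
      ring
    · rw [cos_arg (by simpa using ha)]
      simp
      field_simp
      ring
  rw [hab] at k1 k2
  simp only [Multiset.insert_eq_cons, Multiset.mem_cons, Multiset.mem_singleton, forall_eq_or_imp,
    forall_eq] at k1 k2
  by_cases hb : b = starRingEnd ℂ a
  · exact ⟨(k3 hb).1, Or.inr (k3 hb).2⟩
  obtain ⟨a1, a2⟩ := k2.1 (k1.1.resolve_right fun e => hb e.symm)
  obtain ⟨b1, b2⟩ := k2.2 (k1.2.resolve_left fun e => hb (by rw [← e, conj_conj]))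
  rw [mul_re, a1, zero_mul, sub_zero] at e3
  have h0 : 0 < a.re * b.re := mul_pos_of_neg_of_neg a2 b2
  refine ⟨e3 ▸ h0, Or.inl ⟨?_, ?_⟩⟩
  · rw [cs, e3, e1, add_re, div_le_iff₀ (by positivity)]
    have : √(a.re * b.re) ≤ -(a.re + b.re) / 2 := by
      rw [Real.sqrt_le_left (by linarith)]
      nlinarith [sq_nonneg (a.re - b.re)]
    linarith
  · simp only [hab, Multiset.insert_eq_cons, Multiset.mem_cons, Multiset.mem_singleton,
      forall_eq_or_imp, forall_eq]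
    rw [arg_eq_pi_iff.2 ⟨a2, a1⟩, arg_eq_pi_iff.2 ⟨b2, b1⟩, abs_of_pos Real.pi_pos]
    exact ⟨rfl, rfl⟩

theorem chain {f u Y : ℝ → ℝ} {a b : ℝ} {k : ℕ} (hk : 2 ≤ k) (hf : Continuous f) (h0 : 0 < f 0)
    (hab : a ≤ b) (hu : ContinuousOn u (Icc a b)) (hY : Monotone Y) (hY0 : ∀ s, 0 ≤ Y s)
    (ha : Real.cos ((2 : ℕ) * π / (k + 1)) ≤ u a) (hb : u b ≤ -1)
    (hd : ∀ s ∈ Icc a b, ∀ m : ℕ, 2 ≤ m → m ≤ k → u s = Real.cos (m * π / (k + 1)) →
      0 < (-1) ^ (m + 1) * f (Y s)) : ∃ c, HR f c (k - 1) := by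
  have key : ∀ m : ℕ, 2 ≤ m → m ≤ k →
      ∃ s ∈ Icc a b, u s = Real.cos (m * π / (k + 1)) ∧ HR f (Y s) (m - 1) := by
    intro m hm
    induction m, hm using Nat.le_induction with
    | base =>
      intro _
      obtain ⟨s, hs, e⟩ := intermediate_value_Icc' hab hu ⟨hb.trans (Real.neg_one_le_cos _), ha⟩
      refine ⟨s, hs, e, (HR.zero f 0).step hf (hY0 s) ?_⟩
      have := hd s hs 2 le_rfl hk e
      rw [Odd.neg_one_pow (by decide)] at this
      exact mul_neg_of_pos_of_neg h0 (by linarith)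
    | succ m hm ih =>
      intro hm'
      obtain ⟨s, hs, e, h1⟩ := ih (by omega)
      have h2 : ((m + 1 : ℕ) : ℝ) ≤ k := by exact_mod_cast hm'
      have h3 : Real.cos ((m + 1 : ℕ) * π / (k + 1)) ≤ u s := by
        rw [e]
        refine Real.cos_le_cos_of_nonneg_of_le_pi (by positivity) ?_ (by gcongr; linarith)
        rw [div_le_iff₀ (by positivity)]
        nlinarith [Real.pi_pos]
      obtain ⟨t, ht, e'⟩ := intermediate_value_Icc' hs.2 (hu.mono (Icc_subset_Icc_left hs.1))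
        ⟨hb.trans (Real.neg_one_le_cos _), h3⟩
      have ht' : t ∈ Icc a b := ⟨hs.1.trans ht.1, ht.2⟩
      refine ⟨t, ht', e', ?_⟩
      rw [show m + 1 - 1 = m - 1 + 1 by omega]
      refine h1.step hf (hY ht.1) ?_
      have h4 := mul_pos (hd s hs m hm (by omega) e) (hd t ht' (m + 1) (by omega) hm' e')
      rw [mul_mul_mul_comm, ← pow_add, Odd.neg_one_pow ⟨m + 1, by ring⟩] at h4
      linarith
  obtain ⟨s, -, -, h⟩ := key k hk le_rfl
  exact ⟨_, h⟩

end Pool.Agent.P.MP_ee6314_co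
end

-- part Pool.Agent.P.MP_ee6314_co.Dom
section

/-! The inner pair of zeros dominates the power sum. -/

namespace Pool.Agent.P.MP_ee6314_co

open Real

theorem far_small {K : ℕ} (hK : 64 ≤ K) {a b : ℝ} (a0 : 0 ≤ a) (ha : a ≤ 0.85) (b0 : 0 ≤ b)
    (hb : b ≤ 7 * K) : a ^ K * b < 0.1 := by
  have h : (0.85 : ℝ) ^ K * (7 * K) < 0.1 := by
    clear hb
    induction K, hK using Nat.le_induction with
    | base => norm_num
    | succ n hn ih =>
      have h1 : (64 : ℝ) ≤ n := by exact_mod_cast hn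
      have h2 : (0 : ℝ) < 0.85 ^ n := by positivity
      rw [pow_succ]
      push_cast
      nlinarith
  exact lt_of_le_of_lt (by gcongr) h

theorem pw {K : ℕ} (hK : 64 ≤ K) {τ : ℝ} (h : 0.34 ≤ K * τ ^ 3) :
    0.46 * K ≤ (1 + 2 * τ ^ 2) ^ K := by
  have hK' : (64 : ℝ) ≤ K := by exact_mod_cast hK
  have w0 : 0 ≤ 2 * τ ^ 2 := by positivity
  rcases le_total 0.061 (2 * τ ^ 2) with hw | hw
  · have h1 : 0.46 * K ≤ (1.061 : ℝ) ^ K := by
      clear h hK'
      induction K, hK using Nat.le_induction with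
      | base => norm_num
      | succ n hn ih =>
        have h1 : (64 : ℝ) ≤ n := by exact_mod_cast hn
        rw [pow_succ]
        push_cast
        nlinarith
    exact h1.trans (by gcongr; linarith)
  · have h1 := one_sub_inv_le_log_of_pos (show 0 < 1 + 2 * τ ^ 2 by positivity)
    have h2 : 2 * τ ^ 2 / 1.061 ≤ 1 - (1 + 2 * τ ^ 2)⁻¹ := by
      rw [show 1 - (1 + 2 * τ ^ 2)⁻¹ = 2 * τ ^ 2 / (1 + 2 * τ ^ 2) by field_simp; ring]
      gcongr
      linarith
    set z := K * (2 * τ ^ 2 / 1.061) with hz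
    have h3 : exp z ≤ (1 + 2 * τ ^ 2) ^ K := by
      rw [← exp_log (show 0 < (1 + 2 * τ ^ 2) ^ K by positivity), log_pow, exp_le_exp, hz]
      gcongr
      linarith
    have h4 : 0.774 * K ≤ z ^ 3 := by
      have h5 : 0.34 ^ 2 ≤ (K * τ ^ 3) ^ 2 := by gcongr
      rw [show z ^ 3 = K * (8 / 1.061 ^ 3 * (K * τ ^ 3) ^ 2) by rw [hz]; ring, mul_comm]
      gcongr
      linarith
    have h5 : 3.67 ≤ z := le_of_pow_le_pow_left₀ three_ne_zero (by positivity) (by linarith)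
    have h6 : (100 / 367 * z) ^ 3 ≤ exp ((z - 3.67) / 3) ^ 3 := by
      gcongr
      linarith [add_one_le_exp ((z - 3.67) / 3)]
    have h7 : exp z = exp 1 ^ 3 * exp 0.67 * exp ((z - 3.67) / 3) ^ 3 := by
      rw [← exp_nat_mul, ← exp_nat_mul, ← exp_add, ← exp_add]
      congr 1
      push_cast
      ring
    have h8 : 2.718 ^ 3 * 1.67 * (100 / 367 * z) ^ 3 ≤ exp z := by
      rw [h7]
      gcongr
      · linarith [exp_one_gt_d9]
      · linarith [add_one_le_exp (0.67 : ℝ)]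
    rw [mul_pow] at h8
    linarith

variable {ξ y : ℝ} {D : ℕ}

theorem root_loc (h : 12 ≤ ξ) (hD : ∀ v : ℂ, ‖v‖ ≤ 1.1 * ξ →
      ‖Psi (yA ξ) v - (poly (cf (yA ξ)) D).eval (v ^ 2)‖ ≤ 0.008 / ξ ^ 2) {z : ℂ}
    (hz : (poly (cf (yA ξ)) D).eval z = 0) (hn : ‖z‖ ≤ (1.1 * ξ) ^ 2) :
    ∃ x t J, Loc ξ x t J ∧ x ^ 2 + t ^ 2 = ‖z‖ ∧ |z.arg| = 2 * arctan (t / x) := by
  obtain ⟨v, h1, h2, h3, h4, h5⟩ := exists_sqrt hz
  have h6 : ‖v‖ ≤ 1.1 * ξ := le_of_pow_le_pow_left₀ two_ne_zero (by linarith) (h4 ▸ hn)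
  have h7 := hD v h6
  rw [h1, sub_zero] at h7
  obtain ⟨J, L⟩ := loc h h2 h3 h6 h7
  refine ⟨_, _, J, L, by rw [← h4, Complex.sq_norm, Complex.normSq_apply]; ring, ?_⟩
  rw [h5, arg_eq_arctan (by linarith [(L.ratio h).1])]
  rintro rfl
  simp [eval_zero_poly (cf_zero _)] at hz

theorem Loc.lt_iff (h : 12 ≤ ξ) {x t : ℝ} {J : ℕ} (L : Loc ξ x t J) :
    (J = 1 ∧ x ^ 2 + t ^ 2 ≤ ξ ^ 2 + 3.39) ∨ (J ≠ 1 ∧ ξ ^ 2 + 12 < x ^ 2 + t ^ 2) := by
  by_cases hJ : J = 1
  · subst hJ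
    exact Or.inl ⟨rfl, L.norm_one h⟩
  · obtain ⟨h1, h2⟩ := L.norm_three h hJ
    have h3 : (3 : ℝ) ≤ J := by exact_mod_cast h1
    have h4 : ξ ^ 2 * ((J : ℝ) / ξ) ^ 2 = J ^ 2 := by
      have : ξ ≠ 0 := by linarith
      field_simp
    exact Or.inr ⟨hJ, by nlinarith [sq_nonneg ((J : ℝ) / ξ)]⟩

theorem card_A (h : 12 ≤ ξ) : (((poly (cf (yA ξ)) D).roots.filter
    fun z => ‖z‖ ≤ (1.1 * ξ) ^ 2).card : ℝ) ≤ 1.605 * ξ + 0.04 := by
  have hy := yA_pos h
  have h1 := (pow_card_le (growth hy D).1 (a := (1.1 * ξ) ^ 2) (sq_nonneg (1.65 * ξ))).trans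
    (((mahler (cf_zero _) (cf_nonneg hy) D (by positivity)).trans (sum_le_PsiR hy _ _)).trans
      (PsiR_far h))
  rw [show (1.65 * ξ) ^ 2 / (1.1 * ξ) ^ 2 = 9 / 4 by
    have : ξ ≠ 0 := by linarith
    field_simp
    norm_num] at h1
  have h2 : exp (81 / 100) ≤ 9 / 4 := by
    have h3 : exp (81 / 100) ^ 100 ≤ (9 / 4) ^ 100 := by
      rw [← exp_nat_mul, show ((100 : ℕ) : ℝ) * (81 / 100) = (81 : ℕ) * 1 by norm_num, exp_nat_mul]
      exact (pow_le_pow_left₀ (exp_pos 1).le exp_one_lt_d9.le 81).trans (by norm_num)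
    exact le_of_pow_le_pow_left₀ (by norm_num) (by norm_num) h3
  have h4 := (pow_le_pow_left₀ (exp_pos _).le h2 _).trans h1
  rw [← exp_nat_mul, exp_le_exp] at h4
  linarith

theorem first_A (h : 12 ≤ ξ) (hD : ∀ v : ℂ, ‖v‖ ≤ 1.1 * ξ →
      ‖Psi (yA ξ) v - (poly (cf (yA ξ)) D).eval (v ^ 2)‖ ≤ 0.008 / ξ ^ 2) {z : ℂ}
    (hz : z ∈ ins (poly (cf (yA ξ)) D) (ξ ^ 2 + 12)) : ∃ x t, Loc ξ x t 1 ∧
      ‖z‖ ≤ ξ ^ 2 + 3.39 ∧ |z.arg| = 2 * arctan (t / x) ∧ |z.arg| ≤ 3.408 / ξ := by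
  obtain ⟨h1, h2⟩ := (mem_ins (cf_zero _)).1 hz
  obtain ⟨x, t, J, L, h3, h4⟩ := root_loc h hD h1 (by nlinarith)
  obtain ⟨rfl, h5⟩ := (L.lt_iff h).resolve_right fun h => by linarith [h.2]
  obtain ⟨a1, a2, -⟩ := L.ratio h
  have h6 := arctan_le_self (div_nonneg L.t0 (show 0 ≤ x by linarith))
  refine ⟨x, t, L, h3 ▸ h5, h4, ?_⟩
  rw [h4, show 3.408 / ξ = 2 * (1.704 * ((1 : ℕ) / ξ)) by push_cast; ring]
  linarith

theorem dom_A (h : 12 ≤ ξ) (hD : ∀ v : ℂ, ‖v‖ ≤ 1.1 * ξ →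
      ‖Psi (yA ξ) v - (poly (cf (yA ξ)) D).eval (v ^ 2)‖ ≤ 0.008 / ξ ^ 2) {k m : ℕ} {r : ℝ}
    (hk : 63 ≤ k) (hm : 2 ≤ m) (hr : 0 < r)
    (h2 : (ins (poly (cf (yA ξ)) D) (ξ ^ 2 + 12)).card = 2)
    (hin : ∀ z ∈ ins (poly (cf (yA ξ)) D) (ξ ^ 2 + 12), ‖z‖ = r ∧ |z.arg| = m * π / (k + 1)) :
    0 < ((poly (cf (yA ξ)) D).roots.map (term k m r)).sum := by
  have ξ0 : 0 < ξ := by linarith
  obtain ⟨z₁, hz₁⟩ := Multiset.card_pos_iff_exists_mem.1 (h2 ▸ two_pos)
  obtain ⟨x₁, t₁, L₁, a1, a2, a3⟩ := first_A h hD hz₁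
  rw [(hin _ hz₁).1] at a1
  rw [(hin _ hz₁).2] at a2 a3
  have hK : (64 : ℝ) ≤ (k + 1 : ℕ) := by exact_mod_cast Nat.succ_le_succ hk
  have hm' : (2 : ℝ) ≤ m := by exact_mod_cast hm
  rw [← Nat.cast_succ] at a2 a3
  have a4 : ξ ≤ 0.5425 * (k + 1 : ℕ) := by
    rw [div_le_div_iff₀ (by linarith) ξ0] at a3
    have : 2 * 3.1415 * ξ ≤ m * π * ξ := by gcongr; exact pi_gt_d4.le
    linarith
  refine (growth (yA_pos h) D).dom (R := ξ ^ 2 + 12) (ρ := 1.1 * ξ)
    (w := (0.46 * (k + 1 : ℕ))⁻¹) _ hr (by linarith) (by positivity)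
    (fun z _ => term_ge k m hr z) (term_sum h2 hr hin) (fun z hz b1 b2 => ?_) ?_ ?_
  · obtain ⟨x, t, J, L, b3, b4⟩ := root_loc h hD (Polynomial.isRoot_of_mem_roots hz) b2
    obtain ⟨hJ, -⟩ := (L.lt_iff h).resolve_left fun h => b1 (by linarith [h.2])
    obtain ⟨b5, b6⟩ := L.norm_three h hJ
    have b7 := L.phase h L₁ b5
    rcases le_total ((k + 1 : ℕ) * (J / ξ) ^ 3) 0.34 with c | c
    · refine le_trans (neg_nonpos.2 (by positivity)) ?_
      have c1 : ((k + 1 : ℕ) : ℝ) * (2 * arctan (t / x)) =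
          2 * (k + 1 : ℕ) * (arctan (t / x) - J * arctan (t₁ / x₁)) + (J * m : ℕ) * π := by
        rw [div_eq_iff (by linarith)] at a2
        rw [Nat.cast_mul]
        linear_combination (-J) * a2
      have c2 : |2 * (k + 1 : ℕ) * (arctan (t / x) - J * arctan (t₁ / x₁))| ≤ π / 2 := by
        rw [abs_mul, abs_of_nonneg (by positivity)]
        have := mul_le_mul_of_nonneg_left b7 (show (0 : ℝ) ≤ 2 * (k + 1 : ℕ) by positivity)
        linarith [pi_gt_d2]
      rw [term, b4, c1, cos_add_nat_mul_pi, pow_mul, L.odd.neg_one_pow, mul_left_comm, ← mul_assoc ((-1) ^ m),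
        ← mul_pow]
      have c3 := cos_nonneg_of_mem_Icc (abs_le.1 c2)
      positivity
    · refine le_trans (neg_le_neg ?_) (term_ge k m hr z)
      have c1 := pw (Nat.succ_le_succ hk) c
      have c2 : r / ‖z‖ ≤ (1 + 2 * (J / ξ) ^ 2)⁻¹ := by
        have c3 : r * (1 + 2 * (J / ξ) ^ 2) ≤ ‖z‖ := by
          rw [← b3]
          exact le_trans (by gcongr) b6
        rw [div_le_iff₀ (lt_of_lt_of_le (by positivity) c3), inv_mul_eq_div,
          le_div_iff₀ (by positivity)]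
        exact c3
      calc _ ≤ ((1 + 2 * (J / ξ) ^ 2)⁻¹) ^ (k + 1) := by gcongr
        _ ≤ _ := by
          rw [inv_pow]
          exact inv_anti₀ (by positivity) c1
  · rw [← div_eq_mul_inv, div_le_iff₀ (by positivity)]
    linarith [card_A (D := D) h]
  · refine far_small (Nat.succ_le_succ hk) (by positivity) ?_ (by positivity) (by linarith)
    rw [div_le_iff₀ (by positivity)]
    nlinarith

theorem root_out {a b : ℝ} (hA : ∀ v : ℂ, a ≤ ‖v‖ → ‖v‖ ≤ b → 1 / 10 ^ 6 < ‖Psi y v‖)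
    (hD : ∀ v : ℂ, ‖v‖ ≤ b → ‖Psi y v - (poly (cf y) D).eval (v ^ 2)‖ ≤ 1 / 10 ^ 6)
    (hb : 0 < b) {z : ℂ} (hz : (poly (cf y) D).eval z = 0) : ‖z‖ < a ^ 2 ∨ b ^ 2 < ‖z‖ := by
  obtain ⟨v, h1, -, -, h4, -⟩ := exists_sqrt hz
  by_contra hc
  rw [not_or, not_lt, not_lt, ← h4] at hc
  have h2 := le_of_pow_le_pow_left₀ two_ne_zero hb.le hc.2
  have h3 := hD v h2
  rw [h1, sub_zero] at h3
  exact absurd (hA v (le_of_pow_le_pow_left₀ two_ne_zero (norm_nonneg _) hc.1) h2) (not_lt.2 h3)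

theorem dom_C (hy : 0 < y) {a b R : ℝ} (hA : ∀ v : ℂ, a ≤ ‖v‖ → ‖v‖ ≤ b → 1 / 10 ^ 6 < ‖Psi y v‖)
    (hD : ∀ v : ℂ, ‖v‖ ≤ b → ‖Psi y v - (poly (cf y) D).eval (v ^ 2)‖ ≤ 1 / 10 ^ 6) (ha : 0 < a)
    (h1 : a ≤ R) (h3 : R ≤ b) (h4 : b ≤ 12.8) (h5 : 1.025 * a ≤ b) {k m : ℕ} {r : ℝ}
    (hk : 63 ≤ k) (hr : 0 < r) (h2 : (ins (poly (cf y) D) (R ^ 2)).card = 2)
    (hin : ∀ z ∈ ins (poly (cf y) D) (R ^ 2), ‖z‖ = r ∧ |z.arg| = m * π / (k + 1)) :
    0 < ((poly (cf y) D).roots.map (term k m r)).sum := by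
  have hb : 0 < b := by linarith
  have a1 : a ^ 2 ≤ R ^ 2 := by gcongr
  have a2 : R ^ 2 ≤ b ^ 2 := by gcongr; linarith
  have a3 : (1.025 * a) ^ 2 ≤ b ^ 2 := by gcongr
  obtain ⟨z₁, hz₁⟩ := Multiset.card_pos_iff_exists_mem.1 (h2 ▸ two_pos)
  have a4 := (mem_ins (cf_zero _)).1 hz₁
  have a5 := (root_out hA hD hb a4.1).resolve_right (by linarith [a4.2])
  rw [(hin _ hz₁).1] at a5
  have hK : (64 : ℝ) ≤ (k + 1 : ℕ) := by exact_mod_cast Nat.succ_le_succ hk
  refine (growth hy D).dom (R := R ^ 2) (ρ := 1.1 * b) (w := 0.045) _ hr (by linarith)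
    (by norm_num) (fun z _ => term_ge k m hr z) (term_sum h2 hr hin) (fun z hz b1 _ => ?_) ?_ ?_
  · have b2 := (root_out hA hD hb (Polynomial.isRoot_of_mem_roots hz)).resolve_left
      (by linarith)
    refine le_trans (neg_le_neg ?_) (term_ge k m hr z)
    have b3 : r / ‖z‖ ≤ 0.952 := by
      rw [div_le_iff₀ (lt_trans (by positivity) b2)]
      linarith
    calc _ ≤ (0.952 : ℝ) ^ (k + 1) := by gcongr
      _ ≤ 0.952 ^ 64 := pow_le_pow_of_le_one (by norm_num) (by norm_num) (by omega)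
      _ ≤ _ := by norm_num
  · linarith [(growth hy D).card_le (ρ := 1.1 * b) (by linarith)]
  · refine far_small (Nat.succ_le_succ hk) (by positivity) ?_ (by positivity) (by linarith)
    rw [div_le_iff₀ (by positivity)]
    nlinarith

end Pool.Agent.P.MP_ee6314_co
end

-- part Pool.Agent.P.MP_ee6314_co.Base
section

/-! The base case: two roots inside the circle at the parameter five halves. -/

namespace Pool.Agent.P.MP_ee6314_co
open Polynomial

namespace Base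

/-- Value of a list of rational coefficients. -/
noncomputable def ev : List ℚ → ℂ → ℂ
  | [], _ => 0
  | a :: l, z => a + z * ev l z

/-- Majorant. -/
def maj : List ℚ → ℚ → ℚ
  | [], _ => 0
  | a :: l, R => |a| + R * maj l R

/-- Rational value. -/
def evQ : List ℚ → ℚ → ℚ
  | [], _ => 0
  | a :: l, x => a + x * evQ l x

def addL : List ℚ → List ℚ → List ℚ
  | [], m => m
  | a :: l, [] => a :: l
  | a :: l, b :: m => (a + b) :: addL l m

def mulL : List ℚ → List ℚ → List ℚ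
  | [], _ => []
  | a :: l, m => addL (m.map (a * ·)) (0 :: mulL l m)

theorem ev_addL (l m : List ℚ) (z : ℂ) : ev (addL l m) z = ev l z + ev m z := by
  induction l generalizing m with
  | nil => simp [addL, ev]
  | cons a l ih =>
    cases m with
    | nil => simp [addL, ev]
    | cons b m => simp only [addL, ev, ih]; push_cast; ring

theorem ev_map (a : ℚ) (m : List ℚ) (z : ℂ) : ev (m.map (a * ·)) z = a * ev m z := by
  induction m with
  | nil => simp [ev]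
  | cons b m ih => simp only [List.map_cons, ev, ih]; push_cast; ring

theorem ev_mulL (l m : List ℚ) (z : ℂ) : ev (mulL l m) z = ev l z * ev m z := by
  induction l with
  | nil => simp [mulL, ev]
  | cons a l ih => simp only [mulL, ev_addL, ev_map, ev, ih]; push_cast; ring

theorem norm_ev_le (l : List ℚ) {z : ℂ} {R : ℚ} (h : ‖z‖ ≤ R) : ‖ev l z‖ ≤ maj l R := by
  induction l with
  | nil => simp [ev, maj]
  | cons a l ih =>
    simp only [ev, maj]
    refine (norm_add_le _ _).trans ?_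
    rw [norm_mul, Complex.norm_ratCast]
    push_cast
    gcongr
    exact (norm_nonneg _).trans h

theorem ev_ratCast (l : List ℚ) (x : ℚ) : ev l x = (evQ l x : ℚ) := by
  induction l with
  | nil => simp [ev, evQ]
  | cons a l ih => simp only [ev, evQ, ih]; push_cast; ring

theorem ev_range (f : ℕ → ℚ) (n : ℕ) (z : ℂ) :
    ev ((List.range n).map f) z = ∑ i ∈ Finset.range n, (f i : ℂ) * z ^ i := by
  induction n generalizing f with
  | zero => simp [ev]
  | succ n ih =>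
    rw [List.range_succ_eq_map, List.map_cons, List.map_map, ev, ih, Finset.sum_range_succ',
      Finset.mul_sum]
    simp only [Function.comp, Nat.succ_eq_add_one, pow_zero, mul_one]
    rw [add_comm]
    congr 1
    exact Finset.sum_congr rfl fun i _ => by ring

/-- Catalan numbers and moments. -/
def st : ℕ → ℚ × ℚ
  | 0 => (1, 1)
  | n + 1 => (2 * (2 * n + 1) / (n + 2) * (st n).1, 5 / 2 * (st n).1 - 25 / 14 * (st n).2)

theorem st_eq (n : ℕ) : ((st n).1 : ℝ) = catalan n ∧ ((st n).2 : ℝ) = mu (5 / 2) n := by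
  induction n with
  | zero => simp [st, mu_zero]
  | succ n ih =>
    have h1 : ((n : ℝ) + 2) * catalan (n + 1) = 2 * (2 * n + 1) * catalan n := by
      exact_mod_cast catalan_rec n
    constructor
    · simp only [st]
      push_cast
      rw [ih.1]
      field_simp
      linarith
    · simp only [st]
      push_cast
      rw [ih.1, ih.2, mu_succ (by norm_num), kap]
      norm_num

def cfQ (n : ℕ) : ℚ := (st n).2 / (2 * n).factorial

theorem cfQ_eq (n : ℕ) : (cfQ n : ℝ) = cf (5 / 2) n := by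
  rw [cfQ, cf, ← (st_eq n).2]
  push_cast
  rfl

/-- Comparison polynomial as a list. -/
def qL : List ℚ → List ℚ
  | [] => [1]
  | r :: l => mulL [1, 1 / r] (qL l)

/-- Comparison polynomial. -/
noncomputable def qP : List ℚ → ℂ[X]
  | [] => 1
  | r :: l => C (1 / r : ℂ) * (X - C (-r : ℂ)) * qP l

/-- Lower bound on the circle. -/
def low (R : ℚ) : List ℚ → ℚ
  | [] => 1
  | r :: l => |1 - R / r| * low R l

theorem qP_spec {R : ℚ} (l : List ℚ) (h : ∀ r ∈ l, 0 < r) :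
    qP l ≠ 0 ∧ (ins (qP l) R).card = (l.filter (· < R)).length ∧
      (∀ z, (qP l).eval z = ev (qL l) z) ∧ ∀ z : ℂ, ‖z‖ = R → (low R l : ℝ) ≤ ‖(qP l).eval z‖ := by
  induction l with
  | nil => simp [qP, qL, ev, low, ins]
  | cons r l ih =>
    obtain ⟨h1, h2, h3, h4⟩ := ih fun s hs => h s (List.mem_cons_of_mem _ hs)
    have hr : 0 < r := h r List.mem_cons_self
    have hr' : (r : ℂ) ≠ 0 := by exact_mod_cast hr.ne'
    have hrr : (0 : ℝ) < r := by exact_mod_cast hr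
    have hc : (1 / r : ℂ) ≠ 0 := one_div_ne_zero hr'
    have h0 : qP (r :: l) ≠ 0 :=
      mul_ne_zero (mul_ne_zero (C_ne_zero.2 hc) (X_sub_C_ne_zero _)) h1
    have he : ∀ z, (qP (r :: l)).eval z = (1 + z / r) * (qP l).eval z := by
      intro z
      simp only [qP, eval_mul, eval_C, eval_sub, eval_X]
      field_simp
      ring
    refine ⟨h0, ?_, fun z => ?_, fun z hz => ?_⟩
    · unfold ins at h2 ⊢
      have h0' := h0
      unfold qP at h0' ⊢
      rw [roots_mul h0', roots_C_mul _ hc, roots_X_sub_C, Multiset.filter_add, Multiset.card_add,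
        h2, List.filter_cons, Multiset.filter_singleton]
      have : ‖(-r : ℂ)‖ < R ↔ r < R := by
        rw [norm_neg, Complex.norm_ratCast, abs_of_pos hrr]
        exact_mod_cast Iff.rfl
      by_cases hh : r < R
      · rw [if_pos (this.2 hh)]; simp [hh, add_comm]
      · rw [if_neg (fun h => hh (this.1 h))]; simp [hh]
    · rw [he, h3, qL, ev_mulL]
      simp only [ev]
      push_cast
      ring
    · rw [he, norm_mul, low]
      push_cast
      refine le_trans (mul_le_mul_of_nonneg_left (h4 z hz) ?_)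
        (mul_le_mul_of_nonneg_right ?_ (norm_nonneg _))
      swap
      · have := abs_norm_sub_norm_le (1 : ℂ) (-(z / r))
        rwa [norm_one, norm_neg, norm_div, hz, Complex.norm_ratCast, abs_of_pos hrr,
          sub_neg_eq_add] at this
      · exact abs_nonneg _

/-- Approximate zeros. -/
def rs : List ℚ := [8381565501480, 10560393585582, 27424457791762, 45273401106231,
  68879868550961, 97223363994580, 130540566345099, 168784807086573, 211964949845807,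
  260079550132093, 313128906911342, 371113005203700].map (· / 10 ^ 12)

/-- Approximate cofactor minus one. -/
def tl : List ℚ := [0, 317484466642 / 10 ^ 13, 490847506820 / 10 ^ 15, 492956283899 / 10 ^ 17,
  361956079197 / 10 ^ 19, 207353214537 / 10 ^ 21, 96581098794 / 10 ^ 23, 37637720744 / 10 ^ 25,
  12531019714 / 10 ^ 27]

def p0 : List ℚ := (List.range 22).map cfQ

def rem : List ℚ := addL p0 (mulL [-1] (mulL (qL rs) (addL [1] tl)))

theorem num1 : 2 * (441 / 25) ^ 22 * cfQ 22 ≤ 1 / 10 ^ 6 := by decide +kernel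

theorem num2 : maj rem (441 / 25) ≤ 1 / 10 ^ 6 := by decide +kernel

theorem num3 : maj tl (441 / 25) ≤ 3 / 4 := by decide +kernel

theorem num4 : 1 / 20 ≤ low (441 / 25) rs := by decide +kernel

theorem num5 : evQ p0 (-19 / 2) ≤ -1 / 1000 := by decide +kernel

theorem num6 : (rs.filter (· < 441 / 25)).length = 2 := by decide +kernel

theorem num7 : ∀ r ∈ rs, 0 < r := by decide +kernel

theorem close {D : ℕ}
    (hD : ∀ v : ℂ, ‖v‖ ≤ 5 → ‖Psi (5 / 2) v - (poly (cf (5 / 2)) D).eval (v ^ 2)‖ ≤ 1 / 10 ^ 6)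
    {z : ℂ} (hz : ‖z‖ ≤ 441 / 25) : ‖(poly (cf (5 / 2)) D).eval z - ev p0 z‖ ≤ 2 / 10 ^ 6 := by
  obtain ⟨v, rfl⟩ := IsAlgClosed.exists_pow_nat_eq z (show 0 < 2 by norm_num)
  rw [norm_pow] at hz
  have hv : ‖v‖ ≤ 5 := by nlinarith [norm_nonneg v]
  have h1 := hD v hv
  have h2 := norm_Psi_sub_le (y := 5 / 2) (by norm_num) (v := v) (D := 21) (by norm_num; linarith)
  have h3 : ev p0 (v ^ 2) = ∑ n ∈ Finset.range (21 + 1), cf (5 / 2) n * (v ^ 2) ^ n := by
    rw [p0, ev_range]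
    refine Finset.sum_congr rfl fun n _ => ?_
    rw [← cfQ_eq]
    push_cast
    rfl
  have h4 : 2 * ‖v‖ ^ (2 * (21 + 1)) * cf (5 / 2) (21 + 1) ≤ 1 / 10 ^ 6 := by
    have h5 : ((2 * (441 / 25) ^ 22 * cfQ 22 : ℚ) : ℝ) ≤ ((1 / 10 ^ 6 : ℚ) : ℝ) :=
      Rat.cast_le.2 num1
    rw [Rat.cast_mul, cfQ_eq] at h5
    push_cast at h5
    refine le_trans ?_ h5
    have := cf_nonneg (y := 5 / 2) (by norm_num) 22
    rw [pow_mul]
    gcongr
  rw [h3]
  have := norm_sub_le_norm_sub_add_norm_sub ((poly (cf (5 / 2)) D).eval (v ^ 2)) (Psi (5 / 2) v)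
    (∑ n ∈ Finset.range (21 + 1), cf (5 / 2) n * (v ^ 2) ^ n)
  rw [norm_sub_rev] at h1
  linarith

end Base

open Base in
theorem base (D : ℕ)
    (hD : ∀ v : ℂ, ‖v‖ ≤ 5 → ‖Psi (5 / 2) v - (poly (cf (5 / 2)) D).eval (v ^ 2)‖ ≤ 1 / 10 ^ 6) :
    (ins (poly (cf (5 / 2)) D) ((21 / 5) ^ 2)).card = 2 ∧
      ((poly (cf (5 / 2)) D).eval (-19 / 2)).re < 0 := by
  have hR : (((441 / 25 : ℚ) : ℝ)) = 441 / 25 := by push_cast; rfl
  obtain ⟨-, h2, h3, h4⟩ := qP_spec (R := 441 / 25) rs num7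
  constructor
  · rw [show ((21 / 5 : ℝ)) ^ 2 = ((441 / 25 : ℚ) : ℝ) by rw [hR]; norm_num, ← num6, ← h2]
    refine rouche (by rw [hR]; norm_num) fun z hz => ?_
    have a1 := close hD (z := z) (by rw [hz, hR])
    have a2 := (norm_ev_le rem hz.le).trans (Rat.cast_le.2 num2)
    have a3 := (norm_ev_le tl hz.le).trans (Rat.cast_le.2 num3)
    have a4 := (Rat.cast_le.2 num4).trans (h4 z hz)
    push_cast at a2 a3 a4
    have e : (poly (cf (5 / 2)) D).eval z - (qP rs).eval z =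
        ((poly (cf (5 / 2)) D).eval z - ev p0 z) + (ev rem z + (qP rs).eval z * ev tl z) := by
      rw [rem, ev_addL, ev_mulL, ev_mulL, ev_addL, ← h3]
      simp only [ev]
      push_cast
      ring
    rw [e]
    have b1 := norm_add_le ((poly (cf (5 / 2)) D).eval z - ev p0 z)
      (ev rem z + (qP rs).eval z * ev tl z)
    have b2 := norm_add_le (ev rem z) ((qP rs).eval z * ev tl z)
    rw [norm_mul] at b2
    have b3 := mul_le_mul_of_nonneg_left a3 (norm_nonneg ((qP rs).eval z))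
    linarith
  · have a1 := close hD (z := -19 / 2) (by rw [norm_div, norm_neg]; norm_num)
    have a2 : ev p0 (-19 / 2) = ((evQ p0 (-19 / 2) : ℚ) : ℝ) := by
      have := ev_ratCast p0 (-19 / 2)
      push_cast at this ⊢
      exact this
    have a3 : ((evQ p0 (-19 / 2) : ℚ) : ℝ) ≤ ((-1 / 1000 : ℚ) : ℝ) := Rat.cast_le.2 num5
    have a4 := (Complex.re_le_norm _).trans a1
    rw [Complex.sub_re, a2, Complex.ofReal_re] at a4
    push_cast at a3
    linarith

end Pool.Agent.P.MP_ee6314_co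
end

-- part Pool.Agent.P.MP_ee6314_co.Path
section

/-! Following the inner pair of zeros along the parameter. -/

namespace Pool.Agent.P.MP_ee6314_co

open Real Set

theorem yA_anti {a b : ℝ} (ha : 12 ≤ a) (h : a ≤ b) : yA b ≤ yA a := by
  have e : ∀ ξ, 12 ≤ ξ → yA ξ = 8 * √π * exp (3 / 2 * log (ξ - 7 / 8) - 2 * ξ) := fun ξ h => by
    have h0 : 0 < ξ - 7 / 8 := by linarith
    rw [yA, sub_eq_add_neg _ (2 * ξ), exp_add, show 3 / 2 * log (ξ - 7 / 8) =
      log (ξ - 7 / 8) + log (ξ - 7 / 8) * (1 / 2) by ring, exp_add, exp_log h0,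
      ← rpow_def_of_pos h0, ← sqrt_eq_rpow]
    ring
  have h1 := log_sub_le (a := b - 7 / 8) (b := a - 7 / 8) (by linarith) (by linarith)
  have h2 : (b - 7 / 8 - (a - 7 / 8)) / (a - 7 / 8) ≤ b - 7 / 8 - (a - 7 / 8) :=
    div_le_self (by linarith) (by linarith)
  rw [e a ha, e b (ha.trans h)]
  exact mul_le_mul_of_nonneg_left (exp_le_exp.2 (by linarith)) (by positivity)

theorem yA_twelve : yA 12 ∈ Icc (19 / 10 ^ 9 : ℝ) (21 / 10 ^ 9) := by
  have a1 : 1.77 ≤ √π := le_sqrt_of_sq_le (by linarith [pi_gt_d2])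
  have a2 : √π ≤ 1.78 := by rw [sqrt_le_left (by norm_num)]; linarith [pi_lt_d2]
  have b1 : 3.33 ≤ √(12 - 7 / 8 : ℝ) := le_sqrt_of_sq_le (by norm_num)
  have b2 : √(12 - 7 / 8 : ℝ) ≤ 3.34 := by rw [sqrt_le_left (by norm_num)]; norm_num
  have c : exp (-(2 * 12)) = exp (-1) ^ 24 := by rw [← exp_nat_mul]; norm_num
  have c1 := exp_neg_one_gt_d9
  have c2 := exp_neg_one_lt_d9
  rw [yA, c]
  constructor
  · calc _ ≤ 8 * 1.77 * ((12 - 7 / 8) * 3.33) * (0.36787944116 : ℝ) ^ 24 := by norm_num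
      _ ≤ _ := by gcongr
  · calc _ ≤ 8 * 1.78 * ((12 - 7 / 8) * 3.34) * (0.3678794412 : ℝ) ^ 24 := by gcongr
      _ ≤ _ := by norm_num

theorem continuous_cf {Y : ℝ → ℝ} (hY : Continuous Y) (h0 : ∀ s, 0 < Y s) (n : ℕ) :
    Continuous fun s => cf (Y s) n := by
  have : Continuous fun s => mo (-Y s) n := by
    induction n with
    | zero => simpa [mo_zero] using continuous_const
    | succ n ih =>
      simp only [mo_succ]
      fun_prop
  unfold cf mu
  exact (this.div (by fun_prop) fun s => by have := h0 s; positivity).div_const _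

theorem big {k : ℕ} (hk : 63 ≤ k) {R : ℝ → ℝ} (hR : Continuous R) (h0 : R (yA 12) ^ 2 = 156)
    (h1 : R (5 / 2) = 21 / 5) (hA : ∀ y ∈ Icc (yA 12) (5 / 2), ∃ a b, 0 < a ∧ a ≤ R y ∧ R y ≤ b ∧
      b ≤ 12.8 ∧ 1.025 * a ≤ b ∧ ∀ v : ℂ, a ≤ ‖v‖ → ‖v‖ ≤ b → 1 / 10 ^ 6 < ‖Psi y v‖) :
    ∃ a, HR (red k) a (k - 1) := by
  have hK : (64 : ℝ) ≤ (k + 1 : ℕ) := by exact_mod_cast Nat.succ_le_succ hk
  obtain ⟨D, hD, hT⟩ := trunc (k + 1) (ε := 0.001 / (k + 1 : ℕ) ^ 2) (by positivity)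
  have hK' : ((k + 1 : ℕ) : ℝ) = k + 1 := Nat.cast_succ k
  generalize ((k + 1 : ℕ) : ℝ) = K at *
  have y12 := yA_twelve
  have tA : ∀ ξ, 12 ≤ ξ → ξ ≤ 0.6 * K → ∀ v : ℂ, ‖v‖ ≤ 1.1 * ξ →
      ‖Psi (yA ξ) v - (poly (cf (yA ξ)) D).eval (v ^ 2)‖ ≤ 0.008 / ξ ^ 2 := fun ξ a1 a2 v hv =>
    (hT _ (yA_pos a1) v (by linarith)).trans (by gcongr; norm_num; linarith)
  have tC : ∀ y, 0 < y → ∀ v : ℂ, ‖v‖ ≤ 12.8 →
      ‖Psi y v - (poly (cf y) D).eval (v ^ 2)‖ ≤ 1 / 10 ^ 6 := fun y hy v hv =>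
    (hT y hy v (by linarith)).trans (by rw [div_le_iff₀ (by positivity)]; nlinarith)
  obtain ⟨Y, hY⟩ : ∃ Y : ℝ → ℝ, Y = fun s => yA (max (-s) 12) + max (s + 12) 0 := ⟨_, rfl⟩
  obtain ⟨S, hS⟩ : ∃ S : ℝ → ℝ,
    S = fun s => R (yA 12 + max (s + 12) 0) ^ 2 + (max (-s) 12 ^ 2 - 144) := ⟨_, rfl⟩
  have eA : ∀ s, s ≤ -12 → Y s = yA (-s) ∧ S s = (-s) ^ 2 + 12 := fun s hs => by
    simp only [hY, hS]
    rw [max_eq_left (by linarith), max_eq_right (by linarith), add_zero, add_zero, h0]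
    exact ⟨rfl, by ring⟩
  have eC : ∀ s, -12 ≤ s → Y s = yA 12 + (s + 12) ∧ S s = R (Y s) ^ 2 := fun s hs => by
    simp only [hY, hS]
    rw [max_eq_right (by linarith), max_eq_left (by linarith)]
    exact ⟨rfl, by ring⟩
  have Y0 : ∀ s, 0 < Y s := fun s => hY ▸
    add_pos_of_pos_of_nonneg (yA_pos (le_max_right _ _)) (le_max_right _ _)
  have Y1 : Continuous Y := by rw [hY]; unfold yA; fun_prop
  have Y2 : Monotone Y := fun s t h => hY ▸ add_le_add
    (yA_anti (le_max_right _ _) (max_le_max_right _ (neg_le_neg h)))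
    (max_le_max_right _ (by linarith))
  have S1 : Continuous S := by rw [hS]; fun_prop
  have cC : ∀ s ∈ Icc (-(0.6 * K)) (5 / 2 - yA 12 - 12), -12 ≤ s → Y s ∈ Icc (yA 12) (5 / 2) :=
    fun s hs h => by rw [(eC s h).1]; exact ⟨by linarith, by linarith [hs.2]⟩
  have hab : -(0.6 * K) ≤ 5 / 2 - yA 12 - 12 := by linarith [y12.2]
  have hb : -12 ≤ 5 / 2 - yA 12 - 12 := by linarith [y12.2]
  have hc := continuous_cf Y1 Y0
  have hps := continuousOn_psum (p := fun s => poly (cf (Y s)) D) (R := S)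
    (S := Icc (-(0.6 * K)) (5 / 2 - yA 12 - 12)) ?_ ?_ S1.continuousOn ?_ ?_
  rotate_left
  · simp only [eval_poly]
    exact (continuous_finsetSum _ fun n _ => (Complex.continuous_ofReal.comp
      ((hc n).comp continuous_fst)).mul (by fun_prop)).continuousOn
  · simp only [poly, map_sum, Polynomial.derivative_C_mul, Polynomial.eval_finsetSum,
      Polynomial.eval_mul, Polynomial.eval_C]
    exact (continuous_finsetSum _ fun n _ => (Complex.continuous_ofReal.comp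
      ((hc n).comp continuous_fst)).mul (by fun_prop)).continuousOn
  · intro s hs
    rcases le_total s (-12) with h | h
    · rw [(eA s h).2]; positivity
    · obtain ⟨a, b, a1, a2, -⟩ := hA _ (cC s hs h)
      rw [(eC s h).2]
      exact pow_pos (a1.trans_le a2) 2
  · intro s hs z hz e
    rcases le_total s (-12) with h | h
    · rw [(eA s h).2] at hz
      rw [(eA s h).1] at e
      obtain ⟨x, t, J, L, b1, -⟩ := root_loc (ξ := -s) (by linarith)
        (tA _ (by linarith) (by linarith [hs.1])) e (by nlinarith)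
      rcases L.lt_iff (by linarith) with h | h <;> linarith [h.2]
    · obtain ⟨a, b, a1, a2, a3, a4, -, a6⟩ := hA _ (cC s hs h)
      rw [(eC s h).2] at hz
      have a7 : a ^ 2 ≤ R (Y s) ^ 2 := by gcongr
      have a8 : R (Y s) ^ 2 ≤ b ^ 2 := by gcongr; linarith
      rcases root_out a6 (fun v hv => tC _ (Y0 s) v (hv.trans a4)) (by linarith) e with h | h <;>
        linarith
  have e1 : Y (5 / 2 - yA 12 - 12) = 5 / 2 := by rw [(eC _ hb).1]; ring
  have e3 : S (5 / 2 - yA 12 - 12) = (21 / 5) ^ 2 := by rw [(eC _ hb).2, e1, h1]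
  obtain ⟨b1, b2⟩ := base D fun v hv => tC _ (by norm_num) v (by linarith)
  have h2 : ∀ s ∈ Icc (-(0.6 * K)) (5 / 2 - yA 12 - 12),
      (ins (poly (cf (Y s)) D) (S s)).card = 2 := fun s hs => by
    rw [card_ins_eq isPreconnected_Icc (hps 0) hs (right_mem_Icc.2 hab), e1, e3, b1]
  have hp := fun s hs => pair (cf_zero _) (cf_nonneg (Y0 s)) (h2 s hs)
  refine chain (u := fun s => cs (poly (cf (Y s)) D) (S s)) (by omega) (red_continuous k)
    (red_zero k) hab ?_ Y2 (fun s => (Y0 s).le) ?_ ?_ fun s hs m m1 m2 e => ?_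
  · refine (Complex.continuous_re.comp_continuousOn (hps 1)).div
      (continuousOn_const.mul (ContinuousOn.sqrt ((Complex.continuous_re.comp_continuousOn
        (((hps 1).pow 2).sub (hps 2))).div_const 2))) fun s hs => ?_
    have := (hp s hs).1
    positivity
  · have a1 := hp _ (left_mem_Icc.2 hab)
    obtain ⟨z, hz⟩ := Multiset.card_pos_iff_exists_mem.1 (h2 _ (left_mem_Icc.2 hab) ▸ two_pos)
    have a2 : |z.arg| ≤ (2 : ℕ) * π / (k + 1) := by
      rw [(eA _ (by linarith)).1, (eA _ (by linarith)).2, neg_neg] at hz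
      obtain ⟨-, -, -, -, -, a3⟩ := first_A (by linarith) (tA _ (by linarith) le_rfl) hz
      refine a3.trans ?_
      rw [← hK', div_le_div_iff₀ (by positivity) (by positivity)]
      push_cast
      nlinarith [pi_gt_three]
    have a3 : (2 : ℕ) * π / (k + 1) < π := by
      rw [← hK', div_lt_iff₀ (by positivity)]
      push_cast
      nlinarith [pi_pos]
    obtain ⟨r, -, a4⟩ := a1.2.resolve_left fun h => by linarith [h.2 z hz]
    rw [← (a4 z hz).2]
    exact cos_le_cos_of_nonneg_of_le_pi (abs_nonneg _) a3.le a2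
  · have a1 := hp _ (right_mem_Icc.2 hab)
    simp only [e1, e3] at a1 ⊢
    have a2 : ∀ x : ℝ, (poly (cf (5 / 2)) D).eval (x : ℂ) =
        (∑ n ∈ Finset.range (D + 1), cf (5 / 2) n * x ^ n : ℝ) := fun x => by simp [eval_poly]
    obtain ⟨x, hx, a3⟩ := intermediate_value_Ioo (a := -19 / 2) (b := 0)
      (f := fun x : ℝ => ((poly (cf (5 / 2)) D).eval (x : ℂ)).re) (by norm_num) (by fun_prop)
      (show 0 ∈ Ioo _ _ from ⟨by simpa using b2, by simp [eval_zero_poly (cf_zero _)]⟩)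
    rcases a1.2 with h | ⟨r, -, h⟩
    · exact h.1
    · rw [← (h x ?_).2, Complex.arg_ofReal_of_neg hx.2, abs_of_pos pi_pos, cos_pi]
      simp only [a2, Complex.ofReal_re] at a3
      rw [mem_ins (cf_zero _), a2, a3, Complex.norm_real, norm_of_nonpos hx.2.le]
      exact ⟨rfl, by linarith [hx.1]⟩
  · have m3 : (m : ℝ) ≤ k := by exact_mod_cast m2
    have a1 : m * π / (k + 1) < π := by
      rw [div_lt_iff₀ (by positivity)]
      nlinarith [pi_pos]
    have a0 : 0 ≤ m * π / (k + 1) := by positivity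
    obtain ⟨r, hr, a2⟩ := (hp s hs).2.resolve_left fun h => by
      have := cos_lt_cos_of_nonneg_of_le_pi a0 le_rfl a1
      linarith [h.1, cos_pi]
    have a3 : ∀ z ∈ ins (poly (cf (Y s)) D) (S s), ‖z‖ = r ∧ |z.arg| = m * π / (k + 1) :=
      fun z hz => ⟨(a2 z hz).1, injOn_cos ⟨abs_nonneg _, Complex.abs_arg_le_pi z⟩ ⟨a0, a1.le⟩
        ((a2 z hz).2.trans e)⟩
    have a4 := h2 s hs
    refine sign_of_sum (Y0 s) hD hr ?_
    rcases le_total s (-12) with h | h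
    · rw [(eA s h).1, (eA s h).2] at *
      exact dom_A (by linarith) (tA _ (by linarith) (by linarith [hs.1])) hk m1 hr a4 a3
    · obtain ⟨a, b, c1, c2, c3, c4, c5, c6⟩ := hA _ (cC s hs h)
      rw [(eC s h).2] at a3 a4
      exact dom_C (Y0 s) c6 (fun v hv => tC _ (Y0 s) v (hv.trans c4)) c1 c2 c3 c4 c5 hk hr a4 a3

end Pool.Agent.P.MP_ee6314_co
end
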